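import Pool.Agent.H772R2.NS.Pub

/-!
Public definitions: one-sided bounds for the velocity differences of pairs of points.
-/

set_option autoImplicit false

open MeasureTheory Set
open scoped InnerProductSpace

namespace Pool.Agent.TH340.FF

open H772R2.NS.Pub

/-- The function on `ℝ³` which is `v` in `Ω` and `0` outside. -/
noncomputable def ext0 {Ω : Set R3} (v : L2 Ω R3) : R3 → R3 := Ω.indicator v.fn

/-- Particles approach slowly: `(x - y)·(v(x) - v(y)) ≥ -κ - B |x - y|²` for almost all pairs of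
points `x, y ∈ ℝ³` at distance less than `r`, where `v = 0` outside `Ω`. -/
def Approach {Ω : Set R3} (κ B r : ℝ) (v : L2 Ω R3) : Prop :=
  ∀ᵐ z : R3 × R3 ∂((volume : Measure R3).prod (volume : Measure R3)), ‖z.1 - z.2‖ < r →
    -κ - B * ‖z.1 - z.2‖ ^ 2 ≤ ⟪z.1 - z.2, ext0 v z.1 - ext0 v z.2⟫_ℝ

/-- Particles separate slowly: `(x - y)·(v(x) - v(y)) ≤ κ + B |x - y|²` for almost all pairs of
points `x, y ∈ ℝ³` at distance less than `r`, where `v = 0` outside `Ω`. -/
def Separate {Ω : Set R3} (κ B r : ℝ) (v : L2 Ω R3) : Prop :=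
  ∀ᵐ z : R3 × R3 ∂((volume : Measure R3).prod (volume : Measure R3)), ‖z.1 - z.2‖ < r →
    ⟪z.1 - z.2, ext0 v z.1 - ext0 v z.2⟫_ℝ ≤ κ + B * ‖z.1 - z.2‖ ^ 2

/-- For some `B ≥ 0` and `r > 0` with `B + 4 c ν / r² ≤ β`, particles at distance less than `r`
approach slowly, with the constants `c ν` and `B`, or they separate slowly, with `c ν / 4` and
`B / 2`. -/
def SlowPairs {Ω : Set R3} (c ν β : ℝ) (v : L2 Ω R3) : Prop :=
  ∃ B r : ℝ, 0 ≤ B ∧ 0 < r ∧ B + 4 * (c * ν) / r ^ 2 ≤ β ∧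
    (Approach (c * ν) B r v ∨ Separate (c * ν / 4) (B / 2) r v)

end Pool.Agent.TH340.FF
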