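import Pool.Agent.TH340.FF.Form5
import Pool.Agent.TH340.FF.PubDef
import Pool.Agent.Results.MP_fd8964_an.EnergyStability

/-!
Application to Leray-Hopf solutions in bounded domains.
-/

set_option autoImplicit false

open MeasureTheory Set Filter Topology
open scoped InnerProductSpace ENNReal ContDiff

namespace Pool.Agent.TH340.FF

open H772R2.NS

section

variable {Ω : Set E3}

theorem locBd_of_approach {κ B r : ℝ} {U : L2V Ω}
    (h : Approach (Ω := (show Set H772R2.NS.Pub.R3 from Ω)) κ B r U) : LocBd κ B r (ext Ω U) := h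

theorem locBd_of_separate {κ B r : ℝ} {U : L2V Ω}
    (h : Separate (Ω := (show Set H772R2.NS.Pub.R3 from Ω)) κ B r U) :
    LocBd κ B r fun x => -ext Ω U x := by
  have h' : ∀ᵐ z : E3 × E3 ∂((volume : Measure E3).prod (volume : Measure E3)), ‖z.1 - z.2‖ < r →
    ⟪z.1 - z.2, ext Ω U z.1 - ext Ω U z.2⟫_ℝ ≤ κ + B * ‖z.1 - z.2‖ ^ 2 := h
  filter_upwards [h'] with z hz hzr
  have h1 := hz hzr
  have e1 : (-ext Ω U z.1 - -ext Ω U z.2) = -(ext Ω U z.1 - ext Ω U z.2) := by abel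
  rw [e1, inner_neg_right]
  linarith

/-- the form inequality from slow pairs -/
theorem slow_form (hΩ : MeasurableSet Ω) (hb : Bornology.IsBounded Ω) {c ν β : ℝ} (hc : 0 ≤ c)
    (hν : 0 < ν) {U : L2V Ω} {G : L2M Ω} (hU : (U, G) ∈ graphW Ω)
    (hs : SlowPairs (Ω := (show Set H772R2.NS.Pub.R3 from Ω)) c ν β U)
    {p : L2V Ω × L2M Ω} (hp : p ∈ graphW Ω) :
    -⟪tensL p.1, G⟫_ℝ ≤ c / (2 * Real.log 2 ^ 2) * ν * ‖p.2‖ ^ 2 + 5 / 2 * β * ‖p.1‖ ^ 2 := by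
  obtain ⟨B, r, hB, hr, hle, h | h⟩ := hs
  · have h1 : PairBd (c * ν) β (ext Ω U) := ⟨B, r, hB, hr, hle, locBd_of_approach h⟩
    refine (formA hΩ hb (by positivity) hU h1 hp).trans (le_of_eq ?_)
    field_simp
  · have h1 : PairBd (c * ν / 4) (β / 2) fun x => -ext Ω U x :=
      ⟨B / 2, r, by positivity, hr, by
        have e1 : 4 * (c * ν / 4) / r ^ 2 = 1 / 4 * (4 * (c * ν) / r ^ 2) := by ring
        have e2 : 0 ≤ 4 * (c * ν) / r ^ 2 := by positivity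
        rw [e1]
        linarith, locBd_of_separate h⟩
    refine (formB hΩ hb (by positivity) hU h1 hp).trans (le_of_eq ?_)
    field_simp
    ring

/-- the form inequality from a bound for the gradient -/
theorem grad_form (hΩ : MeasurableSet Ω) {M ε : ℝ} (hε : 0 < ε) :
    ∃ C : ℝ, 0 ≤ C ∧ ∀ G : L2M Ω, ‖G‖ ≤ M → ∀ p ∈ graphW Ω,
      -⟪tensL p.1, G⟫_ℝ ≤ ε * ‖p.2‖ ^ 2 + C * ‖p.1‖ ^ 2 := by
  set S : ℝ := (CS : ℝ) ^ 3 with hS
  have hS0 : 0 ≤ S := by positivity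
  refine ⟨M ^ 4 * S ^ 2 / ε ^ 3, by positivity, fun G hG p hp => ?_⟩
  have h1 : -⟪tensL p.1, G⟫_ℝ ≤ M * ‖tensL p.1‖ := by
    have := abs_real_inner_le_norm (tensL p.1) G
    have h2 := (abs_le.1 this).1
    have h3 : ‖tensL p.1‖ * ‖G‖ ≤ ‖tensL p.1‖ * M := by gcongr
    linarith
  refine h1.trans ?_
  have h4 := norm_tensL_sq_le hΩ hp
  rw [← hS] at h4
  set X := ‖tensL p.1‖
  set a := ‖p.1‖
  set b := ‖p.2‖
  have ha : 0 ≤ a := norm_nonneg _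
  have hb : 0 ≤ b := norm_nonneg _
  have hX : 0 ≤ X := norm_nonneg _
  have h5 : (M * X) ^ 4 ≤ (ε * b ^ 2 + M ^ 4 * S ^ 2 / ε ^ 3 * a ^ 2) ^ 4 := by
    set x := ε * b ^ 2 with hx
    set y := M ^ 4 * S ^ 2 / ε ^ 3 * a ^ 2 with hy
    have hx0 : 0 ≤ x := by positivity
    have hy0 : 0 ≤ y := by positivity
    have e1 : x ^ 3 * y = M ^ 4 * (S * (a * b ^ 3)) ^ 2 := by
      rw [hx, hy]; field_simp
    have h6 : (M * X) ^ 4 ≤ x ^ 3 * y := by
      rw [e1]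
      calc (M * X) ^ 4 = M ^ 4 * (X ^ 2) ^ 2 := by ring
        _ ≤ M ^ 4 * (S * (a * b ^ 3)) ^ 2 := by gcongr
    refine h6.trans ?_
    have e2 : (x + y) ^ 4 = x ^ 3 * y + (x ^ 4 + 3 * x ^ 3 * y + 6 * x ^ 2 * y ^ 2
      + 4 * x * y ^ 3 + y ^ 4) := by ring
    rw [e2]
    have : 0 ≤ x ^ 4 + 3 * x ^ 3 * y + 6 * x ^ 2 * y ^ 2 + 4 * x * y ^ 3 + y ^ 4 := by positivity
    linarith
  exact le_of_pow_le_pow_left₀ (by norm_num) (by positivity) h5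

end

end Pool.Agent.TH340.FF
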