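import Pool.Agent.TH340.FF.Ac

/-!
An absolute continuity criterion: conclusion.
-/

set_option autoImplicit false

open MeasureTheory Set Filter Topology

namespace Pool.Agent.TH340.FF

theorem refl_int (f : ℝ → ℝ) (T a b : ℝ) :
    ∫ r in a..b, f (T - r) = ∫ r in (T - b)..(T - a), f r :=
  intervalIntegral.integral_comp_sub_left f T

/-- reflection of the hypotheses -/
theorem AcH.refl {T A : ℝ} {E ψ g : ℝ → ℝ} {good : Set ℝ} (H : AcH T A E ψ g good) :
    AcH T A (fun r => E (T - r)) (fun r => ψ (T - r)) (fun r => g (T - r))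
      {r | T - r ∈ good} where
  A0 := H.A0
  gd := by
    have h := (Measure.measurePreserving_sub_left (volume : Measure ℝ) T).quasiMeasurePreserving.ae
      H.gd
    filter_upwards [h] with t ht h0
    exact ht ⟨by linarith [h0.2], by linarith [h0.1]⟩
  ψ0 := fun t => H.ψ0 _
  g0 := fun t => H.g0 _
  ψi := by
    have := H.ψi.comp_sub_left T
    rw [sub_self, sub_zero] at this
    exact this.symm
  gi := by
    have := H.gi.comp_sub_left T
    rw [sub_self, sub_zero] at this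
    exact this.symm
  h1 := fun s hs t ht h0 hst htT => by
    have h := H.h1 (T - t) ht (T - s) hs (by linarith) (by linarith) (by linarith)
    rw [refl_int g T s t]
    rw [abs_sub_comm] at h
    refine h.trans (le_of_eq ?_)
    ring
  h2 := fun s hs => by
    obtain ⟨R, hR, hR2⟩ := H.h2 (T - s) ⟨by linarith [hs.2], by linarith [hs.1]⟩
    refine ⟨fun r => R (T - r), ?_, fun t ht htg => ?_⟩
    · refine hR.comp ?_
      refine tendsto_nhdsWithin_iff.2 ⟨?_, ?_⟩
      · exact ((continuous_const.sub continuous_id).tendsto s).mono_left nhdsWithin_le_nhds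
      · filter_upwards [self_mem_nhdsWithin] with r hr
        exact ⟨by linarith [hr.2], by linarith [hr.1]⟩
    · have h := hR2 (T - t) ⟨by linarith [ht.2], by linarith [ht.1]⟩ htg
      rw [refl_int g T s t]
      have e1 : |T - t - (T - s)| = |t - s| := by
        rw [show T - t - (T - s) = -(t - s) by ring, abs_neg]
      rw [e1] at h
      have e2 : |∫ r in (T - s)..(T - t), g r| = |∫ r in (T - t)..(T - s), g r| := by
        rw [intervalIntegral.integral_symm, abs_neg]
      rw [e2] at h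
      exact h

/-- **The bound** -/
theorem AcH.bound {T A : ℝ} {E ψ g : ℝ → ℝ} {good : Set ℝ} (H : AcH T A E ψ g good) {s t : ℝ}
    (hs : 0 ≤ s) (hst : s ≤ t) (ht : t ≤ T) :
    |E t - E s| ≤ 16 * ∫ r in s..t, (g r + A * ψ r) := by
  rcases eq_or_lt_of_le hst with h0 | h0
  · rw [h0]; simp
  have iψ := sub_int H.ψi hs hst ht
  have ig := sub_int H.gi hs hst ht
  have hψ0 : 0 ≤ ∫ r in s..t, ψ r := intervalIntegral.integral_nonneg hst fun r _ => H.ψ0 r
  have hg0 : 0 ≤ ∫ r in s..t, g r := intervalIntegral.integral_nonneg hst fun r _ => H.g0 r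
  have hA := H.A0
  obtain ⟨σ, hσI, hσg, hσψ, hσE⟩ := H.right hs h0 ht
  obtain ⟨σ', hσI', hσg', hσψ', hσE'⟩ := H.refl.right (s := T - t) (t := T - s) (by linarith)
    (by linarith) (by linarith)
  rw [refl_int ψ T, sub_sub_cancel, sub_sub_cancel] at hσψ' hσE'
  rw [refl_int g T, sub_sub_cancel, sub_sub_cancel] at hσE'
  set ρ := T - σ' with hρ
  have hρ1 : s < ρ := by rw [hρ]; linarith [hσI'.2]
  have hρ2 : ρ < (s + t) / 2 := by
    have := hσI'.1
    rw [hρ]
    linarith
  have hρσ : ρ ≤ σ := by linarith [hσI.1]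
  have e1 : T - s - (T - t) = t - s := by ring
  rw [e1] at hσψ'
  have h3 := H.h1 ρ hσg' σ hσg (by linarith) hρσ (by linarith [hσI.2])
  have h4 : ∫ r in ρ..σ, g r ≤ ∫ r in s..t, g r :=
    int_mono_set H.gi H.g0 hs hρ1.le hρσ hσI.2.le ht
  have h5 : (σ - ρ) * (ψ ρ + ψ σ) ≤ 4 * ∫ r in s..t, ψ r := by
    have : (σ - ρ) * (ψ ρ + ψ σ) ≤ (t - s) * (ψ ρ + ψ σ) :=
      mul_le_mul_of_nonneg_right (by linarith [hσI.2]) (add_nonneg (H.ψ0 _) (H.ψ0 _))
    rw [mul_add (t - s)] at this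
    linarith
  have h6 : A * (σ - ρ) * (ψ ρ + ψ σ) ≤ A * (4 * ∫ r in s..t, ψ r) := by
    rw [mul_assoc]
    exact mul_le_mul_of_nonneg_left h5 hA
  have h7 : |E t - E s| ≤ |E t - E ρ| + |E ρ - E σ| + |E σ - E s| := by
    have a1 := abs_sub_le (E t) (E ρ) (E s)
    have a2 := abs_sub_le (E ρ) (E σ) (E s)
    linarith
  rw [abs_sub_comm (E ρ) (E σ)] at h7
  rw [abs_sub_comm] at hσE'
  rw [intervalIntegral.integral_add ig (iψ.const_mul A), intervalIntegral.integral_const_mul]
  have h8 : 0 ≤ A * ∫ r in s..t, ψ r := mul_nonneg hA hψ0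
  have h9 : A * (4 * ∫ r in s..t, ψ r) = 4 * (A * ∫ r in s..t, ψ r) := by ring
  have h10 : 6 * A * ∫ r in s..t, ψ r = 6 * (A * ∫ r in s..t, ψ r) := by ring
  rw [h10] at hσE hσE'
  linarith

/-- **Absolute continuity** -/
theorem AcH.ac {T A : ℝ} {E ψ g : ℝ → ℝ} {good : Set ℝ} (hT : 0 ≤ T) (H : AcH T A E ψ g good) :
    AbsolutelyContinuousOnInterval E 0 T := by
  set k : ℝ → ℝ := fun r => 16 * (g r + A * ψ r) with hk
  have hki : IntervalIntegrable k volume 0 T := (H.gi.add (H.ψi.const_mul A)).const_mul 16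
  have hac : AbsolutelyContinuousOnInterval (fun x => ∫ r in (0 : ℝ)..x, k r) 0 T :=
    hki.absolutelyContinuousOnInterval_intervalIntegral left_mem_uIcc
  rw [absolutelyContinuousOnInterval_iff] at hac ⊢
  intro ε hε
  obtain ⟨δ, hδ, h1⟩ := hac ε hε
  refine ⟨δ, hδ, fun I hI hI2 => ?_⟩
  refine lt_of_le_of_lt (Finset.sum_le_sum fun i hi => ?_) (h1 I hI hI2)
  have h3 := hI.1 i hi
  have hu : uIcc 0 T = Icc 0 T := uIcc_of_le hT
  rw [hu] at h3
  have key : ∀ a b, a ∈ Icc 0 T → b ∈ Icc 0 T → a ≤ b → |E b - E a|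
      ≤ |(∫ r in (0 : ℝ)..b, k r) - ∫ r in (0 : ℝ)..a, k r| := by
    intro a b ha hb hab
    have e1 := intervalIntegral.integral_interval_sub_left (sub_int hki le_rfl hb.1 hb.2)
      (sub_int hki le_rfl ha.1 ha.2)
    rw [e1]
    have h4 := H.bound ha.1 hab hb.2
    refine h4.trans (le_trans (le_of_eq ?_) (le_abs_self _))
    rw [hk, intervalIntegral.integral_const_mul]
  rw [Real.dist_eq, Real.dist_eq]
  rcases le_total (I.2 i).1 (I.2 i).2 with h5 | h5
  · rw [abs_sub_comm, abs_sub_comm (∫ r in (0 : ℝ)..(I.2 i).1, k r)]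
    exact key _ _ h3.1 h3.2 h5
  · exact key _ _ h3.2 h3.1 h5

end Pool.Agent.TH340.FF
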