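import Mathlib

/-!
An absolute continuity criterion.
-/

set_option autoImplicit false

open MeasureTheory Set Filter Topology

namespace Pool.Agent.TH340.FF

/-- a good point at which the function is at most twice the average -/
theorem exists_good {T : ℝ} {ψ : ℝ → ℝ} {good : Set ℝ} (hgood : ∀ᵐ t : ℝ, t ∈ Ioo 0 T → t ∈ good)
    (hψ : IntervalIntegrable ψ volume 0 T) {x y : ℝ} (hx : 0 ≤ x) (hxy : x < y) (hy : y ≤ T) :
    ∃ σ ∈ Ioo x y, σ ∈ good ∧ (y - x) * ψ σ ≤ ∫ r in x..y, ψ r := by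
  have hT : 0 ≤ T := by linarith
  have hint : IntegrableOn ψ (Ioo x y) := by
    rw [intervalIntegrable_iff_integrableOn_Ioc_of_le hT] at hψ
    exact hψ.mono_set (Ioo_subset_Ioc_self.trans (Ioc_subset_Ioc hx hy))
  have hvol : volume (Ioo x y) = ENNReal.ofReal (y - x) := Real.volume_Ioo
  have h0 : volume (Ioo x y) ≠ 0 := by
    rw [hvol]
    simp only [ne_eq, ENNReal.ofReal_eq_zero, not_le]
    linarith
  have h1 : volume (Ioo x y) ≠ ⊤ := by rw [hvol]; exact ENNReal.ofReal_ne_top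
  have hpos := measure_le_setAverage_pos h0 h1 hint
  obtain ⟨σ, ⟨hσ, hle⟩, hσ2⟩ : ∃ σ ∈ {x' ∈ Ioo x y | ψ x' ≤ ⨍ a in Ioo x y, ψ a},
      (σ ∈ Ioo 0 T → σ ∈ good) := by
    by_contra hcon
    push Not at hcon
    refine hpos.ne' (measure_mono_null (t := {t | ¬ (t ∈ Ioo 0 T → t ∈ good)}) ?_ hgood)
    intro σ hσ
    have := hcon σ hσ
    intro h2
    exact this.2 (h2 this.1)
  have hσI : σ ∈ Ioo 0 T := ⟨hx.trans_lt hσ.1, hσ.2.trans_le hy⟩
  refine ⟨σ, hσ, hσ2 hσI, ?_⟩
  rw [setAverage_eq, Measure.real, hvol, ENNReal.toReal_ofReal (by linarith), smul_eq_mul] at hle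
  rw [intervalIntegral.integral_of_le hxy.le, integral_Ioc_eq_integral_Ioo]
  have h3 : 0 < y - x := by linarith
  calc (y - x) * ψ σ ≤ (y - x) * ((y - x)⁻¹ * ∫ r in Ioo x y, ψ r) := by gcongr
    _ = _ := by rw [← mul_assoc, mul_inv_cancel₀ h3.ne', one_mul]

/-- The hypotheses -/
structure AcH (T A : ℝ) (E ψ g : ℝ → ℝ) (good : Set ℝ) : Prop where
  A0 : 0 ≤ A
  gd : ∀ᵐ t : ℝ, t ∈ Ioo 0 T → t ∈ good
  ψ0 : ∀ t, 0 ≤ ψ t
  g0 : ∀ t, 0 ≤ g t
  ψi : IntervalIntegrable ψ volume 0 T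
  gi : IntervalIntegrable g volume 0 T
  h1 : ∀ s ∈ good, ∀ t ∈ good, 0 ≤ s → s ≤ t → t ≤ T →
    |E t - E s| ≤ (∫ r in s..t, g r) + A * (t - s) * (ψ s + ψ t)
  h2 : ∀ s ∈ Icc 0 T, ∃ R : ℝ → ℝ, Tendsto R (𝓝[Icc 0 T] s) (𝓝 0) ∧ ∀ t ∈ Icc 0 T, t ∈ good →
    |E t - E s| ≤ |∫ r in s..t, g r| + A * |t - s| * ψ t + R t

theorem sub_int {T : ℝ} {f : ℝ → ℝ} (h : IntervalIntegrable f volume 0 T) {a b : ℝ} (ha : 0 ≤ a)
    (hab : a ≤ b) (hb : b ≤ T) : IntervalIntegrable f volume a b := by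
  refine h.mono_set ?_
  rw [uIcc_of_le hab, uIcc_of_le (ha.trans (hab.trans hb))]
  exact Icc_subset_Icc ha hb

theorem int_mono_set {T : ℝ} {f : ℝ → ℝ} (h : IntervalIntegrable f volume 0 T) (hf : ∀ t, 0 ≤ f t)
    {a b c d : ℝ} (hc : 0 ≤ c) (hca : c ≤ a) (hab : a ≤ b) (hbd : b ≤ d) (hd : d ≤ T) :
    ∫ r in a..b, f r ≤ ∫ r in c..d, f r :=
  intervalIntegral.integral_mono_interval hca hab hbd (Eventually.of_forall hf)
    (sub_int h hc (hca.trans (hab.trans hbd)) hd)

/-- from the right of `s` -/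
theorem AcH.right {T A : ℝ} {E ψ g : ℝ → ℝ} {good : Set ℝ} (H : AcH T A E ψ g good) {s t : ℝ}
    (hs : 0 ≤ s) (hst : s < t) (ht : t ≤ T) :
    ∃ σ ∈ Ioo ((s + t) / 2) t, σ ∈ good ∧ (t - s) * ψ σ ≤ 2 * (∫ r in s..t, ψ r) ∧
      |E σ - E s| ≤ (∫ r in s..t, g r) + 6 * A * ∫ r in s..t, ψ r := by
  set L := t - s with hL
  have hL0 : 0 < L := by linarith
  set h : ℕ → ℝ := fun k => L / 2 ^ k with hh
  have hh0 : ∀ k, 0 < h k := fun k => by simp only [hh]; positivity
  have hh1 : ∀ k, h (k + 1) = h k / 2 := fun k => by simp only [hh]; rw [pow_succ]; field_simp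
  have hhL : ∀ k, h k ≤ L := fun k => by
    simp only [hh]
    exact div_le_self hL0.le (one_le_pow₀ (by norm_num))
  have hlim : Tendsto h atTop (𝓝 0) := by
    have h1 : Tendsto (fun k : ℕ => L * (1 / 2 : ℝ) ^ k) atTop (𝓝 (L * 0)) :=
      (tendsto_pow_atTop_nhds_zero_of_lt_one (by norm_num) (by norm_num)).const_mul L
    rw [mul_zero] at h1
    refine h1.congr fun k => ?_
    simp only [hh]
    rw [one_div, inv_pow]
    rfl
  -- the points
  have hex : ∀ k : ℕ, ∃ σ ∈ Ioo (s + h (k + 1)) (s + h k), σ ∈ good ∧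
      h k * ψ σ ≤ 2 * ∫ r in (s + h (k + 1))..(s + h k), ψ r := by
    intro k
    obtain ⟨σ, h1, h2, h3⟩ := exists_good H.gd H.ψi (x := s + h (k + 1)) (y := s + h k)
      (by linarith [hh0 (k + 1)]) (by rw [hh1]; linarith [hh0 k]) (by linarith [hhL k])
    refine ⟨σ, h1, h2, ?_⟩
    have e1 : s + h k - (s + h (k + 1)) = h k / 2 := by rw [hh1]; ring
    rw [e1] at h3
    linarith
  choose σ hσI hσg hσψ using hex
  have hσ0 : ∀ k, 0 ≤ σ k := fun k => by linarith [(hσI k).1, hh0 (k + 1)]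
  have hσT : ∀ k, σ k ≤ T := fun k => by linarith [(hσI k).2, hhL k]
  have hanti : ∀ k, σ (k + 1) ≤ σ k := fun k => ((hσI (k + 1)).2.trans (hσI k).1).le
  have hσs : ∀ k, s < σ k := fun k => by linarith [(hσI k).1, hh0 (k + 1)]
  have hI0 : ∀ k, 0 ≤ ∫ r in (s + h (k + 1))..(s + h k), ψ r := fun k =>
    intervalIntegral.integral_nonneg (by rw [hh1]; linarith [hh0 k]) fun r _ => H.ψ0 r
  have hψint : ∀ k l : ℕ, IntervalIntegrable ψ volume (s + h k) (s + h l) := fun k l => by
    refine H.ψi.mono_set ?_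
    rw [uIcc_of_le (hs.trans (hst.le.trans ht))]
    intro r hr
    have h5 := hr.1
    have h6 := hr.2
    have h7 : 0 ≤ min (s + h k) (s + h l) := le_min (by linarith [hh0 k]) (by linarith [hh0 l])
    have h8 : max (s + h k) (s + h l) ≤ T := max_le (by linarith [hhL k]) (by linarith [hhL l])
    exact ⟨h7.trans h5, h6.trans h8⟩
  have hgint : ∀ k l : ℕ, IntervalIntegrable g volume (σ k) (σ l) := fun k l => by
    refine H.gi.mono_set ?_
    rw [uIcc_of_le (hs.trans (hst.le.trans ht))]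
    intro r hr
    exact ⟨(le_min (hσ0 k) (hσ0 l)).trans hr.1, hr.2.trans (max_le (hσT k) (hσT l))⟩
  -- the chain
  have hchain : ∀ n : ℕ, |E (σ 0) - E (σ n)| ≤ (∫ r in (σ n)..(σ 0), g r)
      + A * (2 * (∫ r in (s + h n)..(s + h 0), ψ r)
        + 4 * ∫ r in (s + h (n + 1))..(s + h 1), ψ r) := by
    intro n
    induction n with
    | zero => simp
    | succ n ih =>
      have h3 := H.h1 (σ (n + 1)) (hσg _) (σ n) (hσg _) (hσ0 _) (hanti n) (hσT n)
      have h4 : σ n - σ (n + 1) ≤ h n := by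
        have := (hσI n).2
        have := hσs (n + 1)
        linarith
      have h5 : 0 ≤ σ n - σ (n + 1) := by linarith [hanti n]
      have h6 : (σ n - σ (n + 1)) * (ψ (σ (n + 1)) + ψ (σ n))
          ≤ 4 * (∫ r in (s + h (n + 2))..(s + h (n + 1)), ψ r)
            + 2 * ∫ r in (s + h (n + 1))..(s + h n), ψ r := by
        have h7 := hσψ n
        have h8 := hσψ (n + 1)
        have h9 : h n = 2 * h (n + 1) := by rw [hh1]; ring
        have h10 : (σ n - σ (n + 1)) * (ψ (σ (n + 1)) + ψ (σ n))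
            ≤ h n * (ψ (σ (n + 1)) + ψ (σ n)) :=
          mul_le_mul_of_nonneg_right h4 (add_nonneg (H.ψ0 _) (H.ψ0 _))
        have h11 : h n * ψ (σ (n + 1)) = 2 * (h (n + 1) * ψ (σ (n + 1))) := by rw [h9]; ring
        have e0 : h n * (ψ (σ (n + 1)) + ψ (σ n))
            = 2 * (h (n + 1) * ψ (σ (n + 1))) + h n * ψ (σ n) := by rw [mul_add, h11]
        rw [e0] at h10
        have e5 : s + h (n + 1 + 1) = s + h (n + 2) := rfl
        rw [e5] at h8
        linarith
      have e1 := intervalIntegral.integral_add_adjacent_intervals (hgint (n + 1) n) (hgint n 0)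
      have e2 := intervalIntegral.integral_add_adjacent_intervals (hψint (n + 1) n) (hψint n 0)
      have e3 := intervalIntegral.integral_add_adjacent_intervals (hψint (n + 2) (n + 1))
        (hψint (n + 1) 1)
      have h12 : |E (σ 0) - E (σ (n + 1))| ≤ |E (σ 0) - E (σ n)| + |E (σ n) - E (σ (n + 1))| :=
        abs_sub_le _ _ _
      have h13 : A * (σ n - σ (n + 1)) * (ψ (σ (n + 1)) + ψ (σ n))
          ≤ A * (4 * (∫ r in (s + h (n + 2))..(s + h (n + 1)), ψ r)
            + 2 * ∫ r in (s + h (n + 1))..(s + h n), ψ r) := by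
        rw [mul_assoc]
        exact mul_le_mul_of_nonneg_left h6 H.A0
      rw [← e1, ← e2]
      have e4 : s + h (n + 1 + 1) = s + h (n + 2) := rfl
      rw [e4, ← e3]
      nlinarith
  have eh0 : s + h 0 = t := by simp only [hh]; rw [pow_zero, div_one, hL]; ring
  refine ⟨σ 0, ⟨?_, ?_⟩, hσg 0, ?_, ?_⟩
  · have h1 := (hσI 0).1
    have e2 : s + h (0 + 1) = (s + t) / 2 := by
      rw [hh1]
      have : h 0 = L := by simp [hh]
      rw [this, hL]
      ring
    rw [e2] at h1
    exact h1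
  · have := (hσI 0).2
    rwa [eh0] at this
  · have h1 := hσψ 0
    have e2 : h 0 = t - s := by simp [hh, hL]
    rw [e2] at h1
    have e3 : s + (t - s) = t := by ring
    rw [e3] at h1
    refine h1.trans ?_
    have := int_mono_set H.ψi H.ψ0 hs (by linarith [hh0 (0 + 1)] : s ≤ s + h (0 + 1))
      (by linarith [hhL (0 + 1)] : s + h (0 + 1) ≤ t) le_rfl ht
    linarith
  · -- the limit
    obtain ⟨R, hR, hR2⟩ := H.h2 s ⟨hs, hst.le.trans ht⟩
    have hbd : ∀ n, |E (σ 0) - E s| ≤ ((∫ r in s..t, g r) + 6 * A * ∫ r in s..t, ψ r)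
        + ((∫ r in s..(s + h n), g r) + A * (2 * ∫ r in s..(s + h n), ψ r) + R (σ n)) := by
      intro n
      have b1 := hchain n
      have b2 := hR2 (σ n) ⟨hσ0 n, hσT n⟩ (hσg n)
      have b3 : ∫ r in (σ n)..(σ 0), g r ≤ ∫ r in s..t, g r := by
        refine int_mono_set H.gi H.g0 hs (hσs n).le ?_ ?_ ht
        · exact antitone_nat_of_succ_le hanti (Nat.zero_le n)
        · have := (hσI 0).2
          rw [eh0] at this
          exact this.le
      have b4 : ∫ r in (s + h n)..(s + h 0), ψ r ≤ ∫ r in s..t, ψ r := by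
        rw [eh0]
        exact int_mono_set H.ψi H.ψ0 hs (by linarith [hh0 n]) (by linarith [hhL n]) le_rfl ht
      have b5 : ∫ r in (s + h (n + 1))..(s + h 1), ψ r ≤ ∫ r in s..t, ψ r := by
        refine int_mono_set H.ψi H.ψ0 hs (by linarith [hh0 (n + 1)]) ?_ (by linarith [hhL 1]) ht
        have : h (n + 1) ≤ h 1 := by
          simp only [hh]
          exact div_le_div_of_nonneg_left hL0.le (by positivity)
            (pow_le_pow_right₀ (by norm_num) (by omega))
        linarith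
      have b6 : |∫ r in s..(σ n), g r| ≤ ∫ r in s..(s + h n), g r := by
        rw [abs_of_nonneg (intervalIntegral.integral_nonneg (hσs n).le fun r _ => H.g0 r)]
        exact int_mono_set H.gi H.g0 hs le_rfl (hσs n).le (hσI n).2.le (by linarith [hhL n])
      have b7 : |σ n - s| * ψ (σ n) ≤ 2 * ∫ r in s..(s + h n), ψ r := by
        rw [abs_of_pos (by linarith [hσs n])]
        have c1 : (σ n - s) * ψ (σ n) ≤ h n * ψ (σ n) :=
          mul_le_mul_of_nonneg_right (by linarith [(hσI n).2]) (H.ψ0 _)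
        have c2 := int_mono_set H.ψi H.ψ0 hs (by linarith [hh0 (n + 1)] : s ≤ s + h (n + 1))
          (by rw [hh1]; linarith [hh0 n] : s + h (n + 1) ≤ s + h n) le_rfl (by linarith [hhL n])
        have c3 := hσψ n
        linarith
      have b8 : A * |σ n - s| * ψ (σ n) ≤ A * (2 * ∫ r in s..(s + h n), ψ r) := by
        rw [mul_assoc]
        exact mul_le_mul_of_nonneg_left b7 H.A0
      have b9 : |E (σ 0) - E s| ≤ |E (σ 0) - E (σ n)| + |E (σ n) - E s| := abs_sub_le _ _ _
      have b10 : A * (2 * (∫ r in (s + h n)..(s + h 0), ψ r)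
          + 4 * ∫ r in (s + h (n + 1))..(s + h 1), ψ r) ≤ A * (6 * ∫ r in s..t, ψ r) :=
        mul_le_mul_of_nonneg_left (by linarith) H.A0
      have b11 : A * (6 * ∫ r in s..t, ψ r) = 6 * A * ∫ r in s..t, ψ r := by ring
      linarith
    -- limits
    have hsh : Tendsto (fun n => s + h n) atTop (𝓝[≥] s) := by
      refine tendsto_nhdsWithin_iff.2 ⟨?_, Eventually.of_forall fun n => ?_⟩
      · have := hlim.const_add s
        rwa [add_zero] at this
      · exact (by linarith [hh0 n] : s ≤ s + h n)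
    have hprim : ∀ f : ℝ → ℝ, IntervalIntegrable f volume 0 T →
        Tendsto (fun n => ∫ r in s..(s + h n), f r) atTop (𝓝 0) := by
      intro f hf
      have hc : ContinuousOn (fun x => ∫ r in s..x, f r) (uIcc s t) :=
        intervalIntegral.continuousOn_primitive_interval' (sub_int hf hs hst.le ht) left_mem_uIcc
      have h5 : ContinuousWithinAt (fun x => ∫ r in s..x, f r) (Icc s t) s := by
        have := hc s left_mem_uIcc
        rwa [uIcc_of_le hst.le] at this
      have h6 : Tendsto (fun n => s + h n) atTop (𝓝[Icc s t] s) := by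
        refine tendsto_nhdsWithin_iff.2 ⟨?_, Eventually.of_forall fun n => ?_⟩
        · have := hlim.const_add s
          rwa [add_zero] at this
        · exact ⟨by linarith [hh0 n], by linarith [hhL n]⟩
      have h7 := h5.tendsto.comp h6
      simpa [Function.comp_def] using h7
    have hRl : Tendsto (fun n => R (σ n)) atTop (𝓝 0) := by
      refine hR.comp (tendsto_nhdsWithin_iff.2 ⟨?_, Eventually.of_forall fun n =>
        ⟨hσ0 n, hσT n⟩⟩)
      refine tendsto_of_tendsto_of_tendsto_of_le_of_le tendsto_const_nhds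
        (h := fun n => s + h n) ?_ (fun n => (hσs n).le) (fun n => (hσI n).2.le)
      have := hlim.const_add s
      rwa [add_zero] at this
    have htot : Tendsto (fun n => ((∫ r in s..t, g r) + 6 * A * ∫ r in s..t, ψ r)
        + ((∫ r in s..(s + h n), g r) + A * (2 * ∫ r in s..(s + h n), ψ r) + R (σ n))) atTop
        (𝓝 (((∫ r in s..t, g r) + 6 * A * ∫ r in s..t, ψ r) + ((0 + A * (2 * 0)) + 0))) :=
      (((hprim g H.gi).add (((hprim ψ H.ψi).const_mul 2).const_mul A)).add hRl).const_add _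
    have := ge_of_tendsto' htot hbd
    linarith

end Pool.Agent.TH340.FF
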