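import Pool.Agent.TH340.FF.Form5
import Pool.Agent.TH340.FF.Ac2
import Pool.Agent.H772R2.NS.Build
import Pool.Agent.H772R2.NSR.Conc

/-!
Energy equality from two-sided form bounds of the strain.
-/

set_option autoImplicit false

open MeasureTheory Set Filter Topology
open scoped InnerProductSpace ContDiff

namespace Pool.Agent.TH340.FF

open H772R2.NS

variable {Ω : Set E3}

theorem test_abs (hΩ : MeasurableSet Ω) (hb : Bornology.IsBounded Ω) {κ B : ℝ} (hκ : 0 ≤ κ)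
    (hB : 0 ≤ B) {U : L2V Ω} {G : L2M Ω} (hU : (U, G) ∈ graphW Ω)
    (hp : PairBd κ B (ext Ω U) ∨ PairBd κ B fun x => -ext Ω U x)
    {q : L2V Ω × L2M Ω} (hq : q ∈ preW Ω) :
    |⟪tensL q.1, G⟫_ℝ| ≤ 2 * (κ / Real.log 2 ^ 2) * ‖q.2‖ ^ 2 + 5 * B * ‖q.1‖ ^ 2 := by
  have hqW := preW_le hq
  obtain ⟨φ, h1, h2, h3⟩ := hq
  have t1 := int_f1 hΩ h1 hqW h2 hU
  have t2 := int_f2 hΩ h1.smooth h1.compact hU
  set K := κ / Real.log 2 ^ 2 with hK
  have hK0 : 0 ≤ K := by positivity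
  have n1 := norm_test1 h1 h2
  have n2 := norm_test2 h1 h3
  have hX : 0 ≤ K * ‖q.2‖ ^ 2 := by positivity
  have hY : 0 ≤ B * ‖q.1‖ ^ 2 := by positivity
  have hi := ext_integrable hΩ hb U
  have hin : Integrable fun x => -ext Ω U x := hi.neg
  have t1' : ∫ x, ∑ i, (-ext Ω U x) i * f1 φ x i = ⟪tensL q.1, G⟫_ℝ := by
    have e1 : ∀ x, ∑ i, (-ext Ω U x) i * f1 φ x i = -∑ i, ext Ω U x i * f1 φ x i := fun x => by
      rw [← Finset.sum_neg_distrib]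
      refine Finset.sum_congr rfl fun i _ => ?_
      rw [PiLp.neg_apply]
      ring
    simp_rw [e1]
    rw [integral_neg, t1, neg_neg]
  have t2' : ∫ x, ∑ i, (-ext Ω U x) i * f2 φ x i = 0 := by
    have e1 : ∀ x, ∑ i, (-ext Ω U x) i * f2 φ x i = -∑ i, ext Ω U x i * f2 φ x i := fun x => by
      rw [← Finset.sum_neg_distrib]
      refine Finset.sum_congr rfl fun i _ => ?_
      rw [PiLp.neg_apply]
      ring
    simp_rw [e1]
    rw [integral_neg, t2, neg_zero]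
  rcases hp with hp | hp
  · have a1 := testA hi hκ hp h1 (by simp_rw [f2_sum]; exact t2)
    have e0 : (fun x => -(fun x => -ext Ω U x) x) = ext Ω U := by funext x; simp
    have hp' : PairBd κ B fun x => -(fun x => -ext Ω U x) x := by rw [e0]; exact hp
    have a2 := testB hin hκ hp' h1 (by
      rw [← t2']
      refine integral_congr_ae (Eventually.of_forall fun x => ?_)
      exact f2_sum (fun x => -ext Ω U x) φ x)
    have e1 : ∫ x, ∑ i, ∑ j, (-ext Ω U x) i * (φ x j * jac φ x (i, j)) = ⟪tensL q.1, G⟫_ℝ := by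
      rw [← t1']
      refine integral_congr_ae (Eventually.of_forall fun x => ?_)
      exact f1_sum (fun x => -ext Ω U x) φ x
    rw [e1] at a2
    simp_rw [f1_sum] at a1
    rw [t1] at a1
    rw [← n1, ← n2, ← hK] at a1 a2
    rw [abs_le]
    constructor
    · linarith
    · linarith
  · have a1 := testA hin hκ hp h1 (by
      rw [← t2']
      refine integral_congr_ae (Eventually.of_forall fun x => ?_)
      exact f2_sum (fun x => -ext Ω U x) φ x)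
    have a2 := testB hi hκ hp h1 (by simp_rw [f2_sum]; exact t2)
    have e1 : ∫ x, ∑ i, ∑ j, (-ext Ω U x) i * (φ x j * jac φ x (i, j)) = ⟪tensL q.1, G⟫_ℝ := by
      rw [← t1']
      refine integral_congr_ae (Eventually.of_forall fun x => ?_)
      exact f1_sum (fun x => -ext Ω U x) φ x
    rw [e1] at a1
    simp_rw [f1_sum] at a2
    rw [t1] at a2
    rw [← n1, ← n2, ← hK] at a1 a2
    rw [abs_le]
    constructor
    · linarith
    · linarith

/-- two-sided form bound -/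
theorem formAbs (hΩ : MeasurableSet Ω) (hb : Bornology.IsBounded Ω) {κ B : ℝ} (hκ : 0 ≤ κ)
    (hB : 0 ≤ B) {U : L2V Ω} {G : L2M Ω} (hU : (U, G) ∈ graphW Ω)
    (hp : PairBd κ B (ext Ω U) ∨ PairBd κ B fun x => -ext Ω U x)
    {p : L2V Ω × L2M Ω} (hpW : p ∈ graphW Ω) :
    |⟪tensL p.1, G⟫_ℝ| ≤ 2 * (κ / Real.log 2 ^ 2) * ‖p.2‖ ^ 2 + 5 * B * ‖p.1‖ ^ 2 := by
  have h1 : ContinuousOn (fun p : L2V Ω × L2M Ω => |⟪tensL p.1, G⟫_ℝ|)
      (graphW Ω : Set (L2V Ω × L2M Ω)) :=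
    ((tensL_continuousOn hΩ).inner continuousOn_const).abs
  have h2 : Continuous fun p : L2V Ω × L2M Ω => 2 * (κ / Real.log 2 ^ 2) * ‖p.2‖ ^ 2 := by fun_prop
  have h3 : Continuous fun p : L2V Ω × L2M Ω => 5 * B * ‖p.1‖ ^ 2 := by fun_prop
  have key := graphW_le (fun p => |⟪tensL p.1, G⟫_ℝ| - 2 * (κ / Real.log 2 ^ 2) * ‖p.2‖ ^ 2
    - 5 * B * ‖p.1‖ ^ 2) ((h1.sub h2.continuousOn).sub h3.continuousOn) (fun q hq => ?_) hpW
  · linarith
  · have := test_abs hΩ hb hκ hB hU hp hq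
    linarith

/-- the trilinear form, by polarisation -/
theorem polar (hΩ : MeasurableSet Ω) {a b : ℝ} {p q : L2V Ω × L2M Ω} (hp : p ∈ graphW Ω)
    (hq : q ∈ graphW Ω)
    (hf : ∀ r ∈ graphW Ω, |⟪tensL r.1, p.2⟫_ℝ| ≤ a * ‖r.2‖ ^ 2 + b * ‖r.1‖ ^ 2) :
    |⟪tensL p.1, q.2⟫_ℝ| ≤ a * (‖p.2‖ ^ 2 + ‖q.2‖ ^ 2) + b * (‖p.1‖ ^ 2 + ‖q.1‖ ^ 2) := by
  have hs := (graphW Ω).add_mem hp hq
  have hd := (graphW Ω).sub_mem hp hq
  have z1 := inner_tensL_zero hΩ hs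
  have z2 := inner_tensL_zero hΩ hd
  have z3 := inner_tensL_zero hΩ hq
  have hpar := H772R2.NSR.tensL_para hΩ hp hq
  have e1 : (p + q).1 = p.1 + q.1 := rfl
  have e2 : (p - q).1 = p.1 - q.1 := rfl
  have e3 : (p + q).2 = p.2 + q.2 := rfl
  have e4 : (p - q).2 = p.2 - q.2 := rfl
  rw [e1, e3, inner_add_right] at z1
  rw [e2, e4, inner_sub_right] at z2
  have h5 : ⟪tensL (p.1 + q.1), q.2⟫_ℝ + ⟪tensL (p.1 - q.1), q.2⟫_ℝ
      = 2 * ⟪tensL p.1, q.2⟫_ℝ + 2 * ⟪tensL q.1, q.2⟫_ℝ := by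
    rw [← inner_add_left, hpar, inner_add_left, inner_smul_left, inner_smul_left]
    simp
  have f1 := hf _ hs
  have f2 := hf _ hd
  rw [e1, e3] at f1
  rw [e2, e4] at f2
  have n1 := parallelogram_law_with_norm ℝ p.1 q.1
  have n2 := parallelogram_law_with_norm ℝ p.2 q.2
  have g1 := abs_le.1 f1
  have g2 := abs_le.1 f2
  have h6 : a * ‖p.2 + q.2‖ ^ 2 + a * ‖p.2 - q.2‖ ^ 2 = 2 * (a * (‖p.2‖ ^ 2 + ‖q.2‖ ^ 2)) := by
    linear_combination a * n2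
  have h7 : b * ‖p.1 + q.1‖ ^ 2 + b * ‖p.1 - q.1‖ ^ 2 = 2 * (b * (‖p.1‖ ^ 2 + ‖q.1‖ ^ 2)) := by
    linear_combination b * n1
  rw [abs_le]
  constructor
  · linarith [g1.1, g1.2, g2.1, g2.2]
  · linarith [g1.1, g1.2, g2.1, g2.2]

end Pool.Agent.TH340.FF
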