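import Pool.Agent.TH340.FF.En

/-!
Energy equality from bounds of the trilinear form by the enstrophies.
-/

set_option autoImplicit false

open MeasureTheory Set Filter Topology
open scoped InnerProductSpace ContDiff

namespace Pool.Agent.TH340.FF

open H772R2.NS

variable {Ω : Set E3}

/-- Energy equality from a bound of the trilinear form with constant coefficients of the
enstrophies. -/
theorem energy_eq (hΩ : IsOpen Ω) {ν T M a : ℝ} (hν : 0 ≤ ν) (hT : 0 < T) (ha : 0 ≤ a)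
    {u : ℝ → L2V Ω} {G : ℝ → L2M Ω} {f : ℝ → L2V Ω} (h : IsWeakSolution Ω ν T u G f)
    (hM : ∀ t ∈ Icc 0 T, ‖u t‖ ≤ M)
    {b : ℝ → ℝ} (hb0 : ∀ t, 0 ≤ b t) (hb : IntegrableOn b (Ioo 0 T))
    (hp : ∀ᵐ t ∂(volume.restrict (Ioo 0 T)), ∀ p ∈ graphW Ω, ‖p.1‖ ≤ M →
      |⟪tensL (u t), p.2⟫_ℝ| ≤ a * (‖G t‖ ^ 2 + ‖p.2‖ ^ 2) + b t) :
    ∀ t ∈ Icc 0 T, energyDefect ν u G f t = 0 := by
  have S := h.toSol hΩ hν hT hM
  have hM0 : 0 ≤ M := S.M0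
  set A := a + ν / 2 with hA
  have hA0 : 0 ≤ A := by positivity
  set ψ : ℝ → ℝ := fun t => ‖G t‖ ^ 2 with hψ
  set g : ℝ → ℝ := fun t => A * ψ t + b t + M * ‖f t‖ with hg
  have hψ0 : ∀ t, 0 ≤ ψ t := fun t => by simp only [hψ]; positivity
  have hg0 : ∀ t, 0 ≤ g t := fun t => by
    have h1 := hψ0 t
    have h2 := hb0 t
    simp only [hg]
    positivity
  have hψi : IntervalIntegrable ψ volume 0 T := by
    rw [intervalIntegrable_iff_integrableOn_Ioc_of_le hT.le]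
    exact S.G2
  have hbi : IntervalIntegrable b volume 0 T := by
    rw [intervalIntegrable_iff_integrableOn_Ioc_of_le hT.le, IntegrableOn, restrict_Ioc_eq]
    exact hb
  have hfi : IntervalIntegrable (fun t => ‖f t‖) volume 0 T := by
    rw [intervalIntegrable_iff_integrableOn_Ioc_of_le hT.le]
    exact S.fint.norm
  have hgi : IntervalIntegrable g volume 0 T :=
    ((hψi.const_mul A).add hbi).add (hfi.const_mul M)
  have hp' : ∀ᵐ t : ℝ, t ∈ Ioo 0 T → ∀ p ∈ graphW Ω, ‖p.1‖ ≤ M →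
      |⟪tensL (u t), p.2⟫_ℝ| ≤ a * (‖G t‖ ^ 2 + ‖p.2‖ ^ 2) + b t := by
    rwa [ae_restrict_iff' measurableSet_Ioo] at hp
  -- the basic estimate
  have est : ∀ p ∈ graphW Ω, ‖p.1‖ ≤ M → ∀ x y, 0 ≤ x → x ≤ y → y ≤ T →
      |⟪u y, p.1⟫_ℝ - ⟪u x, p.1⟫_ℝ| ≤ (∫ τ in x..y, g τ) + A * (y - x) * ‖p.2‖ ^ 2 := by
    intro p hpW hpM x y hx hxy hy
    rw [h.weak_all hΩ hT hpW hx hxy hy]
    have gi : IntervalIntegrable g volume x y := sub_int hgi hx hxy hy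
    have h1 : ‖∫ τ in x..y, (⟪tensL (u τ), p.2⟫_ℝ - ν * ⟪G τ, p.2⟫_ℝ + ⟪f τ, p.1⟫_ℝ)‖
        ≤ ∫ τ in x..y, (g τ + A * ‖p.2‖ ^ 2) := by
      refine intervalIntegral.norm_integral_le_of_norm_le hxy ?_
        (gi.add intervalIntegrable_const)
      have hTne : ∀ᵐ t : ℝ, t ≠ T := by simp [ae_iff, measure_singleton]
      filter_upwards [hp', hTne] with τ hτ hτT hτI
      have hτ0 : τ ∈ Ioo 0 T :=
        ⟨hx.trans_lt hτI.1, lt_of_le_of_ne (hτI.2.trans hy) hτT⟩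
      have k1 := hτ hτ0 p hpW hpM
      have k2 : |ν * ⟪G τ, p.2⟫_ℝ| ≤ ν / 2 * (‖G τ‖ ^ 2 + ‖p.2‖ ^ 2) := by
        rw [abs_mul, abs_of_nonneg hν]
        have k3 := abs_real_inner_le_norm (G τ) p.2
        have k4 : ‖G τ‖ * ‖p.2‖ ≤ (‖G τ‖ ^ 2 + ‖p.2‖ ^ 2) / 2 := by
          nlinarith [sq_nonneg (‖G τ‖ - ‖p.2‖)]
        calc ν * |⟪G τ, p.2⟫_ℝ| ≤ ν * ((‖G τ‖ ^ 2 + ‖p.2‖ ^ 2) / 2) :=
              mul_le_mul_of_nonneg_left (k3.trans k4) hν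
          _ = _ := by ring
      have k5 : |⟪f τ, p.1⟫_ℝ| ≤ M * ‖f τ‖ := by
        calc |⟪f τ, p.1⟫_ℝ| ≤ ‖f τ‖ * ‖p.1‖ := abs_real_inner_le_norm _ _
          _ ≤ ‖f τ‖ * M := by gcongr
          _ = _ := mul_comm _ _
      rw [Real.norm_eq_abs]
      calc |⟪tensL (u τ), p.2⟫_ℝ - ν * ⟪G τ, p.2⟫_ℝ + ⟪f τ, p.1⟫_ℝ|
          ≤ |⟪tensL (u τ), p.2⟫_ℝ - ν * ⟪G τ, p.2⟫_ℝ| + |⟪f τ, p.1⟫_ℝ| := abs_add_le _ _
        _ ≤ |⟪tensL (u τ), p.2⟫_ℝ| + |ν * ⟪G τ, p.2⟫_ℝ| + |⟪f τ, p.1⟫_ℝ| := by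
            gcongr; exact abs_sub _ _
        _ ≤ a * (‖G τ‖ ^ 2 + ‖p.2‖ ^ 2) + b τ + ν / 2 * (‖G τ‖ ^ 2 + ‖p.2‖ ^ 2)
            + M * ‖f τ‖ := by linarith
        _ = _ := by simp only [hg, hψ, hA]; ring
    rw [Real.norm_eq_abs, intervalIntegral.integral_add gi intervalIntegrable_const,
      intervalIntegral.integral_const, smul_eq_mul] at h1
    refine h1.trans (le_of_eq ?_)
    ring
  have est' : ∀ p ∈ graphW Ω, ‖p.1‖ ≤ M → ∀ x ∈ Icc 0 T, ∀ y ∈ Icc 0 T,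
      |⟪u y, p.1⟫_ℝ - ⟪u x, p.1⟫_ℝ| ≤ |∫ τ in x..y, g τ| + A * |y - x| * ‖p.2‖ ^ 2 := by
    intro p hpW hpM x hx y hy
    rcases le_total x y with hxy | hxy
    · have := est p hpW hpM x y hx.1 hxy hy.2
      rw [abs_of_nonneg (by linarith : 0 ≤ y - x)]
      linarith [le_abs_self (∫ τ in x..y, g τ)]
    · have := est p hpW hpM y x hy.1 hxy hx.2
      rw [abs_sub_comm, intervalIntegral.integral_symm, abs_neg,
        abs_of_nonpos (by linarith : y - x ≤ 0)]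
      have e1 : -(y - x) = x - y := by ring
      rw [e1]
      linarith [le_abs_self (∫ τ in y..x, g τ)]
  -- the criterion
  have H : AcH T A (fun t => ‖u t‖ ^ 2 / 2) ψ g {t | t ∈ Icc 0 T ∧ (u t, G t) ∈ graphW Ω} :=
    { A0 := hA0
      gd := by
        have h1 : ∀ᵐ t : ℝ, t ∈ Ioo 0 T → (u t, G t) ∈ H1graph Ω := by
          have := h.grad
          rwa [ae_restrict_iff' measurableSet_Ioo] at this
        filter_upwards [h1] with t ht hI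
        exact ⟨Ioo_subset_Icc_self hI, mem_graphW.mpr (ht hI)⟩
      ψ0 := hψ0
      g0 := hg0
      ψi := hψi
      gi := hgi
      h1 := by
        intro s hs t ht h0 hst htT
        have e1 := est (u t, G t) ht.2 (hM t ht.1) s t h0 hst htT
        have e2 := est (u s, G s) hs.2 (hM s hs.1) s t h0 hst htT
        simp only at e1 e2
        have e3 : ‖u t‖ ^ 2 / 2 - ‖u s‖ ^ 2 / 2
            = ((⟪u t, u t⟫_ℝ - ⟪u s, u t⟫_ℝ) + (⟪u t, u s⟫_ℝ - ⟪u s, u s⟫_ℝ)) / 2 := by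
          rw [real_inner_self_eq_norm_sq, real_inner_self_eq_norm_sq, real_inner_comm (u t) (u s)]
          ring
        rw [e3, abs_div, abs_two]
        have e4 := abs_add_le (⟪u t, u t⟫_ℝ - ⟪u s, u t⟫_ℝ) (⟪u t, u s⟫_ℝ - ⟪u s, u s⟫_ℝ)
        have e5 : 0 ≤ A * (t - s) * (ψ s + ψ t) :=
          mul_nonneg (mul_nonneg hA0 (by linarith)) (add_nonneg (hψ0 s) (hψ0 t))
        have e6 : A * (t - s) * ‖G t‖ ^ 2 + A * (t - s) * ‖G s‖ ^ 2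
            = A * (t - s) * (ψ s + ψ t) := by simp only [hψ]; ring
        linarith
      h2 := by
        intro s hs
        refine ⟨fun t => |⟪u t, u s⟫_ℝ - ‖u s‖ ^ 2|, ?_, ?_⟩
        · have h1 := (h.wcont (u s)) s hs
          have h2 : Tendsto (fun t => ⟪u t, u s⟫_ℝ - ‖u s‖ ^ 2) (𝓝[Icc 0 T] s) (𝓝 0) := by
            have := h1.tendsto.sub_const (‖u s‖ ^ 2)
            rw [real_inner_self_eq_norm_sq, sub_self] at this
            exact this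
          have := h2.abs
          rwa [abs_zero] at this
        · intro t ht htg
          have e1 := est' (u t, G t) htg.2 (hM t ht) s hs t ht
          simp only at e1
          have e3 : ‖u t‖ ^ 2 / 2 - ‖u s‖ ^ 2 / 2
              = ((⟪u t, u t⟫_ℝ - ⟪u s, u t⟫_ℝ) + (⟪u t, u s⟫_ℝ - ‖u s‖ ^ 2)) / 2 := by
            rw [real_inner_self_eq_norm_sq, real_inner_comm (u t) (u s)]
            ring
          rw [e3, abs_div, abs_two]
          have e4 := abs_add_le (⟪u t, u t⟫_ℝ - ⟪u s, u t⟫_ℝ) (⟪u t, u s⟫_ℝ - ‖u s‖ ^ 2)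
          have e5 : 0 ≤ A * |t - s| * ψ t :=
            mul_nonneg (mul_nonneg hA0 (abs_nonneg _)) (hψ0 t)
          have e6 : 0 ≤ |∫ r in s..t, g r| := abs_nonneg _
          have e7 : 0 ≤ |⟪u t, u s⟫_ℝ - ‖u s‖ ^ 2| := abs_nonneg _
          have e8 : A * |t - s| * ‖G t‖ ^ 2 = A * |t - s| * ψ t := rfl
          linarith }
  intro t ht
  rw [energyDefect_eq hΩ hν hT h ht]
  exact S.eq_of_ac (H.ac hT.le) t ht

/-- Energy equality from a one-sided bound for pairs, or a bound in `L⁴`. -/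
theorem energy_eq_pair (hΩ : IsOpen Ω) (hbd : Bornology.IsBounded Ω) {ν T κ : ℝ} (hν : 0 ≤ ν)
    (hT : 0 < T) (hκ : 0 ≤ κ)
    {u : ℝ → L2V Ω} {G : ℝ → L2M Ω} {f : ℝ → L2V Ω} (h : IsWeakSolution Ω ν T u G f)
    {b : ℝ → ℝ} (hb0 : ∀ t, 0 ≤ b t) (hb : IntegrableOn b (Ioo 0 T))
    (hp : ∀ᵐ t ∂(volume.restrict (Ioo 0 T)),
      PairBd κ (b t) (ext Ω (u t)) ∨ (PairBd κ (b t) fun x => -ext Ω (u t) x) ∨
      (eLpNorm (u t) 4 (volume.restrict Ω)) ^ 4 ≤ ENNReal.ofReal (b t)) :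
    ∀ t ∈ Icc 0 T, energyDefect ν u G f t = 0 := by
  obtain ⟨M, hM⟩ := h.bdd
  have hM0 : 0 ≤ M := (norm_nonneg _).trans (hM 0 ⟨le_rfl, hT.le⟩)
  refine energy_eq hΩ (a := 2 * (κ / Real.log 2 ^ 2) + 1) hν hT (by positivity) h hM
    (b := fun t => (10 * M ^ 2 + 1) * b t) (fun t => mul_nonneg (by positivity) (hb0 t))
    (Integrable.const_mul (μ := volume.restrict (Ioo 0 T)) hb (10 * M ^ 2 + 1)) ?_
  filter_upwards [hp, h.grad, ae_restrict_mem measurableSet_Ioo] with t ht hG htI p hpW hpM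
  have hW : (u t, G t) ∈ graphW Ω := mem_graphW.mpr hG
  have hut := hM t (Ioo_subset_Icc_self htI)
  have hbt := hb0 t
  have hpair : (PairBd κ (b t) (ext Ω (u t)) ∨ PairBd κ (b t) fun x => -ext Ω (u t) x) →
      |⟪tensL (u t), p.2⟫_ℝ| ≤ (2 * (κ / Real.log 2 ^ 2) + 1) * (‖G t‖ ^ 2 + ‖p.2‖ ^ 2)
        + (10 * M ^ 2 + 1) * b t := by
    intro hq
    have hf := fun r (hr : r ∈ graphW Ω) => formAbs hΩ.measurableSet hbd hκ hbt hW hq hr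
    have h1 := polar hΩ.measurableSet (a := 2 * (κ / Real.log 2 ^ 2)) (b := 5 * b t) hW hpW hf
    simp only at h1
    have h2 : ‖u t‖ ^ 2 ≤ M ^ 2 := pow_le_pow_left₀ (norm_nonneg _) hut 2
    have h3 : ‖p.1‖ ^ 2 ≤ M ^ 2 := pow_le_pow_left₀ (norm_nonneg _) hpM 2
    have h4 : 5 * b t * (‖u t‖ ^ 2 + ‖p.1‖ ^ 2) ≤ 5 * b t * (M ^ 2 + M ^ 2) := by gcongr
    have h5 : 0 ≤ ‖G t‖ ^ 2 + ‖p.2‖ ^ 2 := by positivity
    nlinarith
  rcases ht with ht | ht | ht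
  · exact hpair (Or.inl ht)
  · exact hpair (Or.inr ht)
  · have h1 := enorm_tensL hΩ.measurableSet hW
    have h2 : ‖tensL (u t)‖ ^ 2 ≤ b t := by
      have h3 : ‖tensL (u t)‖ₑ ^ 2 ≤ ENNReal.ofReal (b t) := by
        rw [h1, ← pow_mul]
        exact ht
      rw [← ofReal_norm, ← ENNReal.ofReal_pow (norm_nonneg _)] at h3
      exact (ENNReal.ofReal_le_ofReal_iff hbt).1 h3
    have h4 := abs_real_inner_le_norm (tensL (u t)) p.2
    have h5 : ‖tensL (u t)‖ * ‖p.2‖ ≤ (‖tensL (u t)‖ ^ 2 + ‖p.2‖ ^ 2) / 2 := by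
      nlinarith [sq_nonneg (‖tensL (u t)‖ - ‖p.2‖)]
    have h6 : 0 ≤ 2 * (κ / Real.log 2 ^ 2) := by positivity
    have h7 : 0 ≤ ‖G t‖ ^ 2 := by positivity
    have h8 : 0 ≤ ‖p.2‖ ^ 2 := by positivity
    have h9 : 0 ≤ M ^ 2 := by positivity
    have h10 : 0 ≤ 2 * (κ / Real.log 2 ^ 2) * (‖G t‖ ^ 2 + ‖p.2‖ ^ 2) := by positivity
    have h11 : 0 ≤ 10 * M ^ 2 * b t := by positivity
    nlinarith

end Pool.Agent.TH340.FF
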