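import Pool.Agent.TH340.FF.Moll
import Pool.Agent.H772R2.NS.Space3

/-!
The quadratic form of the strain of a field with a one-sided bound for pairs: seven directions.
-/

set_option autoImplicit false

open MeasureTheory Set Filter Topology
open scoped InnerProductSpace ContDiff

namespace Pool.Agent.TH340.FF

/-- The inequality in the direction of a vector which is not normalised -/
theorem dir_vec {E : Type*} [NormedAddCommGroup E] [InnerProductSpace ℝ E] [FiniteDimensional ℝ E]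
    [MeasurableSpace E] [BorelSpace E] {D : E} {n : ℝ} (hn : 0 < n) (hD : ⟪D, D⟫_ℝ = n) {W : E → E}
    (hW : Integrable W) {κ B : ℝ} (hκ : 0 ≤ κ)
    (hp : PairBd κ B W) {F : E → ℝ} (hF : ContDiff ℝ 1 F) (hFc : HasCompactSupport F) :
    ∫ x, ⟪D, W x⟫_ℝ * (2 * F x * fderiv ℝ F x D)
      ≤ κ / Real.log 2 ^ 2 * (∫ x, (fderiv ℝ F x D) ^ 2) + n * B * ∫ x, F x ^ 2 := by
  have hs : 0 < Real.sqrt n := Real.sqrt_pos.2 hn
  have hs2 : Real.sqrt n * Real.sqrt n = n := Real.mul_self_sqrt hn.le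
  have he : ⟪(Real.sqrt n)⁻¹ • D, (Real.sqrt n)⁻¹ • D⟫_ℝ = 1 := by
    rw [inner_smul_left, inner_smul_right, hD]
    simp only [RCLike.conj_to_real]
    field_simp
    exact (Real.sq_sqrt hn.le).symm
  have h := dir_ae he hW hκ hp hF hFc
  have e1 : ∀ x, ⟪(Real.sqrt n)⁻¹ • D, W x⟫_ℝ * (2 * F x * fderiv ℝ F x ((Real.sqrt n)⁻¹ • D))
      = n⁻¹ * (⟪D, W x⟫_ℝ * (2 * F x * fderiv ℝ F x D)) := by
    intro x
    rw [inner_smul_left, map_smul]
    simp only [RCLike.conj_to_real, smul_eq_mul]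
    have : n⁻¹ = (Real.sqrt n)⁻¹ * (Real.sqrt n)⁻¹ := by rw [← mul_inv, hs2]
    rw [this]
    ring
  have e2 : ∀ x, (fderiv ℝ F x ((Real.sqrt n)⁻¹ • D)) ^ 2 = n⁻¹ * (fderiv ℝ F x D) ^ 2 := by
    intro x
    rw [map_smul, smul_eq_mul]
    have : n⁻¹ = (Real.sqrt n)⁻¹ * (Real.sqrt n)⁻¹ := by rw [← mul_inv, hs2]
    rw [this]
    ring
  simp_rw [e1, e2] at h
  rw [integral_const_mul, integral_const_mul] at h
  have h2 := mul_le_mul_of_nonneg_left h hn.le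
  have e3 : n * (n⁻¹ * ∫ x, ⟪D, W x⟫_ℝ * (2 * F x * fderiv ℝ F x D))
      = ∫ x, ⟪D, W x⟫_ℝ * (2 * F x * fderiv ℝ F x D) := by
    rw [← mul_assoc, mul_inv_cancel₀ hn.ne', one_mul]
  rw [e3] at h2
  refine h2.trans (le_of_eq ?_)
  field_simp

open H772R2.NS

/-- the seven directions, with weights -/
def dd : Fin 7 → Fin 3 → ℝ :=
  ![![1, 0, 0], ![0, 1, 0], ![0, 0, 1], ![1, 1, 1], ![1, 1, -1], ![1, -1, 1], ![1, -1, -1]]
noncomputable def wt : Fin 7 → ℝ := ![1, 1, 1, 1 / 8, 1 / 8, 1 / 8, 1 / 8]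
def nn : Fin 7 → ℝ := ![1, 1, 1, 3, 3, 3, 3]

theorem wt_nonneg (k : Fin 7) : 0 ≤ wt k := by
  fin_cases k <;> simp [wt]

theorem nn_pos (k : Fin 7) : 0 < nn k := by
  fin_cases k <;> simp [nn]

theorem sum_dd (k : Fin 7) : ∑ i, dd k i * dd k i = nn k := by
  fin_cases k <;> simp [dd, nn, Fin.sum_univ_three] <;> norm_num

/-- the directions as vectors -/
noncomputable def Dv (k : Fin 7) : E3 := WithLp.toLp 2 (dd k)

theorem inner_Dv (k : Fin 7) (x : E3) : ⟪Dv k, x⟫_ℝ = ∑ i, dd k i * x i := inner_E3 _ _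

theorem inner_Dv_Dv (k : Fin 7) : ⟪Dv k, Dv k⟫_ℝ = nn k := by
  rw [inner_Dv]; exact sum_dd k

/-- fourth order identities -/
theorem alg1 (w v : Fin 3 → ℝ) (A : Fin 3 → Fin 3 → ℝ) :
    ∑ k, wt k * ((∑ i, dd k i * w i) * (2 * (∑ i, dd k i * v i)
        * ∑ i, ∑ j, dd k i * dd k j * A i j))
      = ∑ i, ∑ j, w i * (v j * A i j + v i * A j j + v j * A j i) := by
  simp [Fin.sum_univ_succ, wt, dd]
  ring

theorem alg2 (A : Fin 3 → Fin 3 → ℝ) :
    ∑ k, wt k * (∑ i, ∑ j, dd k i * dd k j * A i j) ^ 2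
      = 1 / 2 * ∑ i, ∑ j, (A i i * A j j + A i j ^ 2 + A i j * A j i) := by
  simp [Fin.sum_univ_succ, wt, dd]
  ring

theorem alg3 (v : Fin 3 → ℝ) :
    ∑ k, wt k * (nn k * (∑ i, dd k i * v i) ^ 2) = 5 / 2 * ∑ i, v i ^ 2 := by
  simp [Fin.sum_univ_succ, wt, dd, nn]
  ring

end Pool.Agent.TH340.FF
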