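import Pool.Agent.TH340.FF.Form1

/-!
The inequality for general smooth fields with compact support.
-/

set_option autoImplicit false

open MeasureTheory Set Filter Topology
open scoped InnerProductSpace ContDiff

namespace Pool.Agent.TH340.FF

open H772R2.NS

/-- `⟪D, ∇V D⟫` -/
theorem fderiv_inner_Dv {V : E3 → E3} (hV : ContDiff ℝ ∞ V) (k : Fin 7) (x : E3) :
    fderiv ℝ (fun x => ⟪Dv k, V x⟫_ℝ) x (Dv k) = ∑ i, ∑ j, dd k i * dd k j * jac V x (i, j) := by
  have h1 : HasFDerivAt V (fderiv ℝ V x) x := ((hV.differentiable (by simp)) x).hasFDerivAt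
  have h2 : HasFDerivAt (fun x => ⟪Dv k, V x⟫_ℝ)
      ((innerSL ℝ (Dv k)).comp (fderiv ℝ V x)) x := (innerSL ℝ (Dv k)).hasFDerivAt.comp x h1
  rw [h2.fderiv]
  show ⟪Dv k, fderiv ℝ V x (Dv k)⟫_ℝ = _
  rw [inner_Dv]
  refine Finset.sum_congr rfl fun i _ => ?_
  have h3 : Dv k = ∑ j, dd k j • ev j := by
    refine PiLp.ext fun l => ?_
    simp [Dv, ev, Pi.single_apply, Finset.sum_apply]
  conv_lhs => rw [h3]
  rw [map_sum]
  have h4 : (∑ j, fderiv ℝ V x (dd k j • ev j)) i = ∑ j, (fderiv ℝ V x (dd k j • ev j)) i := by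
    simp
  rw [h4, Finset.mul_sum]
  refine Finset.sum_congr rfl fun j _ => ?_
  rw [map_smul]
  show dd k i * (dd k j * (fderiv ℝ V x (ev j)) i) = dd k i * dd k j * jac V x (i, j)
  rw [jac_apply]
  ring

/-- the inequality for one smooth field with compact support -/
theorem gen {W : E3 → E3} (hW : Integrable W) {κ B : ℝ} (hκ : 0 ≤ κ) (hp : PairBd κ B W)
    {V : E3 → E3} (hV : ContDiff ℝ ∞ V) (hVc : HasCompactSupport V) :
    ∫ x, ∑ i, ∑ j, W x i * (V x j * jac V x (i, j) + V x i * jac V x (j, j)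
        + V x j * jac V x (j, i))
      ≤ κ / Real.log 2 ^ 2 * (1 / 2 * ∫ x, ∑ i, ∑ j, (jac V x (i, i) * jac V x (j, j)
          + jac V x (i, j) ^ 2 + jac V x (i, j) * jac V x (j, i)))
        + B * (5 / 2 * ∫ x, ∑ i, V x i ^ 2) := by
  set K := κ / Real.log 2 ^ 2 with hK
  set F : Fin 7 → E3 → ℝ := fun k x => ⟪Dv k, V x⟫_ℝ with hF
  have hFd : ∀ k, ContDiff ℝ 1 (F k) := fun k =>
    contDiff_const.inner ℝ (hV.of_le (by exact_mod_cast le_top))
  have hFc : ∀ k, HasCompactSupport (F k) := fun k =>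
    hVc.comp_left (g := fun y : E3 => ⟪Dv k, y⟫_ℝ) (by simp)
  have hdF : ∀ k, Continuous fun x => fderiv ℝ (F k) x (Dv k) := fun k =>
    ((hFd k).continuous_fderiv (by norm_num)).clm_apply continuous_const
  have hdFc : ∀ k, HasCompactSupport fun x => fderiv ℝ (F k) x (Dv k) := fun k =>
    ((hFc k).fderiv (𝕜 := ℝ)).comp_left (g := fun L : E3 →L[ℝ] ℝ => L (Dv k)) (by simp)
  -- integrability
  have i1 : ∀ k, Integrable fun x => ⟪Dv k, W x⟫_ℝ * (2 * F k x * fderiv ℝ (F k) x (Dv k)) := by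
    intro k
    have hc : Continuous fun x => 2 * F k x * fderiv ℝ (F k) x (Dv k) :=
      (continuous_const.mul (hFd k).continuous).mul (hdF k)
    have hcs : HasCompactSupport fun x => 2 * F k x * fderiv ℝ (F k) x (Dv k) := by
      have h0 : HasCompactSupport fun x => 2 * F k x := (hFc k).mul_left
      exact h0.mul_right
    obtain ⟨C, hC⟩ := hcs.exists_bound_of_continuous hc
    exact (hW.const_inner (Dv k)).mul_bdd (c := C) hc.aestronglyMeasurable
      (Eventually.of_forall hC)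
  have i2 : ∀ k, Integrable fun x => (fderiv ℝ (F k) x (Dv k)) ^ 2 := fun k =>
    Continuous.integrable_of_hasCompactSupport ((hdF k).pow 2)
      ((hdFc k).comp_left (g := fun y : ℝ => y ^ 2) (by simp))
  have i3 : ∀ k, Integrable fun x => F k x ^ 2 := fun k =>
    Continuous.integrable_of_hasCompactSupport ((hFd k).continuous.pow 2)
      ((hFc k).comp_left (g := fun y : ℝ => y ^ 2) (by simp))
  -- one direction
  have h1 : ∀ k, wt k * ∫ x, ⟪Dv k, W x⟫_ℝ * (2 * F k x * fderiv ℝ (F k) x (Dv k))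
      ≤ wt k * (K * (∫ x, (fderiv ℝ (F k) x (Dv k)) ^ 2) + nn k * B * ∫ x, F k x ^ 2) := fun k =>
    mul_le_mul_of_nonneg_left (dir_vec (nn_pos k) (inner_Dv_Dv k) hW hκ hp (hFd k) (hFc k))
      (wt_nonneg k)
  have h2 := Finset.sum_le_sum fun k (_ : k ∈ Finset.univ) => h1 k
  -- left side
  have e1 : ∑ k, wt k * ∫ x, ⟪Dv k, W x⟫_ℝ * (2 * F k x * fderiv ℝ (F k) x (Dv k))
      = ∫ x, ∑ i, ∑ j, W x i * (V x j * jac V x (i, j) + V x i * jac V x (j, j)
        + V x j * jac V x (j, i)) := by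
    simp_rw [← integral_const_mul]
    rw [← integral_finsetSum _ fun k _ => (i1 k).const_mul (wt k)]
    refine integral_congr_ae (Eventually.of_forall fun x => ?_)
    simp only
    rw [← alg1 (fun i => W x i) (fun i => V x i) fun i j => jac V x (i, j)]
    refine Finset.sum_congr rfl fun k _ => ?_
    simp only [hF]
    rw [inner_Dv, fderiv_inner_Dv hV, inner_Dv]
  have e2 : ∑ k, wt k * (K * (∫ x, (fderiv ℝ (F k) x (Dv k)) ^ 2) + nn k * B * ∫ x, F k x ^ 2)
      = K * (1 / 2 * ∫ x, ∑ i, ∑ j, (jac V x (i, i) * jac V x (j, j)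
          + jac V x (i, j) ^ 2 + jac V x (i, j) * jac V x (j, i)))
        + B * (5 / 2 * ∫ x, ∑ i, V x i ^ 2) := by
    have a1 : (1 / 2 * ∫ x, ∑ i, ∑ j, (jac V x (i, i) * jac V x (j, j)
          + jac V x (i, j) ^ 2 + jac V x (i, j) * jac V x (j, i)))
        = ∑ k, wt k * ∫ x, (fderiv ℝ (F k) x (Dv k)) ^ 2 := by
      simp_rw [← integral_const_mul]
      rw [← integral_finsetSum _ fun k _ => (i2 k).const_mul (wt k)]
      refine integral_congr_ae (Eventually.of_forall fun x => ?_)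
      simp only
      rw [← alg2 fun i j => jac V x (i, j)]
      refine Finset.sum_congr rfl fun k _ => ?_
      simp only [hF]
      rw [fderiv_inner_Dv hV]
    have a2 : (5 / 2 * ∫ x, ∑ i, V x i ^ 2) = ∑ k, wt k * (nn k * ∫ x, F k x ^ 2) := by
      simp_rw [← integral_const_mul]
      rw [← integral_finsetSum _ fun k _ => ((i3 k).const_mul (nn k)).const_mul (wt k)]
      refine integral_congr_ae (Eventually.of_forall fun x => ?_)
      simp only
      rw [← alg3 fun i => V x i]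
      refine Finset.sum_congr rfl fun k _ => ?_
      simp only [hF]
      rw [inner_Dv]
    rw [a1, a2, Finset.mul_sum, Finset.mul_sum, ← Finset.sum_add_distrib]
    refine Finset.sum_congr rfl fun k _ => ?_
    ring
  rw [e1, e2] at h2
  exact h2

end Pool.Agent.TH340.FF
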