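import Pool.Agent.TH340.FF.Form2

/-!
The inequality for divergence free test fields, in both one-sided versions.
-/

set_option autoImplicit false

open MeasureTheory Set Filter Topology
open scoped InnerProductSpace ContDiff

namespace Pool.Agent.TH340.FF

open H772R2.NS

section

variable {Ω : Set E3} {φ : E3 → E3}

theorem jac_eq_coord (hφ : ContDiff ℝ ∞ φ) (x : E3) (i j : Fin 3) :
    jac φ x (i, j) = fderiv ℝ (fun y => φ y i) x (ev j) := by
  rw [fderiv_coord hφ, jac_apply]

theorem cont_jac_coord (hφ : ContDiff ℝ ∞ φ) (i j : Fin 3) :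
    Continuous fun x => jac φ x (i, j) := by
  simp_rw [jac_eq_coord hφ]
  exact ((contDiff_coord hφ i).continuous_fderiv (by simp)).clm_apply continuous_const

theorem contDiff_jac_coord (hφ : ContDiff ℝ ∞ φ) (i j : Fin 3) :
    ContDiff ℝ 1 fun x => jac φ x (i, j) := by
  simp_rw [jac_eq_coord hφ]
  have h := (contDiff_coord hφ i).fderiv_right (m := 1) (by decide)
  exact h.clm_apply contDiff_const

theorem hcs_jac_coord (hφ : ContDiff ℝ ∞ φ) (hc : HasCompactSupport φ) (i j : Fin 3) :
    HasCompactSupport fun x => jac φ x (i, j) := by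
  simp_rw [jac_eq_coord hφ]
  exact ((hasCompactSupport_coord hc i).fderiv (𝕜 := ℝ)).comp_left
    (g := fun L : E3 →L[ℝ] ℝ => L (ev j)) (by simp)

/-- `∫ ∑ ∂ⱼφᵢ ∂ᵢφⱼ = 0` for test fields -/
theorem IsTest.cross_zero (h : IsTest Ω φ) :
    ∫ x, ∑ i, ∑ j, jac φ x (i, j) * jac φ x (j, i) = 0 := by
  have hsm := h.smooth
  -- second derivatives
  set q : Fin 3 → Fin 3 → E3 → ℝ := fun i j x => fderiv ℝ (fun y => jac φ y (j, i)) x (ev j)
    with hq
  have hqc : ∀ i j, Continuous (q i j) := fun i j =>
    ((contDiff_jac_coord hsm j i).continuous_fderiv (by norm_num)).clm_apply continuous_const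
  -- `∑ⱼ ∂ⱼ ∂ᵢ φⱼ = 0`
  have hz : ∀ i x, ∑ j, q i j x = 0 := by
    intro i x
    have hsymm : ∀ j, q i j x = fderiv ℝ (fun y => jac φ y (j, j)) x (ev i) := by
      intro j
      have hc2 : ContDiff ℝ ∞ (fun y => φ y j) := contDiff_coord hsm j
      have hd : Differentiable ℝ (fderiv ℝ fun y => φ y j) :=
        (hc2.fderiv_right (m := 1) (by decide)).differentiable (by norm_num)
      have hs : IsSymmSndFDerivAt ℝ (fun y => φ y j) x :=
        hc2.contDiffAt.isSymmSndFDerivAt (by
          rw [minSmoothness_of_isRCLikeNormedField]; decide)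
      have e1 : ∀ a b : Fin 3, fderiv ℝ (fun y => jac φ y (j, a)) x (ev b)
          = fderiv ℝ (fderiv ℝ fun y => φ y j) x (ev b) (ev a) := by
        intro a b
        have e2 : (fun y => jac φ y (j, a)) = fun y => fderiv ℝ (fun y => φ y j) y (ev a) := by
          funext y
          exact jac_eq_coord hsm y j a
        rw [e2]
        have e3 : HasFDerivAt (fun y => fderiv ℝ (fun y => φ y j) y (ev a))
            ((ContinuousLinearMap.apply ℝ ℝ (ev a)).comp
              (fderiv ℝ (fderiv ℝ fun y => φ y j) x)) x :=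
          (ContinuousLinearMap.apply ℝ ℝ (ev a)).hasFDerivAt.comp x (hd x).hasFDerivAt
        rw [e3.fderiv]
        rfl
      simp only [hq]
      rw [e1, e1]
      exact hs _ _
    simp_rw [hsymm]
    have hdiff : ∀ j ∈ Finset.univ, DifferentiableAt ℝ (fun y => jac φ y (j, j)) x := fun j _ =>
      ((contDiff_jac_coord hsm j j).differentiable (by norm_num)) x
    rw [← sum_apply, ← fderiv_fun_sum hdiff]
    have : (fun y => ∑ j, jac φ y (j, j)) = fun _ => (0 : ℝ) := by
      funext y
      exact h.divfree y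
    rw [this]
    simp
  -- integration by parts
  have hibp : ∀ i j, ∫ x, jac φ x (i, j) * jac φ x (j, i) = -∫ x, φ x i * q i j x := by
    intro i j
    have hc1 := (contDiff_coord hsm i).continuous
    have h1 := integral_mul_fderiv_eq_neg_fderiv_mul_of_integrable (μ := (volume : Measure E3))
      (f := fun x => jac φ x (j, i)) (g := fun x => φ x i) (v := ev j)
      (((hqc i j).mul hc1).integrable_of_hasCompactSupport
        ((hasCompactSupport_coord h.compact i).mul_left))
      (by
        simp_rw [← jac_eq_coord hsm]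
        exact ((cont_jac_coord hsm j i).mul (cont_jac_coord hsm i j)).integrable_of_hasCompactSupport
          ((hcs_jac_coord hsm h.compact i j).mul_left))
      (((cont_jac_coord hsm j i).mul hc1).integrable_of_hasCompactSupport
        ((hasCompactSupport_coord h.compact i).mul_left))
      (fun x _ => ((contDiff_jac_coord hsm j i).differentiable (by norm_num)) x)
      (fun x _ => ((contDiff_coord hsm i).differentiable (by simp)) x)
    simp_rw [← jac_eq_coord hsm] at h1
    calc ∫ x, jac φ x (i, j) * jac φ x (j, i) = ∫ x, jac φ x (j, i) * jac φ x (i, j) := by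
          refine integral_congr_ae (Eventually.of_forall fun x => ?_)
          simp only
          ring
      _ = _ := h1
      _ = _ := by
          congr 1
          refine integral_congr_ae (Eventually.of_forall fun x => ?_)
          simp only [hq]
          ring
  have i1 : ∀ i j, Integrable fun x => jac φ x (i, j) * jac φ x (j, i) := fun i j =>
    ((cont_jac_coord hsm i j).mul (cont_jac_coord hsm j i)).integrable_of_hasCompactSupport
      ((hcs_jac_coord hsm h.compact j i).mul_left)
  have i2 : ∀ i j, Integrable fun x => φ x i * q i j x := fun i j =>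
    ((contDiff_coord hsm i).continuous.mul (hqc i j)).integrable_of_hasCompactSupport
      ((hasCompactSupport_coord h.compact i).mul_right)
  rw [integral_finsetSum _ fun i _ => integrable_finsetSum _ fun j _ => i1 i j]
  refine Finset.sum_eq_zero fun i _ => ?_
  rw [integral_finsetSum _ fun j _ => i1 i j]
  simp_rw [hibp i]
  rw [Finset.sum_neg_distrib, ← integral_finsetSum _ fun j _ => i2 i j]
  have : ∀ x, ∑ j, φ x i * q i j x = 0 := fun x => by
    rw [← Finset.mul_sum, hz, mul_zero]
  simp [this]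

/-- integrability of products with an integrable field -/
theorem int_W {W : E3 → E3} (hW : Integrable W) {ξ : E3 → ℝ} (hξ : Continuous ξ)
    (hc : HasCompactSupport ξ) (i : Fin 3) : Integrable fun x => W x i * ξ x := by
  obtain ⟨C, hC⟩ := hc.exists_bound_of_continuous hξ
  have h1 : Integrable fun x => W x i := by
    have := (EuclideanSpace.proj (𝕜 := ℝ) i : E3 →L[ℝ] ℝ).integrable_comp hW
    exact this
  exact h1.mul_bdd (c := C) hξ.aestronglyMeasurable (Eventually.of_forall hC)

/-- The inequality for test fields: particles approach slowly. -/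
theorem testA {W : E3 → E3} (hW : Integrable W) {κ B : ℝ} (hκ : 0 ≤ κ) (hp : PairBd κ B W)
    (h : IsTest Ω φ) (h0 : ∫ x, ∑ i, ∑ j, W x i * (φ x j * jac φ x (j, i)) = 0) :
    ∫ x, ∑ i, ∑ j, W x i * (φ x j * jac φ x (i, j))
      ≤ κ / Real.log 2 ^ 2 / 2 * (∫ x, ∑ i, ∑ j, jac φ x (i, j) ^ 2)
        + 5 / 2 * B * ∫ x, ∑ i, φ x i ^ 2 := by
  have hsm := h.smooth
  have hg := gen hW hκ hp hsm h.compact
  have c1 : ∀ i j a b, Continuous fun x => φ x i * jac φ x (a, b) + 0 * (j : ℝ) := fun i j a b => by
    simp only [zero_mul, add_zero]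
    exact (contDiff_coord hsm i).continuous.mul (cont_jac_coord hsm a b)
  have c2 : ∀ i a b, Continuous fun x => φ x i * jac φ x (a, b) := fun i a b =>
    (contDiff_coord hsm i).continuous.mul (cont_jac_coord hsm a b)
  have s2 : ∀ i a b, HasCompactSupport fun x => φ x i * jac φ x (a, b) := fun i a b =>
    (hasCompactSupport_coord h.compact i).mul_right
  have j1 : Integrable fun x => ∑ i, ∑ j, W x i * (φ x j * jac φ x (i, j)) :=
    integrable_finsetSum _ fun i _ => integrable_finsetSum _ fun j _ =>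
      int_W hW (c2 j i j) (s2 j i j) i
  have j2 : Integrable fun x => ∑ i, ∑ j, W x i * (φ x j * jac φ x (j, i)) :=
    integrable_finsetSum _ fun i _ => integrable_finsetSum _ fun j _ =>
      int_W hW (c2 j j i) (s2 j j i) i
  have e1 : ∫ x, ∑ i, ∑ j, W x i * (φ x j * jac φ x (i, j) + φ x i * jac φ x (j, j)
        + φ x j * jac φ x (j, i))
      = (∫ x, ∑ i, ∑ j, W x i * (φ x j * jac φ x (i, j))) + 0 := by
    rw [← h0, ← integral_add j1 j2]
    refine integral_congr_ae (Eventually.of_forall fun x => ?_)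
    simp only
    have hd := h.divfree x
    rw [Fin.sum_univ_three] at hd
    have hd' : jac φ x (2, 2) = -jac φ x (0, 0) - jac φ x (1, 1) := by linarith
    simp only [Fin.sum_univ_three, hd']
    ring
  have j3 : Integrable fun x => ∑ i, ∑ j, jac φ x (i, j) ^ 2 :=
    integrable_finsetSum _ fun i _ => integrable_finsetSum _ fun j _ =>
      Continuous.integrable_of_hasCompactSupport ((cont_jac_coord hsm i j).pow 2)
        ((hcs_jac_coord hsm h.compact i j).comp_left (g := fun y : ℝ => y ^ 2) (by simp))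
  have j4 : Integrable fun x => ∑ i, ∑ j, jac φ x (i, j) * jac φ x (j, i) :=
    integrable_finsetSum _ fun i _ => integrable_finsetSum _ fun j _ =>
      ((cont_jac_coord hsm i j).mul (cont_jac_coord hsm j i)).integrable_of_hasCompactSupport
        ((hcs_jac_coord hsm h.compact j i).mul_left)
  have e2 : ∫ x, ∑ i, ∑ j, (jac φ x (i, i) * jac φ x (j, j)
          + jac φ x (i, j) ^ 2 + jac φ x (i, j) * jac φ x (j, i))
      = ∫ x, ∑ i, ∑ j, jac φ x (i, j) ^ 2 := by
    have : ∫ x, ∑ i, ∑ j, jac φ x (i, j) ^ 2 = (∫ x, ∑ i, ∑ j, jac φ x (i, j) ^ 2)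
        + ∫ x, ∑ i, ∑ j, jac φ x (i, j) * jac φ x (j, i) := by
      rw [IsTest.cross_zero h, add_zero]
    rw [this, ← integral_add j3 j4]
    refine integral_congr_ae (Eventually.of_forall fun x => ?_)
    simp only
    have hd := h.divfree x
    rw [Fin.sum_univ_three] at hd
    have hd' : jac φ x (2, 2) = -jac φ x (0, 0) - jac φ x (1, 1) := by linarith
    simp only [Fin.sum_univ_three, hd']
    ring
  rw [e1, e2] at hg
  linarith

/-- the three cross products with the basis vectors -/
def cr : Fin 3 → Fin 3 → Fin 3 → ℝ :=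
  ![![![0, 0, 0], ![0, 0, 1], ![0, -1, 0]], ![![0, 0, -1], ![0, 0, 0], ![1, 0, 0]],
    ![![0, 1, 0], ![-1, 0, 0], ![0, 0, 0]]]

noncomputable def Vk (φ : E3 → E3) (k : Fin 3) (x : E3) : E3 :=
  WithLp.toLp 2 fun i => ∑ a, cr k i a * φ x a

theorem Vk_apply (φ : E3 → E3) (k : Fin 3) (x : E3) (i : Fin 3) :
    Vk φ k x i = ∑ a, cr k i a * φ x a := rfl

theorem Vk_smooth (hφ : ContDiff ℝ ∞ φ) (k : Fin 3) : ContDiff ℝ ∞ (Vk φ k) := by
  rw [contDiff_euclidean]
  intro i
  simp_rw [Vk_apply]
  exact ContDiff.sum fun a _ => contDiff_const.mul (contDiff_coord hφ a)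

theorem Vk_compact (hc : HasCompactSupport φ) (k : Fin 3) : HasCompactSupport (Vk φ k) := by
  refine hc.mono fun x hx => ?_
  intro h0
  apply hx
  refine PiLp.ext fun i => ?_
  rw [Vk_apply, h0]
  simp

theorem jac_Vk (hφ : ContDiff ℝ ∞ φ) (k : Fin 3) (x : E3) (i j : Fin 3) :
    jac (Vk φ k) x (i, j) = ∑ a, cr k i a * jac φ x (a, j) := by
  rw [jac_eq_coord (Vk_smooth hφ k)]
  simp_rw [Vk_apply]
  have h1 : ∀ a ∈ Finset.univ, DifferentiableAt ℝ (fun y => cr k i a * φ y a) x := fun a _ =>
    (((contDiff_coord hφ a).differentiable (by simp)) x).const_mul _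
  rw [fderiv_fun_sum h1, sum_apply]
  refine Finset.sum_congr rfl fun a _ => ?_
  rw [fderiv_const_mul (((contDiff_coord hφ a).differentiable (by simp)) x), jac_eq_coord hφ]
  rfl

/-- The inequality for test fields: particles separate slowly. -/
theorem testB {W : E3 → E3} (hW : Integrable W) {κ B : ℝ} (hκ : 0 ≤ κ)
    (hp : PairBd κ B fun x => -W x)
    (h : IsTest Ω φ) (h0 : ∫ x, ∑ i, ∑ j, W x i * (φ x j * jac φ x (j, i)) = 0) :
    ∫ x, ∑ i, ∑ j, W x i * (φ x j * jac φ x (i, j))
      ≤ 2 * (κ / Real.log 2 ^ 2) * (∫ x, ∑ i, ∑ j, jac φ x (i, j) ^ 2)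
        + 5 * B * ∫ x, ∑ i, φ x i ^ 2 := by
  have hsm := h.smooth
  have hWn : Integrable fun x => -W x := hW.neg
  have hg := fun k => gen hWn hκ hp (Vk_smooth hsm k) (Vk_compact h.compact k)
  have hsum := Finset.sum_le_sum fun k (_ : k ∈ Finset.univ) => hg k
  have c2 : ∀ i a b, Continuous fun x => φ x i * jac φ x (a, b) := fun i a b =>
    (contDiff_coord hsm i).continuous.mul (cont_jac_coord hsm a b)
  have s2 : ∀ i a b, HasCompactSupport fun x => φ x i * jac φ x (a, b) := fun i a b =>
    (hasCompactSupport_coord h.compact i).mul_right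
  have j1 : Integrable fun x => ∑ i, ∑ j, W x i * (φ x j * jac φ x (i, j)) :=
    integrable_finsetSum _ fun i _ => integrable_finsetSum _ fun j _ =>
      int_W hW (c2 j i j) (s2 j i j) i
  have j2 : Integrable fun x => ∑ i, ∑ j, W x i * (φ x j * jac φ x (j, i)) :=
    integrable_finsetSum _ fun i _ => integrable_finsetSum _ fun j _ =>
      int_W hW (c2 j j i) (s2 j j i) i
  -- integrability of the summands
  have hV := Vk_smooth hsm
  have hVc := fun k => Vk_compact h.compact k
  have c3 : ∀ k i a b, Continuous fun x => Vk φ k x i * jac (Vk φ k) x (a, b) := fun k i a b =>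
    (contDiff_coord (hV k) i).continuous.mul (cont_jac_coord (hV k) a b)
  have s3 : ∀ k i a b, HasCompactSupport fun x => Vk φ k x i * jac (Vk φ k) x (a, b) :=
    fun k i a b => (hasCompactSupport_coord (hVc k) i).mul_right
  have m1 : ∀ k, Integrable fun x => ∑ i, ∑ j, (-W x) i * (Vk φ k x j * jac (Vk φ k) x (i, j)
      + Vk φ k x i * jac (Vk φ k) x (j, j) + Vk φ k x j * jac (Vk φ k) x (j, i)) := fun k =>
    integrable_finsetSum _ fun i _ => integrable_finsetSum _ fun j _ =>
      int_W hWn (((c3 k j i j).add (c3 k i j j)).add (c3 k j j i))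
        (((s3 k j i j).add (s3 k i j j)).add (s3 k j j i)) i
  have e1 : ∑ k, ∫ x, ∑ i, ∑ j, (-W x) i * (Vk φ k x j * jac (Vk φ k) x (i, j)
      + Vk φ k x i * jac (Vk φ k) x (j, j) + Vk φ k x j * jac (Vk φ k) x (j, i))
      = (∫ x, ∑ i, ∑ j, W x i * (φ x j * jac φ x (i, j))) + (-4) * 0 := by
    rw [← h0, ← integral_const_mul, ← integral_add j1 (j2.const_mul (-4)),
      ← integral_finsetSum _ fun k _ => m1 k]
    refine integral_congr_ae (Eventually.of_forall fun x => ?_)
    simp only [Vk_apply, jac_Vk hsm]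
    have hd := h.divfree x
    rw [Fin.sum_univ_three] at hd
    have hd' : jac φ x (2, 2) = -jac φ x (0, 0) - jac φ x (1, 1) := by linarith
    simp [Fin.sum_univ_three, hd', cr]
    ring
  have c4 : ∀ k a b c d, Continuous fun x => jac (Vk φ k) x (a, b) * jac (Vk φ k) x (c, d) :=
    fun k a b c d => (cont_jac_coord (hV k) a b).mul (cont_jac_coord (hV k) c d)
  have s4 : ∀ k a b c d, HasCompactSupport fun x => jac (Vk φ k) x (a, b)
      * jac (Vk φ k) x (c, d) := fun k a b c d => (hcs_jac_coord (hV k) (hVc k) a b).mul_right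
  have m2 : ∀ k, Integrable fun x => ∑ i, ∑ j, (jac (Vk φ k) x (i, i) * jac (Vk φ k) x (j, j)
      + jac (Vk φ k) x (i, j) ^ 2 + jac (Vk φ k) x (i, j) * jac (Vk φ k) x (j, i)) := fun k =>
    integrable_finsetSum _ fun i _ => integrable_finsetSum _ fun j _ => by
      have a1 := (c4 k i i j j).integrable_of_hasCompactSupport (μ := (volume : Measure E3))
        (s4 k i i j j)
      have a2 := (c4 k i j i j).integrable_of_hasCompactSupport (μ := (volume : Measure E3))
        (s4 k i j i j)
      have a3 := (c4 k i j j i).integrable_of_hasCompactSupport (μ := (volume : Measure E3))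
        (s4 k i j j i)
      refine ((a1.add a2).add a3).congr (Eventually.of_forall fun x => ?_)
      simp only [Pi.add_apply]
      ring
  have j3 : Integrable fun x => ∑ i, ∑ j, jac φ x (i, j) ^ 2 :=
    integrable_finsetSum _ fun i _ => integrable_finsetSum _ fun j _ =>
      Continuous.integrable_of_hasCompactSupport ((cont_jac_coord hsm i j).pow 2)
        ((hcs_jac_coord hsm h.compact i j).comp_left (g := fun y : ℝ => y ^ 2) (by simp))
  have j4 : Integrable fun x => ∑ i, ∑ j, jac φ x (i, j) * jac φ x (j, i) :=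
    integrable_finsetSum _ fun i _ => integrable_finsetSum _ fun j _ =>
      ((cont_jac_coord hsm i j).mul (cont_jac_coord hsm j i)).integrable_of_hasCompactSupport
        ((hcs_jac_coord hsm h.compact j i).mul_left)
  have e2 : ∑ k, ∫ x, ∑ i, ∑ j, (jac (Vk φ k) x (i, i) * jac (Vk φ k) x (j, j)
      + jac (Vk φ k) x (i, j) ^ 2 + jac (Vk φ k) x (i, j) * jac (Vk φ k) x (j, i))
      = 4 * ∫ x, ∑ i, ∑ j, jac φ x (i, j) ^ 2 := by
    have a1 : 4 * ∫ x, ∑ i, ∑ j, jac φ x (i, j) ^ 2 = 4 * (∫ x, ∑ i, ∑ j, jac φ x (i, j) ^ 2)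
        + (-1) * ∫ x, ∑ i, ∑ j, jac φ x (i, j) * jac φ x (j, i) := by
      rw [IsTest.cross_zero h, mul_zero, add_zero]
    rw [a1, ← integral_const_mul, ← integral_const_mul,
      ← integral_add (j3.const_mul 4) (j4.const_mul (-1)),
      ← integral_finsetSum _ fun k _ => m2 k]
    refine integral_congr_ae (Eventually.of_forall fun x => ?_)
    simp only [jac_Vk hsm]
    have hd := h.divfree x
    rw [Fin.sum_univ_three] at hd
    have hd' : jac φ x (2, 2) = -jac φ x (0, 0) - jac φ x (1, 1) := by linarith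
    simp [Fin.sum_univ_three, hd', cr]
    ring
  have m3 : ∀ k, Integrable fun x => ∑ i, Vk φ k x i ^ 2 := fun k =>
    integrable_finsetSum _ fun i _ =>
      Continuous.integrable_of_hasCompactSupport ((contDiff_coord (hV k) i).continuous.pow 2)
        ((hasCompactSupport_coord (hVc k) i).comp_left (g := fun y : ℝ => y ^ 2) (by simp))
  have e3 : ∑ k, ∫ x, ∑ i, Vk φ k x i ^ 2 = 2 * ∫ x, ∑ i, φ x i ^ 2 := by
    rw [← integral_const_mul, ← integral_finsetSum _ fun k _ => m3 k]
    refine integral_congr_ae (Eventually.of_forall fun x => ?_)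
    simp only [Vk_apply]
    simp [Fin.sum_univ_three, cr]
    ring
  rw [e1] at hsum
  rw [Finset.sum_add_distrib, ← Finset.mul_sum, ← Finset.mul_sum, ← Finset.mul_sum,
    ← Finset.mul_sum, e2, e3] at hsum
  linarith

end

end Pool.Agent.TH340.FF
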