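import Pool.Agent.TH340.FF.Form3

/-!
The form inequality for fields in `H¹_{0,σ}(Ω)`.
-/

set_option autoImplicit false

open MeasureTheory Set Filter Topology
open scoped InnerProductSpace ContDiff

namespace Pool.Agent.TH340.FF

open H772R2.NS

section

variable {Ω : Set E3}

/-- the extension by zero -/
noncomputable def ext (Ω : Set E3) (U : L2V Ω) : E3 → E3 := Ω.indicator (U : E3 → E3)

theorem ext_integrable (hΩ : MeasurableSet Ω) (hb : Bornology.IsBounded Ω) (U : L2V Ω) :
    Integrable (ext Ω U) := by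
  unfold ext
  rw [integrable_indicator_iff hΩ]
  have : IsFiniteMeasure ((volume : Measure E3).restrict Ω) :=
    ⟨by rw [Measure.restrict_apply_univ]; exact hb.measure_lt_top⟩
  exact (Lp.memLp U).integrable (by norm_num)

/-- pairing with a continuous field with compact support -/
theorem pair_int (hΩ : MeasurableSet Ω) {a : E3 → E3} (ha : Continuous a)
    (hc : HasCompactSupport a) : ∃ α : L2V Ω, ∀ U : L2V Ω,
      ∫ x, ∑ i, ext Ω U x i * a x i = ⟪α, U⟫_ℝ := by
  have hm : MemLp a 2 ((volume : Measure E3).restrict Ω) :=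
    (ha.memLp_of_hasCompactSupport hc).restrict Ω
  refine ⟨hm.toLp a, fun U => ?_⟩
  rw [L2.inner_def]
  have e1 : (fun x => ∑ i, ext Ω U x i * a x i)
      = Ω.indicator fun x => ∑ i, (U : E3 → E3) x i * a x i := by
    funext x
    by_cases hx : x ∈ Ω
    · simp [ext, indicator_of_mem hx]
    · simp [ext, indicator_of_notMem hx]
  rw [e1, integral_indicator hΩ]
  refine integral_congr_ae ?_
  filter_upwards [hm.coeFn_toLp] with x hx
  rw [hx, inner_E3]
  exact Finset.sum_congr rfl fun i _ => by ring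

/-- the vector field `∑ⱼ φⱼ ∂ⱼφᵢ` -/
noncomputable def f1 (φ : E3 → E3) (x : E3) : E3 :=
  WithLp.toLp 2 fun i => ∑ j, φ x j * jac φ x (i, j)

/-- the vector field `∑ⱼ φⱼ ∂ᵢφⱼ` -/
noncomputable def f2 (φ : E3 → E3) (x : E3) : E3 :=
  WithLp.toLp 2 fun i => ∑ j, φ x j * jac φ x (j, i)

variable {φ : E3 → E3}

theorem f1_cont (h : ContDiff ℝ ∞ φ) : Continuous (f1 φ) := by
  refine (PiLp.continuous_toLp 2 _).comp (continuous_pi fun i => ?_)
  exact continuous_finsetSum _ fun j _ =>
    (contDiff_coord h j).continuous.mul (cont_jac_coord h i j)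

theorem f2_cont (h : ContDiff ℝ ∞ φ) : Continuous (f2 φ) := by
  refine (PiLp.continuous_toLp 2 _).comp (continuous_pi fun i => ?_)
  exact continuous_finsetSum _ fun j _ =>
    (contDiff_coord h j).continuous.mul (cont_jac_coord h j i)

theorem f1_comp (hc : HasCompactSupport φ) : HasCompactSupport (f1 φ) := by
  refine hc.mono fun x hx h0 => hx ?_
  refine PiLp.ext fun i => ?_
  simp [f1, h0]

theorem f2_comp (hc : HasCompactSupport φ) : HasCompactSupport (f2 φ) := by
  refine hc.mono fun x hx h0 => hx ?_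
  refine PiLp.ext fun i => ?_
  simp [f2, h0]

/-- integration by parts for two smooth fields -/
theorem ibp_prod {ψ : E3 → E3} (hψ : ContDiff ℝ ∞ ψ) {g : E3 → ℝ} (hg : ContDiff ℝ 1 g)
    (hgc : HasCompactSupport g) (i j : Fin 3) :
    ∫ x, ψ x i * fderiv ℝ g x (ev j) = -∫ x, jac ψ x (i, j) * g x := by
  have hdg : Continuous fun x => fderiv ℝ g x (ev j) :=
    (hg.continuous_fderiv (by norm_num)).clm_apply continuous_const
  have hdgc : HasCompactSupport fun x => fderiv ℝ g x (ev j) :=
    (hgc.fderiv (𝕜 := ℝ)).comp_left (g := fun L : E3 →L[ℝ] ℝ => L (ev j)) (by simp)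
  have h1 := integral_mul_fderiv_eq_neg_fderiv_mul_of_integrable (μ := (volume : Measure E3))
    (f := fun x => ψ x i) (g := g) (v := ev j)
    (by
      simp_rw [← jac_eq_coord hψ]
      exact ((cont_jac_coord hψ i j).mul hg.continuous).integrable_of_hasCompactSupport
        hgc.mul_left)
    (((contDiff_coord hψ i).continuous.mul hdg).integrable_of_hasCompactSupport hdgc.mul_left)
    (((contDiff_coord hψ i).continuous.mul hg.continuous).integrable_of_hasCompactSupport
      hgc.mul_left)
    (fun x _ => ((contDiff_coord hψ i).differentiable (by simp)) x)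
    (fun x _ => (hg.differentiable (by norm_num)) x)
  simp_rw [← jac_eq_coord hψ] at h1
  exact h1

/-- the derivative of a product of coordinates -/
theorem fderiv_mul_coord (h : ContDiff ℝ ∞ φ) (i j l : Fin 3) (x : E3) :
    fderiv ℝ (fun x => φ x i * φ x j) x (ev l) = φ x i * jac φ x (j, l) + φ x j * jac φ x (i, l) := by
  have h1 : DifferentiableAt ℝ (fun x => φ x i) x := ((contDiff_coord h i).differentiable (by simp)) x
  have h2 : DifferentiableAt ℝ (fun x => φ x j) x := ((contDiff_coord h j).differentiable (by simp)) x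
  rw [fderiv_fun_mul h1 h2, jac_eq_coord h, jac_eq_coord h]
  simp

theorem smooth_test {ψ : E3 → E3} (h : IsTest Ω φ) (hψ : ContDiff ℝ ∞ ψ) :
    ∫ x, ∑ i, ψ x i * f1 φ x i = -∫ x, ∑ i, ∑ j, φ x i * φ x j * jac ψ x (i, j) := by
  have hsm := h.smooth
  have hg : ∀ i j, ContDiff ℝ 1 fun x => φ x i * φ x j := fun i j =>
    ((contDiff_coord hsm i).mul (contDiff_coord hsm j)).of_le (by exact_mod_cast le_top)
  have hgc : ∀ i j, HasCompactSupport fun x => φ x i * φ x j := fun i j =>
    (hasCompactSupport_coord h.compact i).mul_right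
  have e1 : ∀ x, ∑ i, ψ x i * f1 φ x i
      = ∑ i, ∑ j, ψ x i * fderiv ℝ (fun x => φ x i * φ x j) x (ev j) := by
    intro x
    refine Finset.sum_congr rfl fun i _ => ?_
    rw [← Finset.mul_sum]
    congr 1
    simp_rw [fderiv_mul_coord hsm]
    rw [Finset.sum_add_distrib, ← Finset.mul_sum]
    have hd := h.divfree x
    rw [hd, mul_zero, zero_add]
    rfl
  have i1 : ∀ i j, Integrable fun x => ψ x i * fderiv ℝ (fun x => φ x i * φ x j) x (ev j) :=
    fun i j => by
      have hdg : Continuous fun x => fderiv ℝ (fun x => φ x i * φ x j) x (ev j) :=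
        ((hg i j).continuous_fderiv (by norm_num)).clm_apply continuous_const
      have hdgc : HasCompactSupport fun x => fderiv ℝ (fun x => φ x i * φ x j) x (ev j) :=
        ((hgc i j).fderiv (𝕜 := ℝ)).comp_left (g := fun L : E3 →L[ℝ] ℝ => L (ev j)) (by simp)
      exact ((contDiff_coord hψ i).continuous.mul hdg).integrable_of_hasCompactSupport
        hdgc.mul_left
  have i2 : ∀ i j, Integrable fun x => φ x i * φ x j * jac ψ x (i, j) := fun i j =>
    ((hg i j).continuous.mul (cont_jac_coord hψ i j)).integrable_of_hasCompactSupport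
      (hgc i j).mul_right
  simp_rw [e1]
  rw [integral_finsetSum _ fun i _ => integrable_finsetSum _ fun j _ => i1 i j,
    integral_finsetSum _ fun i _ => integrable_finsetSum _ fun j _ => i2 i j,
    ← Finset.sum_neg_distrib]
  refine Finset.sum_congr rfl fun i _ => ?_
  rw [integral_finsetSum _ fun j _ => i1 i j, integral_finsetSum _ fun j _ => i2 i j,
    ← Finset.sum_neg_distrib]
  refine Finset.sum_congr rfl fun j _ => ?_
  rw [ibp_prod hψ (hg i j) (hgc i j) i j]
  congr 1
  refine integral_congr_ae (Eventually.of_forall fun x => ?_)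
  simp only
  ring

theorem smooth_div {ψ : E3 → E3} (hφ : ContDiff ℝ ∞ φ) (hc : HasCompactSupport φ)
    (hψ : IsTest Ω ψ) : ∫ x, ∑ i, ψ x i * f2 φ x i = 0 := by
  have hg : ∀ j, ContDiff ℝ 1 fun x => φ x j * φ x j := fun j =>
    ((contDiff_coord hφ j).mul (contDiff_coord hφ j)).of_le (by exact_mod_cast le_top)
  have hgc : ∀ j, HasCompactSupport fun x => φ x j * φ x j := fun j =>
    (hasCompactSupport_coord hc j).mul_right
  have e1 : ∀ x, ∑ i, ψ x i * f2 φ x i
      = ∑ j, 1 / 2 * ∑ i, ψ x i * fderiv ℝ (fun x => φ x j * φ x j) x (ev i) := by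
    intro x
    simp_rw [fderiv_mul_coord hφ]
    simp only [f2, Finset.mul_sum]
    rw [Finset.sum_comm]
    refine Finset.sum_congr rfl fun j _ => Finset.sum_congr rfl fun i _ => ?_
    ring
  have i1 : ∀ i j, Integrable fun x => ψ x i * fderiv ℝ (fun x => φ x j * φ x j) x (ev i) :=
    fun i j => by
      have hdg : Continuous fun x => fderiv ℝ (fun x => φ x j * φ x j) x (ev i) :=
        ((hg j).continuous_fderiv (by norm_num)).clm_apply continuous_const
      have hdgc : HasCompactSupport fun x => fderiv ℝ (fun x => φ x j * φ x j) x (ev i) :=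
        ((hgc j).fderiv (𝕜 := ℝ)).comp_left (g := fun L : E3 →L[ℝ] ℝ => L (ev i)) (by simp)
      exact ((contDiff_coord hψ.smooth i).continuous.mul hdg).integrable_of_hasCompactSupport
        hdgc.mul_left
  have i2 : ∀ i j, Integrable fun x => jac ψ x (i, i) * (φ x j * φ x j) := fun i j =>
    ((cont_jac_coord hψ.smooth i i).mul (hg j).continuous).integrable_of_hasCompactSupport
      (hgc j).mul_left
  simp_rw [e1]
  rw [integral_finsetSum _ fun j _ => (integrable_finsetSum _ fun i _ => i1 i j).const_mul _]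
  refine Finset.sum_eq_zero fun j _ => ?_
  rw [integral_const_mul, integral_finsetSum _ fun i _ => i1 i j]
  have e2 : ∀ i, ∫ x, ψ x i * fderiv ℝ (fun x => φ x j * φ x j) x (ev i)
      = -∫ x, jac ψ x (i, i) * (φ x j * φ x j) := fun i => ibp_prod hψ.smooth (hg j) (hgc j) i i
  simp_rw [e2]
  rw [Finset.sum_neg_distrib, ← integral_finsetSum _ fun i _ => i2 i j]
  have : ∀ x, ∑ i, jac ψ x (i, i) * (φ x j * φ x j) = 0 := fun x => by
    rw [← Finset.sum_mul, hψ.divfree x, zero_mul]
  simp [this]

end

end Pool.Agent.TH340.FF
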