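import Pool.Agent.TH340.FF.Form4

/-!
The form inequality for fields in `H¹_{0,σ}(Ω)`: passage to the limit.
-/

set_option autoImplicit false

open MeasureTheory Set Filter Topology
open scoped InnerProductSpace ContDiff

namespace Pool.Agent.TH340.FF

open H772R2.NS

variable {Ω : Set E3}

theorem preW_le {p : L2V Ω × L2M Ω} (hp : p ∈ preW Ω) : p ∈ graphW Ω :=
  Submodule.le_topologicalClosure _ hp

/-- `∫ U·(φ·∇)φ = -(φ ⊗ φ, ∇U)` -/
theorem int_f1 (hΩ : MeasurableSet Ω) {φ : E3 → E3} (h : IsTest Ω φ) {q : L2V Ω × L2M Ω}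
    (hq : q ∈ graphW Ω) (hqφ : q.1 =ᵐ[volume.restrict Ω] φ) {p : L2V Ω × L2M Ω}
    (hp : p ∈ graphW Ω) :
    ∫ x, ∑ i, ext Ω p.1 x i * f1 φ x i = -⟪tensL q.1, p.2⟫_ℝ := by
  obtain ⟨α, hα⟩ := pair_int hΩ (f1_cont h.smooth) (f1_comp h.compact)
  have key := graphW_induction (Ω := Ω) (fun p => ⟪α, p.1⟫_ℝ + ⟪tensL q.1, p.2⟫_ℝ)
    (by fun_prop) (fun r hr => ?_) hp
  · rw [hα]
    linarith
  obtain ⟨ψ, h1, h2, h3⟩ := hr
  have hψ0 : ∀ x ∉ Ω, ψ x = 0 := fun x hx =>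
    image_eq_zero_of_notMem_tsupport fun hc => hx (h1.supp hc)
  have hφ0 : ∀ x ∉ Ω, φ x = 0 := fun x hx =>
    image_eq_zero_of_notMem_tsupport fun hc => hx (h.supp hc)
  have e1 : ⟪α, r.1⟫_ℝ = ∫ x, ∑ i, ψ x i * f1 φ x i := by
    rw [← hα]
    refine integral_congr_ae ?_
    have h4 := (ae_restrict_iff' hΩ).1 h2
    filter_upwards [h4] with x hx
    by_cases hxΩ : x ∈ Ω
    · simp only [ext, indicator_of_mem hxΩ, hx hxΩ]
    · simp only [ext, indicator_of_notMem hxΩ, hψ0 x hxΩ]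
  have e2 : ⟪tensL q.1, r.2⟫_ℝ = ∫ x, ∑ i, ∑ j, φ x i * φ x j * jac ψ x (i, j) := by
    rw [L2.inner_def]
    refine Eq.trans ?_ (setIntegral_eq_integral_of_forall_compl_eq_zero (s := Ω) fun x hx => ?_)
    · refine integral_congr_ae ?_
      filter_upwards [tensL_coe hΩ hq, hqφ, h3] with x a b c
      rw [a, b, c, inner_M3]
      rfl
    · rw [hφ0 x hx]
      simp
  show ⟪α, r.1⟫_ℝ + ⟪tensL q.1, r.2⟫_ℝ = 0
  rw [e1, e2, smooth_test h h1.smooth]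
  ring

/-- `∫ U·∇|φ|²/2 = 0` -/
theorem int_f2 (hΩ : MeasurableSet Ω) {φ : E3 → E3} (hφ : ContDiff ℝ ∞ φ)
    (hc : HasCompactSupport φ) {p : L2V Ω × L2M Ω} (hp : p ∈ graphW Ω) :
    ∫ x, ∑ i, ext Ω p.1 x i * f2 φ x i = 0 := by
  obtain ⟨α, hα⟩ := pair_int hΩ (f2_cont hφ) (f2_comp hc)
  rw [hα]
  refine graphW_induction (Ω := Ω) (fun p => ⟪α, p.1⟫_ℝ) (by fun_prop) (fun r hr => ?_) hp
  obtain ⟨ψ, h1, h2, h3⟩ := hr
  have hψ0 : ∀ x ∉ Ω, ψ x = 0 := fun x hx =>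
    image_eq_zero_of_notMem_tsupport fun hc => hx (h1.supp hc)
  show ⟪α, r.1⟫_ℝ = 0
  rw [← hα, ← smooth_div hφ hc h1]
  refine integral_congr_ae ?_
  have h4 := (ae_restrict_iff' hΩ).1 h2
  filter_upwards [h4] with x hx
  by_cases hxΩ : x ∈ Ω
  · simp only [ext, indicator_of_mem hxΩ, hx hxΩ]
  · simp only [ext, indicator_of_notMem hxΩ, hψ0 x hxΩ]

/-- extension of an inequality from test pairs -/
theorem graphW_le (F : L2V Ω × L2M Ω → ℝ)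
    (hF : ContinuousOn F (graphW Ω : Set (L2V Ω × L2M Ω))) (h0 : ∀ p ∈ preW Ω, F p ≤ 0)
    {p : L2V Ω × L2M Ω} (hp : p ∈ graphW Ω) : F p ≤ 0 := by
  have hp' : p ∈ closure (preW Ω : Set (L2V Ω × L2M Ω)) := by
    have := hp
    unfold graphW at this
    rwa [← SetLike.mem_coe, Submodule.topologicalClosure_coe] at this
  obtain ⟨q, hq, hlim⟩ := mem_closure_iff_seq_limit.mp hp'
  have hqW : ∀ n, q n ∈ graphW Ω := fun n => preW_le (hq n)
  have h1 : Tendsto q atTop (𝓝[(graphW Ω : Set _)] p) :=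
    tendsto_nhdsWithin_iff.mpr ⟨hlim, Eventually.of_forall hqW⟩
  have h2 : Tendsto (fun n => F (q n)) atTop (𝓝 (F p)) := (hF p hp).tendsto.comp h1
  exact le_of_tendsto h2 (Eventually.of_forall fun n => h0 _ (hq n))

/-- The norms of a test pair -/
theorem norm_test1 {φ : E3 → E3} (h : IsTest Ω φ) {q : L2V Ω × L2M Ω}
    (h2 : q.1 =ᵐ[volume.restrict Ω] φ) : ‖q.1‖ ^ 2 = ∫ x, ∑ i, φ x i ^ 2 := by
  rw [← real_inner_self_eq_norm_sq, L2.inner_def]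
  refine Eq.trans ?_ (setIntegral_eq_integral_of_forall_compl_eq_zero (s := Ω) fun x hx => ?_)
  · refine integral_congr_ae ?_
    filter_upwards [h2] with x a
    rw [a, inner_E3]
    exact Finset.sum_congr rfl fun i _ => by ring
  · have : φ x = 0 := image_eq_zero_of_notMem_tsupport fun hc => hx (h.supp hc)
    rw [this]
    simp

theorem norm_test2 {φ : E3 → E3} (h : IsTest Ω φ) {q : L2V Ω × L2M Ω}
    (h3 : q.2 =ᵐ[volume.restrict Ω] jac φ) : ‖q.2‖ ^ 2 = ∫ x, ∑ i, ∑ j, jac φ x (i, j) ^ 2 := by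
  rw [← real_inner_self_eq_norm_sq, L2.inner_def]
  refine Eq.trans ?_ (setIntegral_eq_integral_of_forall_compl_eq_zero (s := Ω) fun x hx => ?_)
  · refine integral_congr_ae ?_
    filter_upwards [h3] with x a
    rw [a, inner_M3]
    exact Finset.sum_congr rfl fun i _ => Finset.sum_congr rfl fun j _ => by ring
  · have : jac φ x = 0 := image_eq_zero_of_notMem_tsupport fun hc =>
      hx (h.supp (tsupport_jac_subset hc))
    rw [this]
    simp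

theorem form_cont (hΩ : MeasurableSet Ω) (G : L2M Ω) (a b : ℝ) :
    ContinuousOn (fun p : L2V Ω × L2M Ω => -⟪tensL p.1, G⟫_ℝ - a * ‖p.2‖ ^ 2 - b * ‖p.1‖ ^ 2)
      (graphW Ω : Set (L2V Ω × L2M Ω)) := by
  have h1 : ContinuousOn (fun p : L2V Ω × L2M Ω => ⟪tensL p.1, G⟫_ℝ)
      (graphW Ω : Set (L2V Ω × L2M Ω)) := (tensL_continuousOn hΩ).inner continuousOn_const
  have h2 : Continuous fun p : L2V Ω × L2M Ω => a * ‖p.2‖ ^ 2 := by fun_prop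
  have h3 : Continuous fun p : L2V Ω × L2M Ω => b * ‖p.1‖ ^ 2 := by fun_prop
  exact (h1.neg.sub h2.continuousOn).sub h3.continuousOn

theorem f1_sum (W : E3 → E3) (φ : E3 → E3) (x : E3) :
    ∑ i, ∑ j, W x i * (φ x j * jac φ x (i, j)) = ∑ i, W x i * f1 φ x i := by
  refine Finset.sum_congr rfl fun i _ => ?_
  rw [← Finset.mul_sum]
  rfl

theorem f2_sum (W : E3 → E3) (φ : E3 → E3) (x : E3) :
    ∑ i, ∑ j, W x i * (φ x j * jac φ x (j, i)) = ∑ i, W x i * f2 φ x i := by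
  refine Finset.sum_congr rfl fun i _ => ?_
  rw [← Finset.mul_sum]
  rfl

/-- **Form inequality**, particles approach slowly. -/
theorem formA (hΩ : MeasurableSet Ω) (hb : Bornology.IsBounded Ω) {κ B : ℝ} (hκ : 0 ≤ κ)
    {U : L2V Ω} {G : L2M Ω} (hU : (U, G) ∈ graphW Ω) (hp : PairBd κ B (ext Ω U))
    {p : L2V Ω × L2M Ω} (hpW : p ∈ graphW Ω) :
    -⟪tensL p.1, G⟫_ℝ ≤ κ / Real.log 2 ^ 2 / 2 * ‖p.2‖ ^ 2 + 5 / 2 * B * ‖p.1‖ ^ 2 := by
  have key := graphW_le (fun p => -⟪tensL p.1, G⟫_ℝ - κ / Real.log 2 ^ 2 / 2 * ‖p.2‖ ^ 2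
    - 5 / 2 * B * ‖p.1‖ ^ 2) (form_cont hΩ G _ _) (fun q hq => ?_) hpW
  · linarith
  have hqW := preW_le hq
  obtain ⟨φ, h1, h2, h3⟩ := hq
  have t1 := int_f1 hΩ h1 hqW h2 hU
  have t2 := int_f2 hΩ h1.smooth h1.compact hU
  have t3 := testA (ext_integrable hΩ hb U) hκ hp h1 (by simp_rw [f2_sum]; exact t2)
  simp_rw [f1_sum] at t3
  rw [t1, ← norm_test1 h1 h2, ← norm_test2 h1 h3] at t3
  linarith

/-- **Form inequality**, particles separate slowly. -/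
theorem formB (hΩ : MeasurableSet Ω) (hb : Bornology.IsBounded Ω) {κ B : ℝ} (hκ : 0 ≤ κ)
    {U : L2V Ω} {G : L2M Ω} (hU : (U, G) ∈ graphW Ω) (hp : PairBd κ B fun x => -ext Ω U x)
    {p : L2V Ω × L2M Ω} (hpW : p ∈ graphW Ω) :
    -⟪tensL p.1, G⟫_ℝ ≤ 2 * (κ / Real.log 2 ^ 2) * ‖p.2‖ ^ 2 + 5 * B * ‖p.1‖ ^ 2 := by
  have key := graphW_le (fun p => -⟪tensL p.1, G⟫_ℝ - 2 * (κ / Real.log 2 ^ 2) * ‖p.2‖ ^ 2
    - 5 * B * ‖p.1‖ ^ 2) (form_cont hΩ G _ _) (fun q hq => ?_) hpW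
  · linarith
  have hqW := preW_le hq
  obtain ⟨φ, h1, h2, h3⟩ := hq
  have t1 := int_f1 hΩ h1 hqW h2 hU
  have t2 := int_f2 hΩ h1.smooth h1.compact hU
  have t3 := testB (ext_integrable hΩ hb U) hκ hp h1 (by simp_rw [f2_sum]; exact t2)
  simp_rw [f1_sum] at t3
  rw [t1, ← norm_test1 h1 h2, ← norm_test2 h1 h3] at t3
  linarith

end Pool.Agent.TH340.FF
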