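import Pool.Agent.TH340.FF.LH

/-!
Application to Leray-Hopf solutions in bounded domains: the main statement.
-/

set_option autoImplicit false

open MeasureTheory Set Filter Topology
open scoped InnerProductSpace ENNReal ContDiff

namespace Pool.Agent.TH340.FF

open H772R2.NS.Pub Pool.Agent.W795.TQ
open Pool.Agent.W795.ES (stretch)

theorem grad_eq {Ω : Set H772R2.NS.E3} (hΩ : IsOpen Ω) {v : H772R2.NS.L2V Ω}
    {z z' : H772R2.NS.L2M Ω} (h : (v, z) ∈ H772R2.NS.graphW Ω)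
    (h' : (v, z') ∈ H772R2.NS.graphW Ω) : z = z' := by
  have h4 := (H772R2.NS.graphW Ω).sub_mem h h'
  rw [Prod.mk_sub_mk, sub_self] at h4
  exact sub_eq_zero.mp (H772R2.NS.graphW_uniq hΩ _ h4)

theorem stretch_tens {Ω : Set R3} (hΩ : MeasurableSet (show Set H772R2.NS.E3 from Ω)) (G : L2 Ω Mat)
    {p : L2 Ω R3 × L2 Ω Mat} (hp : p ∈ H1graph Ω) :
    stretch G p.1 = ⟪(H772R2.NS.tensL (Ω := (show Set H772R2.NS.E3 from Ω)) p.1
      : H772R2.NS.L2M (show Set H772R2.NS.E3 from Ω)), G⟫_ℝ :=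
  Pool.Agent.W795.ES.stretch_eq (Ω := (show Set H772R2.NS.E3 from Ω)) hΩ G (mem_pub.mpr hp)

/-- slow pairs, public form -/
theorem pub_slow {Ω : Set R3} (hΩ : IsOpen Ω) (hb : Bornology.IsBounded Ω) {c ν β : ℝ}
    (hc : 0 ≤ c) (hν : 0 < ν) {U : L2 Ω R3} {G : L2 Ω Mat} (hU : (U, G) ∈ H1graph Ω)
    (hs : SlowPairs c ν β U) {p : L2 Ω R3 × L2 Ω Mat} (hp : p ∈ H1graph Ω) :
    -stretch G p.1 ≤ c / (2 * Real.log 2 ^ 2) * ν * ‖p.2‖ ^ 2 + 5 / 2 * β * ‖p.1‖ ^ 2 := by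
  have hm : MeasurableSet (show Set H772R2.NS.E3 from Ω) :=
    IsOpen.measurableSet (α := H772R2.NS.E3) hΩ
  rw [stretch_tens hm G hp]
  exact slow_form (Ω := (show Set H772R2.NS.E3 from Ω)) hm hb hc hν (mem_pub.mpr hU) hs
    (mem_pub.mpr hp)

/-- the gradient is bounded before a time up to which the solution is strong -/
theorem grad_bdd {Ω : Set R3} (hΩ : IsOpen Ω) {ν s : ℝ} {F : ℝ → L2 Ω Mat}
    {u u' : ℝ → L2 Ω R3} {G G1 G' : ℝ → L2 Ω Mat} (h : IsStrong Ω ν s F u u' G1 G')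
    (hG : ∀ᵐ t ∂(volume.restrict (Ioc 0 s)), (u t, G t) ∈ H1graph Ω) :
    ∃ M : ℝ, ∀ᵐ t ∂(volume.restrict (Ioc 0 s)), ‖G t‖ ≤ M := by
  have hc : ContinuousOn (fun t => (G1 t : H772R2.NS.L2M (show Set H772R2.NS.E3 from Ω)))
      (Icc 0 s) :=
    H772R2.NSR.prim_cont (Y := H772R2.NS.L2M (show Set H772R2.NS.E3 from Ω)) h.hG.memLp h.hG.prim
  obtain ⟨M, hM⟩ := isCompact_Icc.exists_bound_of_continuousOn hc
  refine ⟨M, ?_⟩
  filter_upwards [hG, ae_restrict_mem measurableSet_Ioc] with t h1 ht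
  have h2 := h.grad t ⟨ht.1.le, ht.2⟩
  have h3 : G t = G1 t := grad_eq (Ω := (show Set H772R2.NS.E3 from Ω)) hΩ (mem_pub.mpr h1)
    (mem_pub.mpr h2)
  rw [h3]
  exact hM t ⟨ht.1.le, ht.2⟩

theorem main (Ω : Set R3) (hΩ : IsOpen Ω) (hb : Bornology.IsBounded Ω) (ν T : ℝ) (hν : 0 < ν)
    (hT : 0 < T) (F F' : ℝ → L2 Ω Mat) (hF : IsH1 T F F')
    (u : ℝ → L2 Ω R3) (G : ℝ → L2 Ω Mat) (L : IsLerayHopf Ω ν T F u G)
    (z0 : L2 Ω Mat) (h0 : (u 0, z0) ∈ H1graph Ω)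
    (hg : ∃ g : L2 Ω R3, ∀ φ, IsTest Ω φ → rhs ν (u 0) z0 (F 0) φ = ∫ x in Ω, ⟪g.fn x, φ x⟫_ℝ) :
    (∃ u' G1 G', IsStrong Ω ν T F u u' G1 G') ∨
    ∃ τ ∈ Ioc 0 T, (∀ t ∈ Ioo 0 τ, ∃ u' G1 G', IsStrong Ω ν t F u u' G1 G') ∧
      ∀ c : ℝ, 0 ≤ c → c < 2 * Real.log 2 ^ 2 → ∀ s ∈ Ico 0 τ, ∃ M : ℝ, ∀ β : ℝ → ℝ,
        (∀ t, 0 ≤ β t) → (∀ t ∈ Ioo s τ, IntervalIntegrable β volume s t) →
        (∀ᵐ t ∂(volume.restrict (Ioo s τ)), SlowPairs c ν (β t) (u t)) →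
        ∀ t0 < τ, ∃ t ∈ Ioo t0 τ, s < t ∧
          3 / 10 * Real.log (1 / (τ - t)) - M ≤ ∫ r in s..t, β r := by
  rcases Pool.Agent.Results.MP_fd8964_an.EnergyStability.result Ω hΩ hb ν T hν hT F F' hF u G L
    z0 h0 hg with h1 | ⟨τ, hτ, h1, h2⟩
  · exact Or.inl h1
  refine Or.inr ⟨τ, hτ, h1, fun c hc hc2 s hs => ?_⟩
  have hL : 0 < Real.log 2 := Real.log_pos (by norm_num)
  set θ := c / (2 * Real.log 2 ^ 2) with hθ
  have hθ0 : 0 ≤ θ := by positivity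
  have hθ1 : θ < 1 := by rw [hθ, div_lt_one (by positivity)]; exact hc2
  set δ := (1 - θ) / 2 with hδ
  have hδ0 : 0 < δ := by rw [hδ]; linarith
  have hm : MeasurableSet (show Set H772R2.NS.E3 from Ω) :=
    IsOpen.measurableSet (α := H772R2.NS.E3) hΩ
  have hgT : ∀ᵐ t ∂(volume.restrict (Ioc 0 τ)), (u t, G t) ∈ H1graph Ω := by
    have := L.grad
    exact ae_mono (Measure.restrict_mono (Ioc_subset_Ioc_right hτ.2) le_rfl) this
  -- the bound before the time `s`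
  obtain ⟨Cs, hCs0, hCs⟩ : ∃ C : ℝ, 0 ≤ C ∧ ∀ᵐ t ∂(volume.restrict (Ioc 0 s)), ∀ p ∈ H1graph Ω,
      -stretch (G t) p.1 ≤ (1 - δ) * ν * ‖p.2‖ ^ 2 + C * ‖p.1‖ ^ 2 := by
    rcases eq_or_lt_of_le hs.1 with h3 | h3
    · refine ⟨0, le_rfl, ?_⟩
      rw [← h3]
      simp
    · obtain ⟨u', G1, G', hst⟩ := h1 s ⟨h3, hs.2⟩
      obtain ⟨M₁, hM₁⟩ := grad_bdd hΩ hst
        (ae_mono (Measure.restrict_mono (Ioc_subset_Ioc_right hs.2.le) le_rfl) hgT)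
      obtain ⟨C, hC, hC2⟩ := grad_form (Ω := (show Set H772R2.NS.E3 from Ω)) hm (M := M₁)
        (ε := (1 - δ) * ν) (by
          have : 0 < 1 - δ := by rw [hδ]; linarith
          positivity)
      refine ⟨C, hC, ?_⟩
      filter_upwards [hM₁] with t ht p hp
      rw [stretch_tens hm (G t) hp]
      exact hC2 (G t) ht p (mem_pub.mpr hp)
  obtain ⟨Mc, hMc⟩ := h2 0 (fun j => j.elim0) (fun j => j.elim0) δ hδ0 s hs
  refine ⟨2 / 5 * Mc, fun β hβ0 hβi hyp t0 ht0 => ?_⟩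
  set Λ : ℝ → ℝ := fun t => if t ≤ s then Cs else 5 / 2 * β t with hΛ
  have hΛ0 : ∀ t, 0 ≤ Λ t := fun t => by
    simp only [hΛ]
    split_ifs
    · exact hCs0
    · have := hβ0 t
      positivity
  have hΛs : ∀ t, s ≤ t → EqOn (fun t => 5 / 2 * β t) Λ (Ioc s t) := fun t _ r hr => by
    simp only [hΛ]
    rw [if_neg (not_le.2 hr.1)]
  have hΛi : ∀ t ∈ Ioo 0 τ, IntervalIntegrable Λ volume 0 t := by
    intro t ht
    have i1 : ∀ a b, a ≤ b → b ≤ s → IntervalIntegrable Λ volume a b := fun a b hab hb => by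
      have : IntervalIntegrable (fun _ : ℝ => Cs) volume a b := intervalIntegrable_const
      refine this.congr fun r hr => ?_
      rw [uIoc_of_le hab] at hr
      simp only [hΛ]
      rw [if_pos (hr.2.trans hb)]
    rcases le_or_gt t s with h3 | h3
    · exact i1 0 t ht.1.le h3
    · refine (i1 0 s hs.1 le_rfl).trans ?_
      refine ((hβi t ⟨h3, ht.2⟩).const_mul (5 / 2)).congr fun r hr => ?_
      rw [uIoc_of_le h3.le] at hr
      exact hΛs t h3.le hr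
  obtain ⟨t, ht, hst, hlog⟩ := hMc Λ hΛ0 hΛi (by
    have a1 : ∀ᵐ t ∂(volume : Measure ℝ), t ∈ Ioc 0 s → ∀ p ∈ H1graph Ω,
        -stretch (G t) p.1 ≤ (1 - δ) * ν * ‖p.2‖ ^ 2 + Cs * ‖p.1‖ ^ 2 :=
      (ae_restrict_iff' measurableSet_Ioc).1 hCs
    have a2 : ∀ᵐ t ∂(volume : Measure ℝ), t ∈ Ioo s τ → SlowPairs c ν (β t) (u t) :=
      (ae_restrict_iff' measurableSet_Ioo).1 hyp
    have a3 : ∀ᵐ t ∂(volume : Measure ℝ), t ≠ τ := by simp [ae_iff, measure_singleton]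
    have a4 : ∀ᵐ t ∂(volume : Measure ℝ), t ∈ Ioc 0 τ → (u t, G t) ∈ H1graph Ω :=
      (ae_restrict_iff' measurableSet_Ioc).1 hgT
    rw [ae_restrict_iff' measurableSet_Ioc]
    filter_upwards [a1, a2, a3, a4] with t b1 b2 b3 b4 ht p hp _
    by_cases hts : t ≤ s
    · have e1 : Λ t = Cs := by simp only [hΛ]; rw [if_pos hts]
      rw [e1]
      exact b1 ⟨ht.1, hts⟩ p hp
    · have e1 : Λ t = 5 / 2 * β t := by simp only [hΛ]; rw [if_neg hts]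
      rw [e1]
      have h4 := pub_slow hΩ hb hc hν (b4 ht)
        (b2 ⟨not_le.1 hts, lt_of_le_of_ne ht.2 b3⟩) hp
      refine h4.trans ?_
      have h5 : θ ≤ 1 - δ := by rw [hδ]; linarith
      have h6 : θ * ν * ‖p.2‖ ^ 2 ≤ (1 - δ) * ν * ‖p.2‖ ^ 2 := by gcongr
      rw [hθ] at h6
      linarith) t0 ht0
  refine ⟨t, ht, hst, ?_⟩
  have e2 : ∫ r in s..t, Λ r = 5 / 2 * ∫ r in s..t, β r := by
    rw [← intervalIntegral.integral_const_mul]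
    refine intervalIntegral.integral_congr_ae ?_
    refine Eventually.of_forall fun r hr => ?_
    rw [uIoc_of_le hst.le] at hr
    exact (hΛs t hst.le hr).symm
  rw [e2] at hlog
  linarith

end Pool.Agent.TH340.FF
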