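import Pool.Agent.TH340.FF.LH2

/-!
The explicit form of the criterion, at the parabolic scale.
-/

set_option autoImplicit false

open MeasureTheory Set Filter Topology
open scoped InnerProductSpace ENNReal ContDiff

namespace Pool.Agent.TH340.FF

open H772R2.NS.Pub Pool.Agent.W795.TQ

theorem explicit {Ω : Set R3} {ν τ c : ℝ} (hν : 0 < ν) (hτ : 0 < τ) (hc : 0 ≤ c)
    {u : ℝ → L2 Ω R3}
    (H : ∀ s ∈ Ico 0 τ, ∃ M : ℝ, ∀ β : ℝ → ℝ,
        (∀ t, 0 ≤ β t) → (∀ t ∈ Ioo s τ, IntervalIntegrable β volume s t) →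
        (∀ᵐ t ∂(volume.restrict (Ioo s τ)), SlowPairs c ν (β t) (u t)) →
        ∀ t0 < τ, ∃ t ∈ Ioo t0 τ, s < t ∧
          3 / 10 * Real.log (1 / (τ - t)) - M ≤ ∫ r in s..t, β r)
    {b k t1 : ℝ} (hb : 0 ≤ b) (hk : 0 < k) (hbk : b + 4 * c / k ^ 2 < 3 / 10) (ht1 : t1 < τ)
    (hyp : ∀ᵐ t ∂(volume.restrict (Ioo t1 τ)),
      Approach (c * ν) (b / (τ - t)) (k * Real.sqrt (ν * (τ - t))) (u t) ∨
      Separate (c * ν / 4) (b / (2 * (τ - t))) (k * Real.sqrt (ν * (τ - t))) (u t)) : False := by
  set γ := b + 4 * c / k ^ 2 with hγ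
  have hγ0 : 0 ≤ γ := by positivity
  set s := max t1 0 with hs
  have hsτ : s < τ := max_lt ht1 hτ
  have hs0 : 0 ≤ s := le_max_right _ _
  obtain ⟨M, hM⟩ := H s ⟨hs0, hsτ⟩
  set β : ℝ → ℝ := fun t => γ / |τ - t| with hβ
  have hβc : ∀ t ∈ Ioo s τ, ContinuousOn β (uIcc s t) := by
    intro t ht
    rw [uIcc_of_le ht.1.le]
    refine continuousOn_const.div (continuous_const.sub continuous_id).abs.continuousOn
      fun r hr => ?_
    have : 0 < τ - r := by linarith [hr.2, ht.2]
    exact abs_ne_zero.2 this.ne'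
  have h1 := hM β (fun t => by simp only [hβ]; positivity)
    (fun t ht => (hβc t ht).intervalIntegrable) (by
      have h2 : ∀ᵐ t ∂(volume.restrict (Ioo s τ)),
          Approach (c * ν) (b / (τ - t)) (k * Real.sqrt (ν * (τ - t))) (u t) ∨
          Separate (c * ν / 4) (b / (2 * (τ - t))) (k * Real.sqrt (ν * (τ - t))) (u t) :=
        ae_mono (Measure.restrict_mono (Ioo_subset_Ioo_left (le_max_left _ _)) le_rfl) hyp
      filter_upwards [h2, ae_restrict_mem measurableSet_Ioo] with t ht htI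
      have hp : 0 < τ - t := by linarith [htI.2]
      refine ⟨b / (τ - t), k * Real.sqrt (ν * (τ - t)), by positivity, by positivity, ?_, ?_⟩
      · simp only [hβ]
        rw [abs_of_pos hp, mul_pow, Real.sq_sqrt (by positivity), hγ]
        refine le_of_eq ?_
        field_simp
      · rcases ht with ht | ht
        · exact Or.inl ht
        · right
          have : b / (τ - t) / 2 = b / (2 * (τ - t)) := by field_simp
          rw [this]
          exact ht)
  -- the integral of `β`
  have hint : ∀ t ∈ Ioo s τ, ∫ r in s..t, β r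
      = γ * (Real.log (1 / (τ - t)) - Real.log (1 / (τ - s))) := by
    intro t ht
    have hder : ∀ r ∈ uIcc s t, HasDerivAt (fun r => γ * Real.log (1 / (τ - r))) (β r) r := by
      intro r hr
      rw [uIcc_of_le ht.1.le] at hr
      have hp : 0 < τ - r := by linarith [hr.2, ht.2]
      have e1 : (fun r => γ * Real.log (1 / (τ - r))) = fun r => γ * -Real.log (τ - r) := by
        funext r
        rw [one_div, Real.log_inv]
      rw [e1]
      refine (((((hasDerivAt_id r).const_sub τ).log hp.ne').neg).const_mul γ).congr_deriv ?_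
      simp only [hβ]
      rw [abs_of_pos hp]
      simp only [id]
      ring
    rw [intervalIntegral.integral_eq_sub_of_hasDerivAt hder (hβc t ht).intervalIntegrable]
    ring
  -- a time at which the logarithm is large
  set A := (|M| + γ * |Real.log (1 / (τ - s))| + 1) / (3 / 10 - γ) with hA
  have hgp : 0 < 3 / 10 - γ := by linarith
  obtain ⟨t, ht, hst, hle⟩ := h1 (τ - Real.exp (-A)) (by linarith [Real.exp_pos (-A)])
  rw [hint t ⟨hst, ht.2⟩] at hle
  have hp : 0 < τ - t := by linarith [ht.2]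
  have h3 : A < Real.log (1 / (τ - t)) := by
    rw [one_div, Real.log_inv, lt_neg, Real.log_lt_iff_lt_exp hp]
    linarith [ht.1]
  have h4 : (3 / 10 - γ) * A = |M| + γ * |Real.log (1 / (τ - s))| + 1 := by
    rw [hA, mul_comm, div_mul_cancel₀ _ hgp.ne']
  have h5 : (3 / 10 - γ) * A < (3 / 10 - γ) * Real.log (1 / (τ - t)) :=
    mul_lt_mul_of_pos_left h3 hgp
  have h6 := le_abs_self M
  have h7 : -(γ * Real.log (1 / (τ - s))) ≤ γ * |Real.log (1 / (τ - s))| := by
    rw [← mul_neg]
    exact mul_le_mul_of_nonneg_left (neg_le_abs _) hγ0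
  nlinarith

end Pool.Agent.TH340.FF
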