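import Pool.Agent.TH340.FF.Slice

/-!
The inequality in a fixed direction for integrable fields with a one-sided bound for almost all
pairs of points.
-/

set_option autoImplicit false

open MeasureTheory Set Filter Topology
open scoped InnerProductSpace ContDiff

namespace Pool.Agent.TH340.FF

variable {E : Type*} [NormedAddCommGroup E] [InnerProductSpace ℝ E] [FiniteDimensional ℝ E]
  [MeasurableSpace E] [BorelSpace E]

/-- One-sided bound for almost all pairs of points at distance less than `ρ`. -/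
def LocBd (κ B r : ℝ) (W : E → E) : Prop :=
  ∀ᵐ z : E × E ∂((volume : Measure E).prod (volume : Measure E)), ‖z.1 - z.2‖ < r →
    -κ - B * ‖z.1 - z.2‖ ^ 2 ≤ ⟪z.1 - z.2, W z.1 - W z.2⟫_ℝ

/-- The one-sided bound for pairs at distance less than `r`, with the constant `B + 4 κ / r ^ 2`
for the pairs at larger distances included in `B'`. -/
def PairBd (κ B' : ℝ) (W : E → E) : Prop :=
  ∃ B r : ℝ, 0 ≤ B ∧ 0 < r ∧ B + 4 * κ / r ^ 2 ≤ B' ∧ LocBd κ B r W

theorem LocBd.ae_ae {κ B r : ℝ} {W : E → E} (h : LocBd κ B r W) :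
    ∀ᵐ d : E, ‖d‖ < r → ∀ᵐ y : E, -κ - B * ‖d‖ ^ 2 ≤ ⟪d, W (y + d) - W y⟫_ℝ := by
  have hS : MeasurePreserving (fun z : E × E => (z.1, z.1 + z.2))
      ((volume : Measure E).prod (volume : Measure E))
      ((volume : Measure E).prod (volume : Measure E)) := by
    refine MeasurePreserving.skew_product (g := fun (x : E) (d : E) => x + d)
      (MeasurePreserving.id _) (measurable_fst.add measurable_snd)
      (Eventually.of_forall fun x => map_add_left_eq_self _ _)
  have hT := hS.comp (Measure.measurePreserving_swap (μ := (volume : Measure E))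
    (ν := (volume : Measure E)))
  have h1 := hT.quasiMeasurePreserving.ae h
  have h2 := Measure.ae_ae_of_ae_prod h1
  filter_upwards [h2] with d hd hdr
  filter_upwards [hd] with y hy
  simp only [Function.comp, Prod.swap] at hy
  have e1 : y - (y + d) = -d := by abel
  rw [e1, norm_neg, inner_neg_left, ← inner_neg_right, neg_sub] at hy
  exact hy hdr

/-- the mollified field -/
noncomputable def mo (ρ : E → ℝ) (W : E → E) (x : E) : E := ∫ t, ρ t • W (x - t)

theorem mo_eq (ρ : E → ℝ) (W : E → E) :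
    mo ρ W = MeasureTheory.convolution ρ W (ContinuousLinearMap.lsmul ℝ ℝ) volume := rfl

theorem mo_int {ρ : E → ℝ} (hρ : Continuous ρ) (hρc : HasCompactSupport ρ) {W : E → E}
    (hW : Integrable W) (x : E) : Integrable fun t => ρ t • W (x - t) :=
  (hρc.convolutionExists_left (L := ContinuousLinearMap.lsmul ℝ ℝ) hρ hW.locallyIntegrable) x

theorem mo_contDiff {ρ : E → ℝ} (hρ : ContDiff ℝ 1 ρ) (hρc : HasCompactSupport ρ) {W : E → E}
    (hW : Integrable W) : ContDiff ℝ 1 (mo ρ W) := by
  rw [mo_eq]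
  exact hρc.contDiff_convolution_left (ContinuousLinearMap.lsmul ℝ ℝ) (by exact_mod_cast hρ)
    hW.locallyIntegrable

theorem mo_pair {κ B r : ℝ} {ρ : E → ℝ} (hρ : ContDiff ℝ 1 ρ) (hρc : HasCompactSupport ρ)
    (hρ0 : ∀ t, 0 ≤ ρ t) (hρ1 : ∫ t, ρ t = 1) {W : E → E} (hW : Integrable W)
    (hp : LocBd κ B r W) (x d : E) (hd : ‖d‖ < r) :
    -κ - B * ‖d‖ ^ 2 ≤ ⟪d, mo ρ W (x + d) - mo ρ W x⟫_ℝ := by
  have hc : Continuous (mo ρ W) := (mo_contDiff hρ hρc hW).continuous
  have hρi : Integrable ρ := hρ.continuous.integrable_of_hasCompactSupport hρc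
  by_contra hcon
  push Not at hcon
  have hop : IsOpen {d : E | ⟪d, mo ρ W (x + d) - mo ρ W x⟫_ℝ < -κ - B * ‖d‖ ^ 2 ∧ ‖d‖ < r} := by
    have o1 : IsOpen {d : E | ⟪d, mo ρ W (x + d) - mo ρ W x⟫_ℝ < -κ - B * ‖d‖ ^ 2} :=
      isOpen_lt (continuous_id.inner ((hc.comp (continuous_const.add continuous_id)).sub
        continuous_const)) (continuous_const.sub (continuous_const.mul (continuous_norm.pow 2)))
    have o2 : IsOpen {d : E | ‖d‖ < r} := isOpen_lt continuous_norm continuous_const
    exact o1.inter o2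
  have hde : Dense {d : E | ‖d‖ < r → ∀ᵐ y : E, -κ - B * ‖d‖ ^ 2 ≤ ⟪d, W (y + d) - W y⟫_ℝ} :=
    Measure.dense_of_ae (μ := (volume : Measure E)) hp.ae_ae
  obtain ⟨d', ⟨hd1, hd2⟩, hd3⟩ := hde.inter_open_nonempty _ hop ⟨d, hcon, hd⟩
  have h0 := hd3 hd2
  refine absurd hd1 (not_lt.2 ?_)
  have h1 : ∀ᵐ t : E, -κ - B * ‖d'‖ ^ 2 ≤ ⟪d', W (x - t + d') - W (x - t)⟫_ℝ :=
    (Measure.measurePreserving_sub_left (volume : Measure E) x).quasiMeasurePreserving.ae h0
  have i1 := mo_int hρ.continuous hρc hW (x + d')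
  have i2 := mo_int hρ.continuous hρc hW x
  have e1 : ⟪d', mo ρ W (x + d') - mo ρ W x⟫_ℝ
      = ∫ t, ρ t * ⟪d', W (x - t + d') - W (x - t)⟫_ℝ := by
    have i12 : Integrable fun t => ρ t • W (x + d' - t) - ρ t • W (x - t) := i1.sub i2
    unfold mo
    rw [← integral_sub i1 i2, ← integral_inner i12]
    refine integral_congr_ae (Eventually.of_forall fun t => ?_)
    simp only
    rw [← smul_sub, inner_smul_right]
    congr 4
    abel
  have i3 : Integrable fun t => ρ t * ⟪d', W (x - t + d') - W (x - t)⟫_ℝ := by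
    refine ((i1.sub i2).const_inner d').congr (Eventually.of_forall fun t => ?_)
    simp only [Pi.sub_apply]
    rw [← smul_sub, inner_smul_right]
    congr 4
    abel
  rw [e1]
  have e2 : -κ - B * ‖d'‖ ^ 2 = ∫ t, ρ t * (-κ - B * ‖d'‖ ^ 2) := by
    rw [integral_mul_const, hρ1, one_mul]
  rw [e2]
  refine integral_mono_ae (hρi.mul_const _) i3 ?_
  filter_upwards [h1] with t ht
  exact mul_le_mul_of_nonneg_left ht (hρ0 t)

/-- from short to long segments -/
theorem chain {h : ℝ → ℝ} {κ B r : ℝ} (hκ : 0 ≤ κ) (hr : 0 < r)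
    (H : ∀ a s, 0 < s → s < r → h a - h (a + s) ≤ κ / s + B * s) (a s : ℝ) (hs : 0 < s) :
    h a - h (a + s) ≤ κ / s + (B + 4 * κ / r ^ 2) * s := by
  rcases lt_or_ge s r with h1 | h1
  · refine (H a s hs h1).trans ?_
    have : 0 ≤ 4 * κ / r ^ 2 * s := by positivity
    linarith
  · -- the number of pieces
    set n : ℕ := ⌊s / r⌋₊ + 1 with hn
    have hn1 : s / r < n := by
      rw [hn]
      push_cast
      exact Nat.lt_floor_add_one _
    have hsr : 1 ≤ s / r := (one_le_div hr).2 h1
    have hn2 : (n : ℝ) ≤ 2 * (s / r) := by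
      rw [hn]
      push_cast
      have := Nat.floor_le (show 0 ≤ s / r by positivity)
      linarith
    have hn0 : (0 : ℝ) < n := by linarith
    set l := s / n with hl
    have hl0 : 0 < l := by positivity
    have hlr : l < r := by
      rw [hl, div_lt_iff₀ hn0]
      rw [div_lt_iff₀ hr] at hn1
      linarith
    have key : ∀ m : ℕ, h a - h (a + m * l) ≤ m * (κ / l + B * l) := by
      intro m
      induction m with
      | zero => simp
      | succ m ih =>
        have h2 := H (a + m * l) l hl0 hlr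
        have e1 : a + m * l + l = a + ((m + 1 : ℕ) : ℝ) * l := by push_cast; ring
        rw [e1] at h2
        have e2 : ((m + 1 : ℕ) : ℝ) * (κ / l + B * l) = m * (κ / l + B * l) + (κ / l + B * l) := by
          push_cast; ring
        rw [e2]
        linarith
    have h3 := key n
    have e3 : (n : ℝ) * l = s := by rw [hl]; field_simp
    rw [e3] at h3
    refine h3.trans ?_
    have e4 : (n : ℝ) * (κ / l + B * l) = κ * (n : ℝ) ^ 2 / s + B * s := by
      rw [mul_add, hl]
      field_simp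
    rw [e4]
    have h4 : κ * (n : ℝ) ^ 2 / s ≤ 4 * κ / r ^ 2 * s := by
      rw [div_le_iff₀ hs]
      have h5 : (n : ℝ) ^ 2 ≤ (2 * (s / r)) ^ 2 := pow_le_pow_left₀ hn0.le hn2 2
      calc κ * (n : ℝ) ^ 2 ≤ κ * (2 * (s / r)) ^ 2 := by gcongr
        _ = 4 * κ / r ^ 2 * s * s := by field_simp; ring
    have h6 : 0 ≤ κ / s := by positivity
    linarith

/-- The inequality in the direction `e`. -/
theorem dir_ae {e : E} (he : ⟪e, e⟫_ℝ = 1) {W : E → E} (hW : Integrable W) {κ B : ℝ} (hκ : 0 ≤ κ)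
    (hp : PairBd κ B W) {F : E → ℝ} (hF : ContDiff ℝ 1 F) (hFc : HasCompactSupport F) :
    ∫ x, ⟪e, W x⟫_ℝ * (2 * F x * fderiv ℝ F x e)
      ≤ κ / Real.log 2 ^ 2 * (∫ x, (fderiv ℝ F x e) ^ 2) + B * ∫ x, F x ^ 2 := by
  obtain ⟨B₁, r₁, hB₁, hr₁, hle, hp⟩ := hp
  set Rr := κ / Real.log 2 ^ 2 * (∫ x, (fderiv ℝ F x e) ^ 2) + B * ∫ x, F x ^ 2 with hRr
  set ξ : E → ℝ := fun x => 2 * F x * fderiv ℝ F x e with hξ
  have hdF : Continuous fun x => fderiv ℝ F x e :=
    (hF.continuous_fderiv (by norm_num)).clm_apply continuous_const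
  have hξc : Continuous ξ := (continuous_const.mul hF.continuous).mul hdF
  have hξs : HasCompactSupport ξ := by
    have h0 : HasCompactSupport fun x => 2 * F x := hFc.mul_left
    exact h0.mul_right
  obtain ⟨C, hC⟩ := hξs.exists_bound_of_continuous hξc
  have hWe : Integrable fun x => ⟪e, W x⟫_ℝ := hW.const_inner e
  set Φ : E → ℝ := fun t => ∫ x, ⟪e, W x⟫_ℝ * ξ (x + t) with hΦ
  have hΦc : Continuous Φ := by
    refine continuous_of_dominated (bound := fun x => ‖⟪e, W x⟫_ℝ‖ * C) (fun t => ?_)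
      (fun t => Eventually.of_forall fun x => ?_) (hWe.norm.mul_const C)
      (Eventually.of_forall fun x => ?_)
    · exact hWe.aestronglyMeasurable.mul
        (hξc.comp (continuous_id.add continuous_const)).aestronglyMeasurable
    · rw [norm_mul]
      exact mul_le_mul_of_nonneg_left (hC _) (norm_nonneg _)
    · exact continuous_const.mul (hξc.comp (continuous_const.add continuous_id))
  have hΦ0 : Φ 0 = ∫ x, ⟪e, W x⟫_ℝ * ξ x := by simp [hΦ]
  rw [← hΦ0]
  by_contra hcon
  push Not at hcon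
  obtain ⟨c, hc1, hc2⟩ := exists_between hcon
  obtain ⟨δ, hδ, hball⟩ : ∃ δ > 0, ∀ t ∈ Metric.ball (0 : E) δ, c < Φ t := by
    have := hΦc.continuousAt (x := (0 : E)) |>.eventually (lt_mem_nhds hc2)
    obtain ⟨δ, hδ, h⟩ := Metric.eventually_nhds_iff_ball.1 this
    exact ⟨δ, hδ, h⟩
  let b : ContDiffBump (0 : E) := ⟨δ / 2, δ, by positivity, by linarith⟩
  set ρ : E → ℝ := b.normed volume with hρ
  have hρd : ContDiff ℝ 1 ρ := b.contDiff_normed (n := 1)
  have hρc : HasCompactSupport ρ := b.hasCompactSupport_normed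
  have hρ0 : ∀ t, 0 ≤ ρ t := b.nonneg_normed
  have hρ1 : ∫ t, ρ t = 1 := b.integral_normed
  have hρi : Integrable ρ := b.integrable_normed
  have hρs : ∀ t, ρ t ≠ 0 → t ∈ Metric.ball (0 : E) δ := fun t ht => by
    have : t ∈ Function.support ρ := ht
    rw [hρ, b.support_normed_eq] at this
    exact this
  have hmc := mo_contDiff hρd hρc hW
  set h : E → ℝ := fun x => ⟪e, mo ρ W x⟫_ℝ with hh
  have hhd : ContDiff ℝ 1 h := contDiff_const.inner ℝ hmc
  have hsm := dir_smooth he hhd hF hFc hκ (B := B) (fun x r hr => by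
    have hloc : ∀ a s : ℝ, 0 < s → s < r₁ → h (x + a • e) - h (x + (a + s) • e)
        ≤ κ / s + B₁ * s := by
      intro a s hs hsr
      have hne : ‖e‖ = 1 := by
        have h5 : ‖e‖ ^ 2 = 1 := by rw [← real_inner_self_eq_norm_sq, he]
        nlinarith [norm_nonneg e]
      have hns : ‖s • e‖ = s := by rw [norm_smul, hne, mul_one, Real.norm_of_nonneg hs.le]
      have h1 := mo_pair hρd hρc hρ0 hρ1 hW hp (x + a • e) (s • e) (by rw [hns]; exact hsr)
      rw [hns, inner_smul_left, inner_sub_right, add_assoc, ← add_smul] at h1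
      simp only [RCLike.conj_to_real] at h1
      rw [div_add' _ _ _ hs.ne', le_div_iff₀ hs]
      nlinarith
    have h2 := chain hκ hr₁ hloc 0 r hr
    simp only [zero_smul, add_zero, zero_add] at h2
    refine h2.trans ?_
    gcongr)
  rw [← hRr] at hsm
  -- integration by parts
  have hF2d : ∀ x, fderiv ℝ (fun x => F x ^ 2) x e = ξ x := by
    intro x
    have h3 := ((hF.differentiable (by norm_num)) x).hasFDerivAt.pow 2
    rw [h3.fderiv]
    simp [hξ]
  have hdh : Continuous fun x => fderiv ℝ h x e :=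
    (hhd.continuous_fderiv (by norm_num)).clm_apply continuous_const
  have hF2 : HasCompactSupport fun x => F x ^ 2 := hFc.comp_left (g := fun y : ℝ => y ^ 2) (by simp)
  have hbp : ∫ x, h x * ξ x = -∫ x, fderiv ℝ h x e * F x ^ 2 := by
    have h4 := integral_mul_fderiv_eq_neg_fderiv_mul_of_integrable (μ := (volume : Measure E))
      (f := h) (g := fun x => F x ^ 2) (v := e) ?_ ?_ ?_ (fun x _ =>
        (hhd.differentiable (by norm_num)) x) (fun x _ =>
        ((hF.differentiable (by norm_num)) x).pow 2)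
    · simp_rw [hF2d] at h4
      exact h4
    · exact (hdh.mul (hF.continuous.pow 2)).integrable_of_hasCompactSupport hF2.mul_left
    · simp_rw [hF2d]
      exact (hhd.continuous.mul hξc).integrable_of_hasCompactSupport hξs.mul_left
    · exact (hhd.continuous.mul (hF.continuous.pow 2)).integrable_of_hasCompactSupport
        hF2.mul_left
  -- Fubini
  have hfub : ∫ x, h x * ξ x = ∫ t, ρ t * Φ t := by
    have i0 : Integrable (fun z : E × E => ρ z.2 * ⟪e, W (z.1 - z.2)⟫_ℝ)
        ((volume : Measure E).prod (volume : Measure E)) :=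
      Integrable.convolution_integrand (L := ContinuousLinearMap.mul ℝ ℝ) hρi hWe
    have i1 : Integrable (fun z : E × E => ρ z.2 * ⟪e, W (z.1 - z.2)⟫_ℝ * ξ z.1)
        ((volume : Measure E).prod (volume : Measure E)) := by
      refine i0.mul_bdd (c := C) (hξc.comp continuous_fst).aestronglyMeasurable
        (Eventually.of_forall fun z => hC _)
    have e3 : ∫ x, h x * ξ x = ∫ x, ∫ t, ρ t * ⟪e, W (x - t)⟫_ℝ * ξ x := by
      refine integral_congr_ae (Eventually.of_forall fun x => ?_)
      simp only [hh]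
      rw [integral_mul_const]
      congr 1
      unfold mo
      rw [← integral_inner (mo_int hρd.continuous hρc hW x)]
      refine integral_congr_ae (Eventually.of_forall fun t => ?_)
      simp only
      rw [inner_smul_right]
    rw [e3, integral_integral_swap i1]
    refine integral_congr_ae (Eventually.of_forall fun t => ?_)
    show ∫ x, ρ t * ⟪e, W (x - t)⟫_ℝ * ξ x = ρ t * ∫ x, ⟪e, W x⟫_ℝ * ξ (x + t)
    rw [← integral_const_mul]
    rw [← integral_sub_right_eq_self (fun x => ρ t * (⟪e, W x⟫_ℝ * ξ (x + t))) t]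
    refine integral_congr_ae (Eventually.of_forall fun x => ?_)
    simp only [sub_add_cancel]
    ring
  have hlow : c ≤ ∫ t, ρ t * Φ t := by
    have e4 : c = ∫ t, ρ t * c := by rw [integral_mul_const, hρ1, one_mul]
    rw [e4]
    refine integral_mono (hρi.mul_const c) ?_ fun t => ?_
    · exact (hρd.continuous.mul hΦc).integrable_of_hasCompactSupport hρc.mul_right
    · show ρ t * c ≤ ρ t * Φ t
      by_cases h0 : ρ t = 0
      · rw [h0]; simp
      · exact mul_le_mul_of_nonneg_left (hball t (hρs t h0)).le (hρ0 t)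
  rw [hfub] at hbp
  linarith

end Pool.Agent.TH340.FF
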