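import Mathlib

/-!
The square of a function as a superposition of indicator functions of intervals, in the first in,
first out order, and the resulting inequality for functions on the line with a one-sided bound for
differences.
-/

set_option autoImplicit false

open MeasureTheory Set Filter Topology

namespace Pool.Agent.TH340.FF

/-- Data: `f` is `C¹` and vanishes outside `[-R, R]`. -/
structure Dat (f f' : ℝ → ℝ) (R : ℝ) : Prop where
  pos : 0 < R
  der : ∀ s, HasDerivAt f (f' s) s
  cont : Continuous f'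
  supp : ∀ s, R ≤ |s| → f s = 0

section

variable {f f' : ℝ → ℝ} {R : ℝ}

theorem Dat.contf (h : Dat f f' R) : Continuous f :=
  continuous_iff_continuousAt.2 fun s => (h.der s).continuousAt

theorem Dat.supp' (h : Dat f f' R) {s : ℝ} (hs : R < |s|) : f' s = 0 := by
  have h1 : f =ᶠ[𝓝 s] fun _ => 0 := by
    have : IsOpen {s : ℝ | R < |s|} := isOpen_lt continuous_const continuous_abs
    filter_upwards [this.mem_nhds hs] with y hy
    exact h.supp y (le_of_lt hy)
  exact (h.der s).unique ((hasDerivAt_const s (0 : ℝ)).congr_of_eventuallyEq h1)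

/-- positive and negative part of the derivative of `f ^ 2` -/
noncomputable def dp (f f' : ℝ → ℝ) (s : ℝ) : ℝ := max (2 * (f s * f' s)) 0
noncomputable def dn (f f' : ℝ → ℝ) (s : ℝ) : ℝ := max (-(2 * (f s * f' s))) 0

theorem Dat.cont_dp (h : Dat f f' R) : Continuous (dp f f') :=
  (continuous_const.mul (h.contf.mul h.cont)).max continuous_const

theorem Dat.cont_dn (h : Dat f f' R) : Continuous (dn f f') :=
  (continuous_const.mul (h.contf.mul h.cont)).neg.max continuous_const

theorem dp_nonneg (f f' : ℝ → ℝ) (s : ℝ) : 0 ≤ dp f f' s := le_max_right _ _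
theorem dn_nonneg (f f' : ℝ → ℝ) (s : ℝ) : 0 ≤ dn f f' s := le_max_right _ _

theorem dp_sub_dn (f f' : ℝ → ℝ) (s : ℝ) : dp f f' s - dn f f' s = 2 * (f s * f' s) := by
  unfold dp dn
  rcases le_total (2 * (f s * f' s)) 0 with h | h
  · rw [max_eq_right h, max_eq_left (by linarith)]; ring
  · rw [max_eq_left h, max_eq_right (by linarith)]; ring

theorem dp_add_dn (f f' : ℝ → ℝ) (s : ℝ) : dp f f' s + dn f f' s = 2 * (|f s| * |f' s|) := by
  unfold dp dn
  rw [← abs_mul]
  rcases le_total (f s * f' s) 0 with h | h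
  · rw [max_eq_right (by linarith), max_eq_left (by linarith), abs_of_nonpos h]; ring
  · rw [max_eq_left (by linarith), max_eq_right (by linarith), abs_of_nonneg h]; ring

/-- mass which has entered and left up to `s` -/
noncomputable def P (f f' : ℝ → ℝ) (R s : ℝ) : ℝ := ∫ τ in (-R)..s, dp f f' τ
noncomputable def N (f f' : ℝ → ℝ) (R s : ℝ) : ℝ := ∫ τ in (-R)..s, dn f f' τ

theorem Dat.derP (h : Dat f f' R) (s : ℝ) : HasDerivAt (P f f' R) (dp f f' s) s :=
  intervalIntegral.integral_hasDerivAt_right (h.cont_dp.intervalIntegrable _ _)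
    (h.cont_dp.stronglyMeasurableAtFilter _ _) h.cont_dp.continuousAt

theorem Dat.derN (h : Dat f f' R) (s : ℝ) : HasDerivAt (N f f' R) (dn f f' s) s :=
  intervalIntegral.integral_hasDerivAt_right (h.cont_dn.intervalIntegrable _ _)
    (h.cont_dn.stronglyMeasurableAtFilter _ _) h.cont_dn.continuousAt

theorem Dat.contP (h : Dat f f' R) : Continuous (P f f' R) :=
  continuous_iff_continuousAt.2 fun s => (h.derP s).continuousAt

theorem Dat.contN (h : Dat f f' R) : Continuous (N f f' R) :=
  continuous_iff_continuousAt.2 fun s => (h.derN s).continuousAt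

theorem Dat.monoP (h : Dat f f' R) : Monotone (P f f' R) :=
  monotone_of_hasDerivAt_nonneg h.derP fun s => dp_nonneg _ _ s

theorem Dat.monoN (h : Dat f f' R) : Monotone (N f f' R) :=
  monotone_of_hasDerivAt_nonneg h.derN fun s => dn_nonneg _ _ s

theorem P_left (f f' : ℝ → ℝ) (R : ℝ) : P f f' R (-R) = 0 := intervalIntegral.integral_same
theorem N_left (f f' : ℝ → ℝ) (R : ℝ) : N f f' R (-R) = 0 := intervalIntegral.integral_same

theorem Dat.sub_eq (h : Dat f f' R) (s : ℝ) : P f f' R s - N f f' R s = f s ^ 2 := by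
  have h1 : ∀ t, HasDerivAt (fun s => P f f' R s - N f f' R s - f s ^ 2) 0 t := by
    intro t
    refine (((h.derP t).sub (h.derN t)).sub ((h.der t).pow 2)).congr_deriv ?_
    rw [dp_sub_dn]
    simp
    ring
  have h2 := is_const_of_deriv_eq_zero (f := fun s => P f f' R s - N f f' R s - f s ^ 2)
    (fun t => (h1 t).differentiableAt) (fun t => (h1 t).deriv) s (-R)
  have h3 : f (-R) = 0 := h.supp _ (by rw [abs_neg, abs_of_pos h.pos])
  simp only [P_left, N_left, h3] at h2
  linarith

/-- the key inequality on an interval -/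
theorem Dat.key (h : Dat f f' R) {a b q : ℝ} (hab : a < b) (hPa : P f f' R a = q)
    (hNb : N f f' R b = q) (hI : ∀ s ∈ Ioo a b, N f f' R s < q ∧ q < P f f' R s)
    (hG : IntegrableOn (fun s => f' s ^ 2 / f s ^ 2) (Ioo a b)) :
    Real.log 2 ^ 2 ≤ (b - a) * ∫ s in Ioo a b, f' s ^ 2 / f s ^ 2 := by
  set J := ∫ s in Ioo a b, f' s ^ 2 / f s ^ 2 with hJ
  have hJ0 : 0 ≤ J := integral_nonneg fun s => by positivity
  have hm : ∀ s ∈ Ioo a b, 0 < f s ^ 2 := fun s hs => by
    rw [← h.sub_eq s]
    have := hI s hs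
    linarith
  -- it suffices to have the inequality up to a small error
  suffices hs : ∀ η : ℝ, 0 < η → Real.log 2 - η ≤ Real.sqrt ((b - a) * J) by
    have h1 : Real.log 2 ≤ Real.sqrt ((b - a) * J) :=
      le_of_forall_pos_sub_le fun η hη => by simpa using hs η hη
    have h2 : 0 ≤ Real.log 2 := Real.log_nonneg (by norm_num)
    have h3 : 0 ≤ (b - a) * J := mul_nonneg (by linarith) hJ0
    calc Real.log 2 ^ 2 ≤ Real.sqrt ((b - a) * J) ^ 2 := pow_le_pow_left₀ h2 h1 2
      _ = _ := Real.sq_sqrt h3
  intro η hη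
  -- the middle point
  set c := (a + b) / 2 with hc
  have hcI : c ∈ Ioo a b := ⟨by rw [hc]; linarith, by rw [hc]; linarith⟩
  set d₀ := f c ^ 2 with hd₀
  have hd₀p : 0 < d₀ := hm c hcI
  set δ := η * d₀ / 2 with hδ
  have hδp : 0 < δ := by positivity
  -- points near the ends
  obtain ⟨a', ha', hPa'⟩ : ∃ a' ∈ Ioo a c, P f f' R a' < q + δ := by
    have h1 : ∀ᶠ s in 𝓝[>] a, P f f' R s < q + δ := by
      have : Tendsto (P f f' R) (𝓝[>] a) (𝓝 (P f f' R a)) :=
        (h.contP.tendsto a).mono_left nhdsWithin_le_nhds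
      rw [hPa] at this
      exact this.eventually (gt_mem_nhds (by linarith))
    have h2 : ∀ᶠ s in 𝓝[>] a, s ∈ Ioo a c := Ioo_mem_nhdsGT hcI.1
    obtain ⟨s, hs1, hs2⟩ := (h1.and h2).exists
    exact ⟨s, hs2, hs1⟩
  obtain ⟨b', hb', hNb'⟩ : ∃ b' ∈ Ioo c b, q - δ < N f f' R b' := by
    have h1 : ∀ᶠ s in 𝓝[<] b, q - δ < N f f' R s := by
      have : Tendsto (N f f' R) (𝓝[<] b) (𝓝 (N f f' R b)) :=
        (h.contN.tendsto b).mono_left nhdsWithin_le_nhds
      rw [hNb] at this
      exact this.eventually (lt_mem_nhds (by linarith))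
    have h2 : ∀ᶠ s in 𝓝[<] b, s ∈ Ioo c b := Ioo_mem_nhdsLT hcI.2
    obtain ⟨s, hs1, hs2⟩ := (h1.and h2).exists
    exact ⟨s, hs2, hs1⟩
  have hab' : a' < b' := ha'.2.trans hb'.1
  have haI : a' ∈ Ioo a b := ⟨ha'.1, hab'.trans hb'.2⟩
  have hbI : b' ∈ Ioo a b := ⟨ha'.1.trans hab', hb'.2⟩
  have hsub : Icc a' b' ⊆ Ioo a b := fun s hs => ⟨ha'.1.trans_le hs.1, hs.2.trans_lt hb'.2⟩
  set D := P f f' R b' - N f f' R a' with hD
  have hma : 0 < f a' ^ 2 := hm a' haI
  have hmb : 0 < f b' ^ 2 := hm b' hbI
  have hDd : d₀ ≤ D := by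
    rw [hd₀, ← h.sub_eq c, hD]
    have h1 := h.monoP hb'.1.le
    have h2 := h.monoN ha'.2.le
    linarith
  have hDp : 0 < D := hd₀p.trans_le hDd
  have hsum : f a' ^ 2 + f b' ^ 2 ≤ D * (1 + η) := by
    rw [← h.sub_eq a', ← h.sub_eq b']
    have : P f f' R a' - N f f' R b' ≤ η * d₀ := by rw [hδ] at hPa' hNb'; linarith
    have h2 : η * d₀ ≤ η * D := by gcongr
    have h3 : D * (1 + η) = D + η * D := by ring
    rw [h3]
    rw [hD]
    rw [hD] at h2
    linarith
  -- the two logarithmic bounds
  set g : ℝ → ℝ := fun s => |f' s| / |f s| with hg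
  have hgc : ContinuousOn g (Icc a' b') := by
    refine h.cont.abs.continuousOn.div h.contf.abs.continuousOn fun s hs => ?_
    have h1 := hm s (hsub hs)
    have h2 : f s ≠ 0 := fun h0 => by rw [h0] at h1; simp at h1
    exact abs_ne_zero.2 h2
  have hfne : ∀ s ∈ Icc a' b', f s ≠ 0 := fun s hs h0 => by
    have h1 := hm s (hsub hs)
    rw [h0] at h1
    simp at h1
  have hgp : ∀ s ∈ Icc a' b', 2 * g s = dp f f' s / f s ^ 2 + dn f f' s / f s ^ 2 := by
    intro s hs
    rw [← add_div, dp_add_dn, hg]
    have h2 := hfne s hs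
    rw [← sq_abs (f s)]
    have h3 : |f s| ≠ 0 := abs_ne_zero.2 h2
    field_simp
  have i1 : IntervalIntegrable (fun s => dp f f' s / f s ^ 2) volume a' b' := by
    refine ContinuousOn.intervalIntegrable ?_
    rw [uIcc_of_le hab'.le]
    exact h.cont_dp.continuousOn.div (h.contf.pow 2).continuousOn fun s hs =>
      (hm s (hsub hs)).ne'
  have i2 : IntervalIntegrable (fun s => dn f f' s / f s ^ 2) volume a' b' := by
    refine ContinuousOn.intervalIntegrable ?_
    rw [uIcc_of_le hab'.le]
    exact h.cont_dn.continuousOn.div (h.contf.pow 2).continuousOn fun s hs =>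
      (hm s (hsub hs)).ne'
  have l1 : Real.log D - Real.log (f a' ^ 2) ≤ ∫ s in a'..b', dp f f' s / f s ^ 2 := by
    have hpos : ∀ s ∈ Icc a' b', 0 < P f f' R s - N f f' R a' := fun s hs => by
      have h1 := h.monoP hs.1
      have h2 := h.sub_eq a'
      linarith
    have hder : ∀ s ∈ uIcc a' b', HasDerivAt (fun s => Real.log (P f f' R s - N f f' R a'))
        (dp f f' s / (P f f' R s - N f f' R a')) s := by
      intro s hs
      rw [uIcc_of_le hab'.le] at hs
      exact ((h.derP s).sub_const _).log (hpos s hs).ne'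
    have i3 : IntervalIntegrable (fun s => dp f f' s / (P f f' R s - N f f' R a')) volume a' b' := by
      refine ContinuousOn.intervalIntegrable ?_
      rw [uIcc_of_le hab'.le]
      exact h.cont_dp.continuousOn.div (h.contP.sub continuous_const).continuousOn fun s hs =>
        (hpos s hs).ne'
    have h3 := intervalIntegral.integral_eq_sub_of_hasDerivAt hder i3
    rw [← h.sub_eq a', hD, ← h3]
    refine intervalIntegral.integral_mono_on hab'.le i3 i1 fun s hs => ?_
    refine div_le_div_of_nonneg_left (dp_nonneg _ _ _) (hm s (hsub hs)) ?_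
    rw [← h.sub_eq s]
    have := h.monoN hs.1
    linarith
  have l2 : Real.log D - Real.log (f b' ^ 2) ≤ ∫ s in a'..b', dn f f' s / f s ^ 2 := by
    have hpos : ∀ s ∈ Icc a' b', 0 < P f f' R b' - N f f' R s := fun s hs => by
      have h1 := h.monoN hs.2
      have h2 := h.sub_eq b'
      linarith
    have hder : ∀ s ∈ uIcc a' b', HasDerivAt (fun s => -Real.log (P f f' R b' - N f f' R s))
        (dn f f' s / (P f f' R b' - N f f' R s)) s := by
      intro s hs
      rw [uIcc_of_le hab'.le] at hs
      refine (((h.derN s).const_sub _).log (hpos s hs).ne').neg.congr_deriv ?_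
      ring
    have i3 : IntervalIntegrable (fun s => dn f f' s / (P f f' R b' - N f f' R s)) volume a' b' := by
      refine ContinuousOn.intervalIntegrable ?_
      rw [uIcc_of_le hab'.le]
      exact h.cont_dn.continuousOn.div (continuous_const.sub h.contN).continuousOn fun s hs =>
        (hpos s hs).ne'
    have h3 := intervalIntegral.integral_eq_sub_of_hasDerivAt hder i3
    have h4 : Real.log D - Real.log (f b' ^ 2)
        = ∫ s in a'..b', dn f f' s / (P f f' R b' - N f f' R s) := by
      rw [h3, ← h.sub_eq b', hD]; ring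
    rw [h4]
    refine intervalIntegral.integral_mono_on hab'.le i3 i2 fun s hs => ?_
    refine div_le_div_of_nonneg_left (dn_nonneg _ _ _) (hm s (hsub hs)) ?_
    rw [← h.sub_eq s]
    have := h.monoP hs.2
    linarith
  have l3 : 2 * (Real.log 2 - η) ≤ 2 * ∫ s in a'..b', g s := by
    have e1 : 2 * ∫ s in a'..b', g s
        = (∫ s in a'..b', dp f f' s / f s ^ 2) + ∫ s in a'..b', dn f f' s / f s ^ 2 := by
      rw [← intervalIntegral.integral_add i1 i2, ← intervalIntegral.integral_const_mul]
      refine intervalIntegral.integral_congr fun s hs => ?_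
      rw [uIcc_of_le hab'.le] at hs
      exact hgp s hs
    rw [e1]
    have h5 : f a' ^ 2 * f b' ^ 2 ≤ (D * (1 + η) / 2) ^ 2 := by
      have : f a' ^ 2 * f b' ^ 2 ≤ ((f a' ^ 2 + f b' ^ 2) / 2) ^ 2 := by
        nlinarith [sq_nonneg (f a' ^ 2 - f b' ^ 2)]
      refine this.trans ?_
      gcongr
    have h6 : Real.log (f a' ^ 2) + Real.log (f b' ^ 2)
        ≤ 2 * (Real.log D + Real.log (1 + η) - Real.log 2) := by
      rw [← Real.log_mul hma.ne' hmb.ne']
      refine (Real.log_le_log (by positivity) h5).trans (le_of_eq ?_)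
      rw [Real.log_pow, Real.log_div (by positivity) (by norm_num),
        Real.log_mul hDp.ne' (by positivity)]
      push_cast
      ring
    have h7 : Real.log (1 + η) ≤ η := by
      have := Real.log_le_sub_one_of_pos (show 0 < 1 + η by linarith)
      linarith
    linarith
  -- Cauchy-Schwarz
  have hg2 : IntegrableOn (fun s => g s ^ 2) (Ioo a b) := by
    refine hG.congr_fun (fun s _ => ?_) measurableSet_Ioo
    simp only [hg]
    rw [div_pow, sq_abs, sq_abs]
  have hJg : J = ∫ s in Ioo a b, g s ^ 2 := by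
    rw [hJ]
    refine setIntegral_congr_fun measurableSet_Ioo fun s _ => ?_
    simp only [hg]
    rw [div_pow, sq_abs, sq_abs]
  set A := ∫ s in a'..b', g s with hA
  have l4 : A ^ 2 ≤ (b' - a') * ∫ s in a'..b', g s ^ 2 := by
    set lam := A / (b' - a') with hlam
    have hl : 0 < b' - a' := by linarith
    have h8 : ∫ s in a'..b', (2 * lam * g s - lam ^ 2) ≤ ∫ s in a'..b', g s ^ 2 := by
      refine intervalIntegral.integral_mono_on hab'.le ?_ ?_ fun s _ => ?_
      · refine ContinuousOn.intervalIntegrable ?_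
        rw [uIcc_of_le hab'.le]
        exact (continuousOn_const.mul hgc).sub continuousOn_const
      · refine ContinuousOn.intervalIntegrable ?_
        rw [uIcc_of_le hab'.le]
        exact hgc.pow 2
      · nlinarith [sq_nonneg (g s - lam)]
    rw [intervalIntegral.integral_sub, intervalIntegral.integral_const_mul,
      intervalIntegral.integral_const, ← hA] at h8
    · have e2 : 2 * lam * A - (b' - a') • lam ^ 2 = A ^ 2 / (b' - a') := by
        rw [hlam, smul_eq_mul]
        field_simp
        ring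
      rw [e2, div_le_iff₀ hl] at h8
      linarith
    · refine ContinuousOn.intervalIntegrable ?_
      rw [uIcc_of_le hab'.le]
      exact continuousOn_const.mul hgc
    · exact intervalIntegrable_const
  have l5 : ∫ s in a'..b', g s ^ 2 ≤ J := by
    rw [intervalIntegral.integral_of_le hab'.le, hJg]
    refine setIntegral_mono_set hg2 (Eventually.of_forall fun s => sq_nonneg _) ?_
    exact (Ioc_subset_Icc_self.trans hsub).eventuallyLE
  have l6 : 0 ≤ ∫ s in a'..b', g s ^ 2 :=
    intervalIntegral.integral_nonneg hab'.le fun s _ => sq_nonneg _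
  refine le_trans (by linarith : Real.log 2 - η ≤ A) (Real.le_sqrt_of_sq_le (l4.trans ?_))
  have : b' - a' ≤ b - a := by linarith [haI.1, hbI.2]
  exact mul_le_mul this l5 l6 (by linarith)

end

end Pool.Agent.TH340.FF
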