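import Pool.Agent.TH340.FF.One

/-!
The inequality on the line.
-/

set_option autoImplicit false

open MeasureTheory Set Filter Topology

namespace Pool.Agent.TH340.FF

variable {f f' : ℝ → ℝ} {R : ℝ}

theorem Dat.slice (h : Dat f f' R) (q : ℝ) :
    {s | N f f' R s < q ∧ q < P f f' R s} = ∅ ∨
    ∃ a b, a < b ∧ {s | N f f' R s < q ∧ q < P f f' R s} = Ioo a b ∧
      P f f' R a = q ∧ N f f' R b = q := by
  rcases eq_empty_or_nonempty {s | N f f' R s < q ∧ q < P f f' R s} with h0 | ⟨s₀, hs₀⟩
  · exact Or.inl h0
  refine Or.inr ?_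
  have h1 : 0 < f s₀ ^ 2 := by
    rw [← h.sub_eq s₀]
    linarith [hs₀.1, hs₀.2]
  have h2 : |s₀| < R := by
    by_contra hcon
    push Not at hcon
    rw [h.supp s₀ hcon] at h1
    simp at h1
  have h3 := abs_lt.1 h2
  have hq0 : 0 < q := by
    have := h.monoN h3.1.le
    rw [N_left] at this
    exact this.trans_lt hs₀.1
  have hNR : q < N f f' R R := by
    have h4 := h.sub_eq R
    rw [h.supp R (by rw [abs_of_pos h.pos])] at h4
    have h5 := h.monoP h3.2.le
    have h6 := hs₀.2
    norm_num at h4
    linarith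
  set A : Set ℝ := {s | P f f' R s ≤ q} with hA
  set A' : Set ℝ := {s | q ≤ N f f' R s} with hA'
  have hAc : IsClosed A := isClosed_le h.contP continuous_const
  have hAc' : IsClosed A' := isClosed_le continuous_const h.contN
  have hAn : A.Nonempty := ⟨-R, by
    show P f f' R (-R) ≤ q
    rw [P_left]; exact hq0.le⟩
  have hAn' : A'.Nonempty := ⟨R, hNR.le⟩
  have hAb : ∀ s ∈ A, s < s₀ := fun s hs => by
    by_contra hcon
    push Not at hcon
    exact absurd (hs₀.2.trans_le (h.monoP hcon)) (not_lt.2 hs)
  have hAb' : ∀ s ∈ A', s₀ < s := fun s hs => by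
    by_contra hcon
    push Not at hcon
    exact absurd ((h.monoN hcon).trans_lt hs₀.1) (not_lt.2 hs)
  have hbd : BddAbove A := ⟨s₀, fun s hs => (hAb s hs).le⟩
  have hbd' : BddBelow A' := ⟨s₀, fun s hs => (hAb' s hs).le⟩
  have ha := hAc.csSup_mem hAn hbd
  have hb := hAc'.csInf_mem hAn' hbd'
  set a := sSup A with hadef
  set b := sInf A' with hbdef
  have has := hAb a ha
  have hbs := hAb' b hb
  have k1 : ∀ s, a < s → q < P f f' R s := fun s hs => by
    by_contra hcon
    push Not at hcon
    exact absurd (le_csSup hbd hcon) (not_le.2 hs)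
  have k2 : ∀ s, s < b → N f f' R s < q := fun s hs => by
    by_contra hcon
    push Not at hcon
    exact absurd (csInf_le hbd' hcon) (not_le.2 hs)
  refine ⟨a, b, has.trans hbs, ?_, ?_, ?_⟩
  · ext s
    constructor
    · rintro ⟨hs1, hs2⟩
      constructor
      · by_contra hcon
        push Not at hcon
        exact absurd (hs2.trans_le (h.monoP hcon)) (not_lt.2 ha)
      · by_contra hcon
        push Not at hcon
        exact absurd ((h.monoN hcon).trans_lt hs1) (not_lt.2 hb)
    · rintro ⟨hs1, hs2⟩
      exact ⟨k2 s hs2, k1 s hs1⟩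
  · refine le_antisymm ha ?_
    have : Tendsto (P f f' R) (𝓝[>] a) (𝓝 (P f f' R a)) :=
      (h.contP.tendsto a).mono_left nhdsWithin_le_nhds
    refine ge_of_tendsto this ?_
    filter_upwards [self_mem_nhdsWithin] with s hs
    exact (k1 s hs).le
  · refine le_antisymm ?_ hb
    have : Tendsto (N f f' R) (𝓝[<] b) (𝓝 (N f f' R b)) :=
      (h.contN.tendsto b).mono_left nhdsWithin_le_nhds
    refine le_of_tendsto this ?_
    filter_upwards [self_mem_nhdsWithin] with s hs
    exact (k2 s hs).le

/-- The region between the graphs of `N` and `P` -/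
def E (f f' : ℝ → ℝ) (R : ℝ) : Set (ℝ × ℝ) :=
  {z | N f f' R z.1 < z.2 ∧ z.2 < P f f' R z.1}

theorem Dat.isOpen_E (h : Dat f f' R) : IsOpen (E f f' R) :=
  (isOpen_lt (h.contN.comp continuous_fst) continuous_snd).inter
    (isOpen_lt continuous_snd (h.contP.comp continuous_fst))

theorem Dat.E_sub (h : Dat f f' R) : E f f' R ⊆ Ioo (-R) R ×ˢ Ioo 0 (P f f' R R) := by
  rintro ⟨s, q⟩ ⟨h1, h2⟩
  simp only at h1 h2
  have h3 : 0 < f s ^ 2 := by
    rw [← h.sub_eq s]
    linarith
  have h4 : |s| < R := by
    by_contra hcon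
    push Not at hcon
    rw [h.supp s hcon] at h3
    simp at h3
  have h5 := abs_lt.1 h4
  refine ⟨h5, ?_, ?_⟩
  · have := h.monoN h5.1.le
    rw [N_left] at this
    exact this.trans_lt h1
  · exact h2.trans_le (h.monoP h5.2.le)

/-- integral over the slice in `q` -/
theorem Dat.slice_q (h : Dat f f' R) (s c : ℝ) :
    ∫ q, (E f f' R).indicator (fun _ => c) (s, q) = c * f s ^ 2 := by
  have e : (fun q => (E f f' R).indicator (fun _ => c) (s, q))
      = (Ioo (N f f' R s) (P f f' R s)).indicator fun _ => c := by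
    funext q
    by_cases hq : q ∈ Ioo (N f f' R s) (P f f' R s)
    · rw [indicator_of_mem hq, indicator_of_mem (show (s, q) ∈ E f f' R from hq)]
    · rw [indicator_of_notMem hq, indicator_of_notMem (show (s, q) ∉ E f f' R from hq)]
  rw [e, integral_indicator measurableSet_Ioo, setIntegral_const, smul_eq_mul, Measure.real,
    Real.volume_Ioo, ENNReal.toReal_ofReal, h.sub_eq, mul_comm]
  rw [h.sub_eq]
  positivity

/-- The inequality on the line -/
theorem Dat.ineq (h : Dat f f' R) {g g' : ℝ → ℝ} (hg : ∀ s, HasDerivAt g (g' s) s)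
    (hg' : Continuous g') {κ : ℝ} (hκ : 0 ≤ κ) (hp : ∀ a b, a < b → g a - g b ≤ κ / (b - a)) :
    -∫ s, g' s * f s ^ 2 ≤ κ / Real.log 2 ^ 2 * ∫ s, f' s ^ 2 := by
  have hEm : MeasurableSet (E f f' R) := h.isOpen_E.measurableSet
  have hL : 0 < Real.log 2 := Real.log_pos (by norm_num)
  -- the two functions on the plane
  set F1 : ℝ × ℝ → ℝ := (E f f' R).indicator fun z => g' z.1 with hF1
  set G : ℝ → ℝ := fun s => f' s ^ 2 / f s ^ 2 with hG
  have hGm : Measurable G := (h.cont.pow 2).measurable.div (h.contf.pow 2).measurable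
  have hG0 : ∀ s, 0 ≤ G s := fun s => by positivity
  set F2 : ℝ × ℝ → ℝ := (E f f' R).indicator fun z => G z.1 with hF2
  have m1 : Measurable F1 := (hg'.measurable.comp measurable_fst).indicator hEm
  have m2 : Measurable F2 := (hGm.comp measurable_fst).indicator hEm
  have s1 : ∀ s q, F1 (s, q) = (E f f' R).indicator (fun _ => g' s) (s, q) := fun s q => by
    simp only [hF1, indicator]
  have s2 : ∀ s q, F2 (s, q) = (E f f' R).indicator (fun _ => G s) (s, q) := fun s q => by
    simp only [hF2, indicator]
  -- integrability of the first one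
  obtain ⟨C, hC⟩ := (isCompact_Icc (a := -R) (b := R)).exists_bound_of_continuousOn
    hg'.continuousOn
  have i1 : Integrable F1 (volume.prod volume) := by
    have hb : Integrable ((Ioo (-R) R ×ˢ Ioo 0 (P f f' R R)).indicator fun _ : ℝ × ℝ => C)
        (volume.prod volume) := by
      refine (integrable_indicator_iff (measurableSet_Ioo.prod measurableSet_Ioo)).2 ?_
      refine integrableOn_const ?_
      rw [Measure.prod_prod]
      exact (ENNReal.mul_lt_top (by simp) (by simp)).ne
    refine hb.mono' m1.aestronglyMeasurable (Eventually.of_forall fun z => ?_)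
    by_cases hz : z ∈ E f f' R
    · have hz' := h.E_sub hz
      simp only [hF1]
      rw [indicator_of_mem hz, indicator_of_mem hz']
      exact hC _ (Ioo_subset_Icc_self hz'.1)
    · simp only [hF1]
      rw [indicator_of_notMem hz, norm_zero]
      refine indicator_nonneg (fun _ _ => ?_) _
      exact (norm_nonneg _).trans (hC 0 ⟨by linarith [h.pos], h.pos.le⟩)
  -- and of the second
  have hfi : Integrable fun s => f' s ^ 2 := by
    refine Continuous.integrable_of_hasCompactSupport (h.cont.pow 2) ?_
    refine HasCompactSupport.of_support_subset_isCompact (isCompact_Icc (a := -R) (b := R)) ?_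
    intro s hs
    by_contra hcon
    apply hs
    have h1 : R < |s| := by
      by_contra h2
      push Not at h2
      exact hcon ⟨(abs_le.1 h2).1, (abs_le.1 h2).2⟩
    simp [h.supp' h1]
  have hGf : ∀ s, G s * f s ^ 2 ≤ f' s ^ 2 := fun s => by
    rcases eq_or_ne (f s) 0 with h0 | h0
    · simp only [hG, h0]
      simp
      positivity
    · simp only [hG]
      rw [div_mul_cancel₀ _ (pow_ne_zero 2 h0)]
  have hGf0 : ∀ s, 0 ≤ G s * f s ^ 2 := fun s => mul_nonneg (hG0 s) (sq_nonneg _)
  have hGi : Integrable fun s => G s * f s ^ 2 := by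
    refine hfi.mono' (hGm.mul (h.contf.pow 2).measurable).aestronglyMeasurable
      (Eventually.of_forall fun s => ?_)
    rw [Real.norm_of_nonneg (hGf0 s)]
    exact hGf s
  have i2 : Integrable F2 (volume.prod volume) := by
    rw [integrable_prod_iff m2.aestronglyMeasurable]
    constructor
    · refine Eventually.of_forall fun s => ?_
      have e : (fun q => F2 (s, q)) = (Ioo (N f f' R s) (P f f' R s)).indicator fun _ => G s := by
        funext q
        rw [s2]
        by_cases hq : q ∈ Ioo (N f f' R s) (P f f' R s)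
        · rw [indicator_of_mem hq, indicator_of_mem (show (s, q) ∈ E f f' R from hq)]
        · rw [indicator_of_notMem hq, indicator_of_notMem (show (s, q) ∉ E f f' R from hq)]
      rw [e, integrable_indicator_iff measurableSet_Ioo]
      exact integrableOn_const (by simp)
    · refine hGi.congr (Eventually.of_forall fun s => ?_)
      show G s * f s ^ 2 = ∫ q, ‖F2 (s, q)‖
      rw [← h.slice_q s (G s)]
      refine integral_congr_ae (Eventually.of_forall fun q => ?_)
      show (E f f' R).indicator (fun _ => G s) (s, q) = ‖F2 (s, q)‖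
      rw [s2, Real.norm_of_nonneg (indicator_nonneg (fun _ _ => hG0 s) _)]
  -- Fubini
  have e1 : ∫ s, g' s * f s ^ 2 = ∫ q, ∫ s, F1 (s, q) := by
    rw [← integral_prod_symm F1 i1, integral_prod F1 i1]
    refine integral_congr_ae (Eventually.of_forall fun s => ?_)
    show g' s * f s ^ 2 = ∫ q, F1 (s, q)
    rw [← h.slice_q s (g' s)]
    refine integral_congr_ae (Eventually.of_forall fun q => ?_)
    exact (s1 s q).symm
  have e2 : ∫ q, ∫ s, F2 (s, q) = ∫ s, G s * f s ^ 2 := by
    rw [← integral_prod_symm F2 i2, integral_prod F2 i2]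
    refine integral_congr_ae (Eventually.of_forall fun s => ?_)
    show ∫ q, F2 (s, q) = G s * f s ^ 2
    rw [← h.slice_q s (G s)]
    refine integral_congr_ae (Eventually.of_forall fun q => ?_)
    exact s2 s q
  have j1 : Integrable fun q => ∫ s, F1 (s, q) := i1.integral_prod_right
  have j2 : Integrable fun q => ∫ s, F2 (s, q) := i2.integral_prod_right
  have a2 : ∀ᵐ q, Integrable fun s => F2 (s, q) := i2.prod_left_ae
  -- the inequality for almost every `q`
  have key : ∀ᵐ q, -∫ s, F1 (s, q) ≤ κ / Real.log 2 ^ 2 * ∫ s, F2 (s, q) := by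
    filter_upwards [a2] with q hq
    set I : Set ℝ := {s | N f f' R s < q ∧ q < P f f' R s} with hI
    have t1 : (fun s => F1 (s, q)) = I.indicator g' := by
      funext s
      simp only [hF1]
      by_cases hs : s ∈ I
      · rw [indicator_of_mem hs, indicator_of_mem (show (s, q) ∈ E f f' R from hs)]
      · rw [indicator_of_notMem hs, indicator_of_notMem (show (s, q) ∉ E f f' R from hs)]
    have t2 : (fun s => F2 (s, q)) = I.indicator G := by
      funext s
      simp only [hF2]
      by_cases hs : s ∈ I
      · rw [indicator_of_mem hs, indicator_of_mem (show (s, q) ∈ E f f' R from hs)]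
      · rw [indicator_of_notMem hs, indicator_of_notMem (show (s, q) ∉ E f f' R from hs)]
    rw [t1, t2]
    rw [t2] at hq
    rcases h.slice q with h0 | ⟨a, b, hab, hIab, hPa, hNb⟩
    · rw [← hI] at h0
      rw [h0]
      simp
    · rw [← hI] at hIab
      rw [hIab] at hq ⊢
      rw [integral_indicator measurableSet_Ioo, integral_indicator measurableSet_Ioo]
      rw [integrable_indicator_iff measurableSet_Ioo] at hq
      have hk := h.key hab hPa hNb (fun s hs => by
        rw [← hIab] at hs; exact hs) hq
      have e3 : ∫ s in Ioo a b, g' s = g b - g a := by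
        rw [← integral_Ioc_eq_integral_Ioo, ← intervalIntegral.integral_of_le hab.le]
        exact intervalIntegral.integral_eq_sub_of_hasDerivAt (fun s _ => hg s)
          (hg'.intervalIntegrable _ _)
      rw [e3]
      have hba : 0 < b - a := by linarith
      calc -(g b - g a) = g a - g b := by ring
        _ ≤ κ / (b - a) := hp a b hab
        _ ≤ κ / Real.log 2 ^ 2 * ∫ s in Ioo a b, G s := by
          rw [div_mul_eq_mul_div, div_le_div_iff₀ hba (by positivity)]
          calc κ * Real.log 2 ^ 2 ≤ κ * ((b - a) * ∫ s in Ioo a b, G s) := by gcongr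
            _ = _ := by ring
  calc -∫ s, g' s * f s ^ 2 = ∫ q, -∫ s, F1 (s, q) := by rw [e1, integral_neg]
    _ ≤ ∫ q, κ / Real.log 2 ^ 2 * ∫ s, F2 (s, q) := integral_mono_ae j1.neg (j2.const_mul _) key
    _ = κ / Real.log 2 ^ 2 * ∫ s, G s * f s ^ 2 := by rw [integral_const_mul, e2]
    _ ≤ κ / Real.log 2 ^ 2 * ∫ s, f' s ^ 2 := by
      have := integral_mono hGi hfi hGf
      gcongr

end Pool.Agent.TH340.FF
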