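import Pool.Agent.TH340.FF.One2

/-!
Integration along parallel lines, and the inequality in a fixed direction.
-/

set_option autoImplicit false

open MeasureTheory Set Filter Topology
open scoped InnerProductSpace ContDiff

namespace Pool.Agent.TH340.FF

variable {E : Type*} [NormedAddCommGroup E] [InnerProductSpace ℝ E] [FiniteDimensional ℝ E]
  [MeasurableSpace E] [BorelSpace E]

/-- A function whose integrals over all lines in the direction `e` are at most zero has an integral
at most zero. -/
theorem integral_le_of_lines {f : E → ℝ} (hf : Integrable f) {e : E} (he : ⟪e, e⟫_ℝ = 1)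
    (h : ∀ x, ∫ s : ℝ, f (x + s • e) ≤ 0) : ∫ x, f x ≤ 0 := by
  set χ : ℝ → ℝ := (Ico (0 : ℝ) 1).indicator fun _ => 1 with hχ
  have hχm : Measurable χ := measurable_const.indicator measurableSet_Ico
  have hχ0 : ∀ s, 0 ≤ χ s := fun s => indicator_nonneg (fun _ _ => zero_le_one) s
  have hc : ∀ c : ℝ, (fun s => χ (c - s)) = (Ioc (c - 1) c).indicator fun _ => 1 := by
    intro c
    funext s
    by_cases hs : s ∈ Ioc (c - 1) c
    · rw [indicator_of_mem hs, hχ, indicator_of_mem]
      exact ⟨by linarith [hs.2], by linarith [hs.1]⟩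
    · rw [indicator_of_notMem hs, hχ, indicator_of_notMem]
      rintro ⟨h1, h2⟩
      exact hs ⟨by linarith, by linarith⟩
  have hi : ∀ c : ℝ, Integrable fun s => χ (c - s) := fun c => by
    rw [hc, integrable_indicator_iff measurableSet_Ioc]
    exact integrableOn_const (by simp)
  have h1 : ∀ c : ℝ, ∫ s, χ (c - s) = 1 := fun c => by
    rw [hc, integral_indicator measurableSet_Ioc]
    simp
  set Ψ : ℝ × E → ℝ := fun z => f z.2 * χ (⟪e, z.2⟫_ℝ - z.1) with hΨ
  have hin : Measurable fun z : ℝ × E => ⟪e, z.2⟫_ℝ - z.1 :=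
    ((continuous_const.inner continuous_snd).sub continuous_fst).measurable
  have mΨ : AEStronglyMeasurable Ψ ((volume : Measure ℝ).prod (volume : Measure E)) :=
    hf.aestronglyMeasurable.comp_snd.mul (hχm.comp hin).aestronglyMeasurable
  have iΨ : Integrable Ψ ((volume : Measure ℝ).prod (volume : Measure E)) := by
    rw [integrable_prod_iff' mΨ]
    refine ⟨Eventually.of_forall fun y => ?_, ?_⟩
    · show Integrable fun s => f y * χ (⟪e, y⟫_ℝ - s)
      exact (hi _).const_mul _
    refine hf.norm.congr (Eventually.of_forall fun y => ?_)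
    show ‖f y‖ = ∫ s, ‖f y * χ (⟪e, y⟫_ℝ - s)‖
    have : ∀ s, ‖f y * χ (⟪e, y⟫_ℝ - s)‖ = ‖f y‖ * χ (⟪e, y⟫_ℝ - s) := fun s => by
      rw [norm_mul, Real.norm_of_nonneg (hχ0 _)]
    simp_rw [this]
    rw [integral_const_mul, h1, mul_one]
  have eΨ : ∫ z, Ψ z ∂((volume : Measure ℝ).prod (volume : Measure E)) = ∫ y, f y := by
    rw [integral_prod_symm Ψ iΨ]
    refine integral_congr_ae (Eventually.of_forall fun y => ?_)
    show ∫ s, f y * χ (⟪e, y⟫_ℝ - s) = f y
    rw [integral_const_mul, h1, mul_one]
  -- the shear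
  set T : ℝ × E → ℝ × E := fun z => (z.1, z.2 + z.1 • e) with hT
  have mT : MeasurePreserving T ((volume : Measure ℝ).prod (volume : Measure E))
      ((volume : Measure ℝ).prod (volume : Measure E)) := by
    refine MeasurePreserving.skew_product (g := fun (s : ℝ) (x : E) => x + s • e)
      (MeasurePreserving.id _) ?_ (Eventually.of_forall fun s => ?_)
    · exact (continuous_snd.add (continuous_fst.smul continuous_const)).measurable
    · exact map_add_right_eq_self _ _
  have iT : Integrable (Ψ ∘ T) ((volume : Measure ℝ).prod (volume : Measure E)) :=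
    (mT.integrable_comp mΨ).2 iΨ
  have eT : ∫ z, (Ψ ∘ T) z ∂((volume : Measure ℝ).prod (volume : Measure E))
      = ∫ z, Ψ z ∂((volume : Measure ℝ).prod (volume : Measure E)) := by
    conv_rhs => rw [← mT.map_eq]
    rw [integral_map mT.measurable.aemeasurable (by rw [mT.map_eq]; exact mΨ)]
    rfl
  rw [← eΨ, ← eT, integral_prod_symm _ iT]
  refine integral_nonpos fun x => ?_
  show ∫ s : ℝ, f (x + s • e) * χ (⟪e, x + s • e⟫_ℝ - s) ≤ 0
  have : ∀ s : ℝ, f (x + s • e) * χ (⟪e, x + s • e⟫_ℝ - s) = χ ⟪e, x⟫_ℝ * f (x + s • e) := by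
    intro s
    rw [inner_add_right, inner_smul_right, he, mul_one, add_sub_cancel_right, mul_comm]
  simp_rw [this]
  rw [integral_const_mul]
  exact mul_nonpos_of_nonneg_of_nonpos (hχ0 _) (h x)

/-- The inequality in the direction `e`, for smooth functions -/
theorem dir_smooth {e : E} (he : ⟪e, e⟫_ℝ = 1) {h F : E → ℝ} (hh : ContDiff ℝ 1 h)
    (hF : ContDiff ℝ 1 F) (hFc : HasCompactSupport F) {κ B : ℝ} (hκ : 0 ≤ κ)
    (hp : ∀ (x : E) (r : ℝ), 0 < r → h x - h (x + r • e) ≤ κ / r + B * r) :
    -∫ x, fderiv ℝ h x e * F x ^ 2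
      ≤ κ / Real.log 2 ^ 2 * (∫ x, (fderiv ℝ F x e) ^ 2) + B * ∫ x, F x ^ 2 := by
  set K := κ / Real.log 2 ^ 2 with hK
  have hdh : Continuous fun x => fderiv ℝ h x e :=
    (hh.continuous_fderiv (by norm_num)).clm_apply continuous_const
  have hdF : Continuous fun x => fderiv ℝ F x e :=
    (hF.continuous_fderiv (by norm_num)).clm_apply continuous_const
  have hF2 : HasCompactSupport fun x => F x ^ 2 := hFc.comp_left (g := fun y : ℝ => y ^ 2) (by simp)
  have hdFc : HasCompactSupport fun x => fderiv ℝ F x e := by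
    refine (hFc.fderiv (𝕜 := ℝ)).comp_left (g := fun L : E →L[ℝ] ℝ => L e) (by simp)
  have hdFc2 : HasCompactSupport fun x => (fderiv ℝ F x e) ^ 2 :=
    hdFc.comp_left (g := fun y : ℝ => y ^ 2) (by simp)
  have i1 : Integrable fun x => fderiv ℝ h x e * F x ^ 2 :=
    (hdh.mul (hF.continuous.pow 2)).integrable_of_hasCompactSupport hF2.mul_left
  have i2 : Integrable fun x => (fderiv ℝ F x e) ^ 2 :=
    Continuous.integrable_of_hasCompactSupport (hdF.pow 2) hdFc2
  have i3 : Integrable fun x => F x ^ 2 :=
    (hF.continuous.pow 2).integrable_of_hasCompactSupport hF2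
  have key : ∫ x, (-(fderiv ℝ h x e * F x ^ 2) - K * (fderiv ℝ F x e) ^ 2 - B * F x ^ 2) ≤ 0 := by
    refine integral_le_of_lines ((i1.neg.sub (i2.const_mul K)).sub (i3.const_mul B)) he fun x => ?_
    -- the line through x
    have hline : ∀ s : ℝ, HasDerivAt (fun s : ℝ => x + s • e) e s := fun s => by
      simpa using ((hasDerivAt_id s).smul_const e).const_add x
    have hcl : Continuous fun s : ℝ => x + s • e :=
      continuous_const.add (continuous_id.smul continuous_const)
    have hnorm : ∀ s : ℝ, |s| - ‖x‖ ≤ ‖x + s • e‖ := by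
      intro s
      have h1 : ‖e‖ = 1 := by
        have : ‖e‖ ^ 2 = 1 := by rw [← real_inner_self_eq_norm_sq, he]
        nlinarith [norm_nonneg e]
      have h2 : ‖s • e‖ = |s| := by rw [norm_smul, h1, mul_one, Real.norm_eq_abs]
      have h3 : ‖s • e‖ ≤ ‖x + s • e‖ + ‖x‖ := by
        have := norm_sub_le (x + s • e) x
        simpa using this
      rw [h2] at h3
      linarith
    obtain ⟨R, hR⟩ := hFc.isCompact.isBounded.exists_norm_le
    have hdat : Dat (fun s : ℝ => F (x + s • e)) (fun s => fderiv ℝ F (x + s • e) e)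
        (|R| + ‖x‖ + 1) := by
      refine ⟨by positivity, fun s => ?_, hdF.comp hcl, fun s hs => ?_⟩
      · exact ((hF.differentiable (by norm_num)) _).hasFDerivAt.comp_hasDerivAt s (hline s)
      · by_contra hcon
        have h4 := hR _ (subset_tsupport F hcon)
        have h5 := hnorm s
        have h6 := le_abs_self R
        linarith
    have hdh' : ∀ s : ℝ, HasDerivAt (fun s : ℝ => h (x + s • e) + B * s)
        (fderiv ℝ h (x + s • e) e + B) s := by
      intro s
      have h7 := ((hh.differentiable (by norm_num)) _).hasFDerivAt.comp_hasDerivAt s (hline s)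
      have h8 := (hasDerivAt_id s).const_mul B
      rw [mul_one] at h8
      exact h7.add h8
    have hmain := hdat.ineq hdh' ((hdh.comp hcl).add continuous_const) hκ (fun a b hab => by
      have h9 := hp (x + a • e) (b - a) (by linarith)
      have h10 : x + a • e + (b - a) • e = x + b • e := by
        rw [add_assoc, ← add_smul]
        congr 2
        ring
      rw [h10] at h9
      linarith)
    rw [← hK] at hmain
    have c1 : HasCompactSupport fun s : ℝ => F (x + s • e) := by
      refine HasCompactSupport.of_support_subset_isCompact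
        (isCompact_Icc (a := -(|R| + ‖x‖ + 1)) (b := |R| + ‖x‖ + 1)) fun s hs => ?_
      by_contra hcon
      apply hs
      refine hdat.supp s ?_
      by_contra h11
      push Not at h11
      exact hcon ⟨(abs_lt.1 h11).1.le, (abs_lt.1 h11).2.le⟩
    have c2 : HasCompactSupport fun s : ℝ => fderiv ℝ F (x + s • e) e := by
      refine HasCompactSupport.of_support_subset_isCompact
        (isCompact_Icc (a := -(|R| + ‖x‖ + 1)) (b := |R| + ‖x‖ + 1)) fun s hs => ?_
      by_contra hcon
      apply hs
      refine hdat.supp' ?_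
      by_contra h11
      push Not at h11
      exact hcon ⟨(abs_le.1 h11).1, (abs_le.1 h11).2⟩
    have c1' : HasCompactSupport fun s : ℝ => F (x + s • e) ^ 2 :=
      c1.comp_left (g := fun y : ℝ => y ^ 2) (by simp)
    have c2' : HasCompactSupport fun s : ℝ => fderiv ℝ F (x + s • e) e ^ 2 :=
      c2.comp_left (g := fun y : ℝ => y ^ 2) (by simp)
    have k1 : Integrable fun s : ℝ => fderiv ℝ h (x + s • e) e * F (x + s • e) ^ 2 :=
      ((hdh.comp hcl).mul ((hF.continuous.comp hcl).pow 2)).integrable_of_hasCompactSupport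
        c1'.mul_left
    have k2 : Integrable fun s : ℝ => fderiv ℝ F (x + s • e) e ^ 2 :=
      Continuous.integrable_of_hasCompactSupport ((hdF.comp hcl).pow 2) c2'
    have k3 : Integrable fun s : ℝ => F (x + s • e) ^ 2 :=
      ((hF.continuous.comp hcl).pow 2).integrable_of_hasCompactSupport c1'
    have e1 : ∫ s : ℝ, (fderiv ℝ h (x + s • e) e + B) * F (x + s • e) ^ 2
        = (∫ s : ℝ, fderiv ℝ h (x + s • e) e * F (x + s • e) ^ 2)
          + B * ∫ s : ℝ, F (x + s • e) ^ 2 := by
      rw [← integral_const_mul, ← integral_add k1 (k3.const_mul B)]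
      refine integral_congr_ae (Eventually.of_forall fun s => ?_)
      simp only
      ring
    rw [e1] at hmain
    rw [integral_sub, integral_sub, integral_neg, integral_const_mul, integral_const_mul]
    · linarith
    · exact k1.neg
    · exact k2.const_mul K
    · exact k1.neg.sub (k2.const_mul K)
    · exact k3.const_mul B
  rw [integral_sub, integral_sub, integral_neg, integral_const_mul, integral_const_mul] at key
  · linarith
  · exact i1.neg
  · exact i2.const_mul K
  · exact i1.neg.sub (i2.const_mul K)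
  · exact i3.const_mul B

end Pool.Agent.TH340.FF
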